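import Mathlib.Data.Nat.Basic

/-! The box checker (definitions only). Fixed point scale `2^16`, shift `2`. -/

namespace Pool.Agent.MP_d97ab6_al.H32

/-- Lists of records of unresolved vectors. -/
inductive RL
  | nil
  | cons (a0 a1 a2 a3 m0 m1 m2 m3 e th b : Nat) (tl : RL)

/-- Tables of hubs. -/
inductive HT
  | lf (a0 a1 a2 a3 m0 m1 m2 m3 e th b k : Nat)
  | nd (l r : HT)

noncomputable def frc (n : Nat) (k : Nat → Bool) : Bool :=
  Nat.rec (motive := fun _ => Bool) false (fun m _ => k m) (Nat.succ n)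

def ad (x y : Nat) : Nat := Nat.add (Nat.sub x y) (Nat.sub y x)

def far (c0 c1 c2 c3 r0 r1 r2 r3 r4 np nq a0 a1 a2 a3 m0 m1 m2 m3 e th : Nat) : Bool :=
  Nat.ble th (Nat.add (Nat.pow (Nat.add
      (Nat.add (Nat.pow (Nat.sub (Nat.add (Nat.sub c0 a0) (Nat.sub a0 c0)) r0) 2)
        (Nat.pow (Nat.sub (Nat.add (Nat.sub c2 a2) (Nat.sub a2 c2)) r2) 2))
      (Nat.mul 3 (Nat.add (Nat.pow (Nat.sub (Nat.add (Nat.sub c1 a1) (Nat.sub a1 c1)) r1) 2)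
        (Nat.pow (Nat.sub (Nat.add (Nat.sub c3 a3) (Nat.sub a3 c3)) r3) 2)))) 2)
    (Nat.mul 12 (Nat.pow (Nat.sub
      (ad (Nat.add (Nat.add (Nat.mul a0 c1) (Nat.mul a2 c3)) np)
        (Nat.add (Nat.add (Nat.mul a1 c0) (Nat.mul a3 c2)) (Nat.add e nq)))
      (Nat.add (Nat.add (Nat.add (Nat.mul m0 r1) (Nat.mul m1 r0))
        (Nat.add (Nat.mul m2 r3) (Nat.mul m3 r2))) r4)) 2)))

def val (c0 c1 c2 c3 r0 r1 r2 r3 r4 np nq a0 a1 a2 a3 m0 m1 m2 m3 e th : Nat) : Bool :=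
  Nat.ble (Nat.add (Nat.pow (Nat.add
      (Nat.add (Nat.pow (Nat.add (Nat.add (Nat.sub c0 a0) (Nat.sub a0 c0)) r0) 2)
        (Nat.pow (Nat.add (Nat.add (Nat.sub c2 a2) (Nat.sub a2 c2)) r2) 2))
      (Nat.mul 3 (Nat.add (Nat.pow (Nat.add (Nat.add (Nat.sub c1 a1) (Nat.sub a1 c1)) r1) 2)
        (Nat.pow (Nat.add (Nat.add (Nat.sub c3 a3) (Nat.sub a3 c3)) r3) 2)))) 2)
    (Nat.mul 12 (Nat.pow (Nat.add
      (ad (Nat.add (Nat.add (Nat.mul a0 c1) (Nat.mul a2 c3)) np)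
        (Nat.add (Nat.add (Nat.mul a1 c0) (Nat.mul a3 c2)) (Nat.add e nq)))
      (Nat.add (Nat.add (Nat.add (Nat.mul m0 r1) (Nat.mul m1 r0))
        (Nat.add (Nat.mul m2 r3) (Nat.mul m3 r2))) r4)) 2))) th

def out (c0 c1 c2 c3 r0 r1 r2 r3 : Nat) : Bool :=
  Nat.ble (c0 + r0 + r1) (c1 + 3) || Nat.ble (c0 + c1 + r0 + r1) 262147 ||
    Nat.ble (589824 + r0 + 3 * r1) (c0 + 3 * c1 + 7) || Nat.ble (3 * c1 + 3 * r1 + r0) (c0 + 196615) ||
      Nat.ble (c2 + r2 + r3) (c3 + 3) || Nat.ble (589824 + r2 + 3 * r3) (c2 + 3 * c3 + 7)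

/-- All records are masked or far. -/
noncomputable def allf (c0 c1 c2 c3 r0 r1 r2 r3 r4 np nq nb : Nat) (U : RL) : Bool :=
  RL.rec (motive := fun _ => Bool) true
    (fun a0 a1 a2 a3 m0 m1 m2 m3 e th b _ ih =>
      Bool.rec (motive := fun _ => Bool) ih
        (Bool.rec (motive := fun _ => Bool) false ih
          (far c0 c1 c2 c3 r0 r1 r2 r3 r4 np nq a0 a1 a2 a3 m0 m1 m2 m3 e th))
        (Nat.beq (Nat.land nb b) 0)) U

/-- Filter with hints, in continuation style. -/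
noncomputable def flt (c0 c1 c2 c3 r0 r1 r2 r3 r4 np nq nb : Nat) (k : RL → Nat → Bool) (U : RL) :
    RL → Nat → Bool :=
  RL.rec (motive := fun _ => RL → Nat → Bool) k
    (fun a0 a1 a2 a3 m0 m1 m2 m3 e th b _ ih acc cd =>
      Bool.rec (motive := fun _ => Bool) (ih acc cd)
        (Bool.rec (motive := fun _ => Bool)
          (Bool.rec (motive := fun _ => Bool) false (ih acc (Nat.shiftRight cd 1))
            (far c0 c1 c2 c3 r0 r1 r2 r3 r4 np nq a0 a1 a2 a3 m0 m1 m2 m3 e th))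
          (ih (RL.cons a0 a1 a2 a3 m0 m1 m2 m3 e th b acc) (Nat.shiftRight cd 1))
          (Nat.beq (Nat.land cd 1) 0))
        (Nat.beq (Nat.land nb b) 0)) U

abbrev KT := Nat → Nat → Nat → Nat → Nat → Nat → Nat → Nat → Nat → Nat → RL → Nat → Nat → Bool

noncomputable def band (x y : Bool) : Bool := Bool.rec (motive := fun _ => Bool) false y x

noncomputable def sp0 (ih : KT) (c0 c1 c2 c3 c4 r0 r1 r2 r3 r4 : Nat) (U : RL) (nb l r : Nat) : Bool :=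
  frc (Nat.shiftRight (Nat.sub r0 1) 1) fun h => frc (Nat.add h 2) fun s =>
    band (frc (Nat.sub c0 h) fun c => ih c c1 c2 c3 c4 s r1 r2 r3 r4 U nb l)
      (frc (Nat.add c0 h) fun c => ih c c1 c2 c3 c4 s r1 r2 r3 r4 U nb r)

noncomputable def sp1 (ih : KT) (c0 c1 c2 c3 c4 r0 r1 r2 r3 r4 : Nat) (U : RL) (nb l r : Nat) : Bool :=
  frc (Nat.shiftRight (Nat.sub r1 1) 1) fun h => frc (Nat.add h 2) fun s =>
    band (frc (Nat.sub c1 h) fun c => ih c0 c c2 c3 c4 r0 s r2 r3 r4 U nb l)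
      (frc (Nat.add c1 h) fun c => ih c0 c c2 c3 c4 r0 s r2 r3 r4 U nb r)

noncomputable def sp2 (ih : KT) (c0 c1 c2 c3 c4 r0 r1 r2 r3 r4 : Nat) (U : RL) (nb l r : Nat) : Bool :=
  frc (Nat.shiftRight (Nat.sub r2 1) 1) fun h => frc (Nat.add h 2) fun s =>
    band (frc (Nat.sub c2 h) fun c => ih c0 c1 c c3 c4 r0 r1 s r3 r4 U nb l)
      (frc (Nat.add c2 h) fun c => ih c0 c1 c c3 c4 r0 r1 s r3 r4 U nb r)

noncomputable def sp3 (ih : KT) (c0 c1 c2 c3 c4 r0 r1 r2 r3 r4 : Nat) (U : RL) (nb l r : Nat) : Bool :=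
  frc (Nat.shiftRight (Nat.sub r3 1) 1) fun h => frc (Nat.add h 2) fun s =>
    band (frc (Nat.sub c3 h) fun c => ih c0 c1 c2 c c4 r0 r1 r2 s r4 U nb l)
      (frc (Nat.add c3 h) fun c => ih c0 c1 c2 c c4 r0 r1 r2 s r4 U nb r)

noncomputable def sp4 (ih : KT) (c0 c1 c2 c3 c4 r0 r1 r2 r3 r4 : Nat) (U : RL) (nb l r : Nat) : Bool :=
  frc (Nat.shiftRight (Nat.sub r4 655359) 1) fun h => frc (Nat.add h 655360) fun s =>
    band (frc (Nat.sub c4 h) fun c => ih c0 c1 c2 c3 c r0 r1 r2 r3 s U nb l)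
      (frc (Nat.add c4 h) fun c => ih c0 c1 c2 c3 c r0 r1 r2 r3 s U nb r)

/-- The continuation after filtering: cut the code in two and split the box. -/
noncomputable def spl (ih : KT) (op n c0 c1 c2 c3 c4 r0 r1 r2 r3 r4 nb : Nat) (U : RL) (cd : Nat) :
    Bool :=
  frc (Nat.mod cd (Nat.pow 2 n)) fun l => frc (Nat.shiftRight cd n) fun r =>
    Bool.rec (motive := fun _ => Bool)
      (Bool.rec (motive := fun _ => Bool)
        (Bool.rec (motive := fun _ => Bool) (sp4 ih c0 c1 c2 c3 c4 r0 r1 r2 r3 r4 U nb l r)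
          (sp3 ih c0 c1 c2 c3 c4 r0 r1 r2 r3 r4 U nb l r) (Nat.beq op 3))
        (sp2 ih c0 c1 c2 c3 c4 r0 r1 r2 r3 r4 U nb l r) (Nat.beq op 2))
      (Bool.rec (motive := fun _ => Bool) (sp1 ih c0 c1 c2 c3 c4 r0 r1 r2 r3 r4 U nb l r)
        (sp0 ih c0 c1 c2 c3 c4 r0 r1 r2 r3 r4 U nb l r) (Nat.beq op 0))
      (Nat.ble op 1)

noncomputable def doS (ih : KT) (op c0 c1 c2 c3 c4 r0 r1 r2 r3 r4 : Nat) (U : RL) (nb cd : Nat) :
    Bool :=
  frc (Nat.add c4 (Nat.mul 131072 (Nat.add c0 c2))) fun np =>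
    frc (Nat.mul 131072 (Nat.add c1 c3)) fun nq =>
      flt c0 c1 c2 c3 r0 r1 r2 r3 r4 np nq nb
        (spl ih op (Nat.land (Nat.shiftRight cd 3) 65535) c0 c1 c2 c3 c4 r0 r1 r2 r3 r4 nb)
        U RL.nil (Nat.shiftRight cd 19)

noncomputable def doH (tb : HT) (ih : KT) (c0 c1 c2 c3 c4 r0 r1 r2 r3 r4 : Nat) (U : RL)
    (nb cd : Nat) : Bool :=
  HT.rec (motive := fun _ => Nat → Bool)
    (fun a0 a1 a2 a3 m0 m1 m2 m3 e th b k _ =>
      band (Bool.rec (motive := fun _ => Bool) true (band (Nat.beq nb 0) (Nat.ble b (Nat.pow 2 269)))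
          (Nat.beq (Nat.land nb b) 0))
        (band (val c0 c1 c2 c3 r0 r1 r2 r3 r4 (Nat.add c4 (Nat.mul 131072 (Nat.add c0 c2)))
            (Nat.mul 131072 (Nat.add c1 c3)) a0 a1 a2 a3 m0 m1 m2 m3 e th)
          (frc (Nat.lor nb k) fun nb' => frc (Nat.shiftRight cd 14) fun cd' =>
            ih c0 c1 c2 c3 c4 r0 r1 r2 r3 r4 U nb' cd')))
    (fun _ _ il ir j => Bool.rec (motive := fun _ => Bool) (ir (Nat.shiftRight j 1))
      (il (Nat.shiftRight j 1)) (Nat.beq (Nat.land j 1) 0))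
    tb (Nat.land (Nat.shiftRight cd 3) 2047)

noncomputable def doL (c0 c1 c2 c3 c4 r0 r1 r2 r3 r4 : Nat) (U : RL) (nb : Nat) : Bool :=
  Bool.rec (motive := fun _ => Bool)
    (allf c0 c1 c2 c3 r0 r1 r2 r3 r4 (Nat.add c4 (Nat.mul 131072 (Nat.add c0 c2)))
      (Nat.mul 131072 (Nat.add c1 c3)) nb U) false (Nat.beq nb 0)

noncomputable def chk (tb : HT) (f : Nat) : KT :=
  Nat.rec (motive := fun _ => KT) (fun _ _ _ _ _ _ _ _ _ _ _ _ _ => false)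
    (fun _ ih c0 c1 c2 c3 c4 r0 r1 r2 r3 r4 U nb cd => frc (Nat.land cd 7) fun op =>
      Bool.rec (motive := fun _ => Bool)
        (Bool.rec (motive := fun _ => Bool)
          (Bool.rec (motive := fun _ => Bool) (out c0 c1 c2 c3 r0 r1 r2 r3)
            (doL c0 c1 c2 c3 c4 r0 r1 r2 r3 r4 U nb) (Nat.beq op 6))
          (doH tb ih c0 c1 c2 c3 c4 r0 r1 r2 r3 r4 U nb cd) (Nat.beq op 5))
        (doS ih op c0 c1 c2 c3 c4 r0 r1 r2 r3 r4 U nb cd) (Nat.ble op 4)) f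

end Pool.Agent.MP_d97ab6_al.H32
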