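import Pool.Agent.MP_d97ab6_al.H91.Spec
import Pool.Agent.MP_d97ab6_al.H32.Chk

/-! Second lattice: cusp group, boundary coordinates, semantic predicates and the statements of
the independent parts. -/

namespace Pool.Agent.MP_d97ab6_al.H32

open Matrix Complex MeasureTheory Topology H91
open scoped ComplexConjugate

/-- A primitive third root of unity. -/
noncomputable def om : ℂ := ⟨-1 / 2, √3 / 2⟩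

/-- A primitive sixth root of unity. -/
noncomputable def ze : ℂ := 1 + om

/-- A square root of minus two. -/
noncomputable def sr : ℂ := ⟨0, √2⟩

/-- Eisenstein integers. -/
noncomputable def eis (a b : ℤ) : ℂ := a + b * om

def nq (a b c d : ℤ) : ℤ := a ^ 2 - a * b + b ^ 2 + (c ^ 2 - c * d + d ^ 2)

/-- The matrices of the cusp group. -/
noncomputable def pm3 (k u v : ℕ) (a b c d m : ℤ) : M4 :=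
  ze ^ k • !![1, -conj (eis a b) * om ^ u, -conj (eis c d) * ze ^ v,
      (nq a b c d : ℂ) * om + (1 + 2 * om) * ((m : ℂ) - ((a : ℂ) + b) / 3);
    0, om ^ u, 0, eis a b; 0, 0, ze ^ v, eis c d; 0, 0, 0, 1]

/-- The cusp group as a set. -/
def P3set : Set U31 := {g | ∃ k u v a b c d m, g.1 = pm3 k u v a b c d m}

/-- The cusp at infinity. -/
def e0 : V4 := ![1, 0, 0, 0]

/-- Siegel coordinates with the imaginary parts scaled by the square root of three. -/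
noncomputable def bp (x0 x1 x2 x3 t u : ℝ) : V4 := pt x0 (√3 * x1) x2 (√3 * x3) (√3 * t) u

/-- A fundamental domain for the cusp group. -/
def Dom (x0 x1 x2 x3 t : ℝ) : Prop :=
  x0 ≤ 1 / 2 ∧ x1 ≤ x0 ∧ -x1 ≤ x0 ∧ x0 + 3 * x1 ≤ 1 ∧ x0 - 3 * x1 ≤ 1 ∧
    x2 ≤ 1 / 2 ∧ 0 ≤ x3 ∧ x3 ≤ x2 ∧ x2 + 3 * x3 ≤ 1 ∧ |t| ≤ 1 / 2

def SPgrp3 : Prop :=
  (∀ k u v a b c d m, IsU (pm3 k u v a b c d m)) ∧
    (∃ P : Subgroup U31, (P : Set U31) = P3set) ∧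
    (∀ k u v a b c d m, pm3 k u v a b c d m =
      pm3 0 0 0 a b c d m * pm3 0 (u % 3) (v % 6) 0 0 0 0 0 * pm3 k 0 0 0 0 0 0 0) ∧
    (∀ a b c d m u v a' b' c' d' m', ∃ a'' b'' c'' d'' m'',
      pm3 0 0 0 a b c d m * pm3 0 u v a' b' c' d' m' = pm3 0 u v a'' b'' c'' d'' m'') ∧
    (∀ k, ∀ g : M4, pm3 k 0 0 0 0 0 0 0 * g = g * pm3 k 0 0 0 0 0 0 0) ∧
    (∀ p ∈ P3set, ∃ e : ℂ, normSq e = 1 ∧ ap p e0 = e • e0)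

def SPred3 : Prop :=
  ∀ x0 x1 x2 x3 t : ℝ, ∃ p ∈ P3set, ∃ y0 y1 y2 y3 s : ℝ, Dom y0 y1 y2 y3 s ∧
    ∀ u, ap p (bp x0 x1 x2 x3 t u) = bp y0 y1 y2 y3 s u

/-- The squared product of the cusp of `h` with `y`. -/
noncomputable def rr (h : U31) (y : V4) : ℝ := normSq (herm (ap h e0) y)

/-- The local condition at a boundary point. -/
def LC (P : Subgroup U31) (T : Set U31) (lam : ℝ) (y : V4) : Prop :=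
  ∀ Gd : U31 → Prop, (∀ h, ∀ p ∈ P, Gd h → Gd (h * p)) →
    (∀ h h', rr h y ≤ lam → h⁻¹ * h' ∈ T → Gd h → Gd h') →
    ∀ s ∈ T, ∀ t ∈ T, s ∉ P → t ∉ P → rr s y ≤ lam → lam * rr t y < 1 → Gd s → Gd t

structure TOK (P : Subgroup U31) (T : Set U31) (δ : ℝ) : Prop where
  fix : ∀ p ∈ P, ∃ e : ℂ, normSq e = 1 ∧ ap p e0 = e • e0
  sub : ∀ p ∈ P, p ∈ T
  left : ∀ p ∈ P, ∀ t ∈ T, p * t ∈ T
  right : ∀ p ∈ P, ∀ t ∈ T, t * p ∈ T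
  inv : ∀ t ∈ T, t⁻¹ ∈ T
  dep : ∀ t ∈ T, t ∈ P ∨ δ ≤ normSq (t.1 3 0)

/-- The descent theorem. -/
def SDesc : Prop :=
  ∀ (P : Subgroup U31) (T : Set U31) (lam δ : ℝ), 0 < lam → lam < 1 → 0 < δ → TOK P T δ →
    (∀ x0 x1 x2 x3 t : ℝ, ∃ p ∈ P, LC P T lam (ap p (bp x0 x1 x2 x3 t 0))) →
    ∀ g ∈ Subgroup.closure T, g ∈ P ∨ δ ≤ normSq (g.1 3 0)

def SDisc3 : Prop :=
  ∀ G : Subgroup U31, (∀ g ∈ G, g ∈ P3set ∨ 5 ≤ normSq (g.1 3 0)) → DiscreteTopology (lift G)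

/-- A larger Siegel set. -/
def Sieg3 (y : V4) : Prop :=
  ∃ (c : ℂ) (x0 x1 x2 x3 t u : ℝ), c ≠ 0 ∧ y = c • pt x0 x1 x2 x3 t u ∧ |x0| ≤ 1 ∧ |x1| ≤ 1 ∧
    |x2| ≤ 1 ∧ |x3| ≤ 1 ∧ |t| ≤ 2 ∧ 1 / 10000 ≤ u

def SVol3 : Prop :=
  ∀ [MeasurableSpace SU31] [BorelSpace SU31] (μ : Measure SU31) [μ.IsHaarMeasure],
    μ {g | Sieg3 (g.1.1 *ᵥ pt 0 0 0 0 0 2)} < ⊤

def SCov3 : Prop :=
  SPred3 → ∀ G : Subgroup U31, P3set ⊆ G →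
    (∀ x0 x1 x2 x3 t : ℝ, Dom x0 x1 x2 x3 t → ∃ h ∈ G,
      rr h (bp x0 x1 x2 x3 t 0) ≤ 998 / 1000 ∧ normSq (h.1 3 0) ≤ 10) →
    ∀ g : SU31, ∃ γ ∈ lift G, Sieg3 ((γ * g).1.1 *ᵥ pt 0 0 0 0 0 2)

/-- Numbers in the field generated by `om` and `sr`. -/
def InK3 (z : ℂ) : Prop := ∃ a b c d : ℚ, z = a + b * om + (c + d * om) * sr

def STrUp3 : Prop :=
  (∃ Q : Subgroup U31, ∀ g, g ∈ Q ↔ ∀ i j, InK3 (g.1 i j)) ∧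
    (∀ G : Subgroup U31, (∀ g ∈ G, ∀ i j, InK3 (g.1 i j)) →
      adField (lift G) ≤ Subfield.closure {√6}) ∧
    (∀ k u v a b c d m i j, InK3 (pm3 k u v a b c d m i j)) ∧ √6 ∉ Subfield.closure {√2}

/-- The two unipotent elements. -/
def SUni : Prop :=
  ∀ G : Subgroup U31, (∃ p ∈ G, p.1 = pm3 0 0 0 0 0 0 0 1) → ∀ g ∈ G, g.1 0 0 = 0 → g.1 1 0 = 0 →
    g.1 2 0 = 0 →
    (∃ γ ∈ lift G, γ.1.1 = !![1, 0, 0, ((√3 : ℝ) : ℂ) * I; 0, 1, 0, 0; 0, 0, 1, 0; 0, 0, 0, 1]) ∧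
    (∃ γ ∈ lift G, γ.1.1 = !![1, 0, 0, 0; 0, 1, 0, 0; 0, 0, 1, 0;
      ((√3 * normSq (g.1 3 0) : ℝ) : ℂ) * I, 0, 0, 1])

/-- Position and depth of the cusp of `h`. -/
def PosOf (h : U31) (a0 a1 a2 a3 t D : ℝ) : Prop :=
  ∃ d : ℂ, normSq d = D ∧ ap h e0 = d • bp a0 a1 a2 a3 t 0

noncomputable def FF (a0 a1 a2 a3 t x0 x1 x2 x3 s : ℝ) : ℝ :=
  ((x0 - a0) ^ 2 + (x2 - a2) ^ 2 + 3 * ((x1 - a1) ^ 2 + (x3 - a3) ^ 2)) ^ 2 / 4 +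
    3 * (s - t + a0 * x1 - a1 * x0 + a2 * x3 - a3 * x2) ^ 2

/-- First coordinate after a rotation by the unit `eis p q`. -/
noncomputable def ro0 (p q : ℤ) (x y : ℝ) : ℝ := ((2 * p - q) * x - 3 * q * y) / 2

/-- Second coordinate after a rotation by the unit `eis p q`. -/
noncomputable def ro1 (p q : ℤ) (x y : ℝ) : ℝ := (q * x + (2 * p - q) * y) / 2

/-- Vertical coordinate after a translation. -/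
noncomputable def tv (a b c d m : ℤ) (y0 y1 y2 y3 t : ℝ) : ℝ :=
  t + (nq a b c d : ℝ) / 2 - (a + b) / 3 + m - ((a - b / 2) * y1 - b / 2 * y0) -
    ((c - d / 2) * y3 - d / 2 * y2)

def SPos : Prop :=
  (∀ h a0 a1 a2 a3 t D x0 x1 x2 x3 s, PosOf h a0 a1 a2 a3 t D →
    rr h (bp x0 x1 x2 x3 s 0) = D * FF a0 a1 a2 a3 t x0 x1 x2 x3 s) ∧
  (∀ h a0 a1 a2 a3 t D, PosOf h a0 a1 a2 a3 t D → normSq (h.1 3 0) = D) ∧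
  (∀ g : U31, g.1 3 0 ≠ 0 → PosOf g (g.1 1 0 / g.1 3 0).re ((g.1 1 0 / g.1 3 0).im / √3)
    (g.1 2 0 / g.1 3 0).re ((g.1 2 0 / g.1 3 0).im / √3) ((g.1 0 0 / g.1 3 0).im / √3)
    (normSq (g.1 3 0))) ∧
  (∀ (g p : U31) a0 a1 a2 a3 t D u v (a b c d m p1 q1 p2 q2 : ℤ), PosOf g a0 a1 a2 a3 t D →
    p.1 = pm3 0 u v a b c d m → om ^ u = eis p1 q1 → ze ^ v = eis p2 q2 →
    PosOf (p * g) (ro0 p1 q1 a0 a1 + a - b / 2) (ro1 p1 q1 a0 a1 + b / 2)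
      (ro0 p2 q2 a2 a3 + c - d / 2) (ro1 p2 q2 a2 a3 + d / 2)
      (tv a b c d m (ro0 p1 q1 a0 a1) (ro1 p1 q1 a0 a1) (ro0 p2 q2 a2 a3) (ro1 p2 q2 a2 a3) t) D)

/-- Only finitely many translates come close to the domain. -/
def SRange : Prop :=
  ∀ (a b c d m : ℤ) (y0 y1 y2 y3 t D x0 x1 x2 x3 s : ℝ), Dom x0 x1 x2 x3 s → |y0| ≤ 51 / 100 →
    |y1| ≤ 3 / 10 → |y2| ≤ 1 / 100 → |y3| ≤ 1 / 100 → |t| ≤ 1 / 2 → 5 ≤ D →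
    998 / 1000 * (D * FF (y0 + a - b / 2) (y1 + b / 2) (y2 + c - d / 2) (y3 + d / 2)
      (tv a b c d m y0 y1 y2 y3 t) x0 x1 x2 x3 s) < 1 →
    -2 ≤ 2 * a - b ∧ 2 * a - b ≤ 3 ∧ -2 ≤ b ∧ b ≤ 2 ∧ -1 ≤ 2 * c - d ∧ 2 * c - d ≤ 2 ∧
      -1 ≤ d ∧ d ≤ 1 ∧ -9 ≤ m ∧ m ≤ 5

/-- Fixed point enclosure of a position. -/
def Enc (a0 a1 a2 a3 m0 m1 m2 m3 e : ℕ) (y0 y1 y2 y3 t : ℝ) : Prop :=
  |(a0 : ℝ) - 65536 * (y0 + 2)| ≤ 2 ∧ |(a1 : ℝ) - 65536 * (y1 + 2)| ≤ 2 ∧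
    |(a2 : ℝ) - 65536 * (y2 + 2)| ≤ 2 ∧ |(a3 : ℝ) - 65536 * (y3 + 2)| ≤ 2 ∧
    |(a0 : ℝ) - 131072| ≤ m0 ∧ |(a1 : ℝ) - 131072| ≤ m1 ∧ |(a2 : ℝ) - 131072| ≤ m2 ∧
    |(a3 : ℝ) - 131072| ≤ m3 ∧
    |(e : ℝ) - (4294967296 * (t + 32) + 131072 * ((a0 : ℝ) - a1 + a2 - a3))| ≤ 131072

/-- The point lies in the box with centre `c` and radius `r` (which includes a margin). -/
def InB (c0 c1 c2 c3 c4 r0 r1 r2 r3 r4 : ℕ) (x0 x1 x2 x3 s : ℝ) : Prop :=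
  |65536 * (x0 + 2) - c0| + 2 ≤ r0 ∧ |65536 * (x1 + 2) - c1| + 2 ≤ r1 ∧
    |65536 * (x2 + 2) - c2| + 2 ≤ r2 ∧ |65536 * (x3 + 2) - c3| + 2 ≤ r3 ∧
    |4294967296 * (s + 32) - c4| + 655360 ≤ r4

/-- Soundness of the two interval tests. -/
def SFar : Prop :=
  ∀ (c0 c1 c2 c3 c4 r0 r1 r2 r3 r4 a0 a1 a2 a3 m0 m1 m2 m3 e th : ℕ)
    (y0 y1 y2 y3 t x0 x1 x2 x3 s : ℝ), Dom x0 x1 x2 x3 s →
    InB c0 c1 c2 c3 c4 r0 r1 r2 r3 r4 x0 x1 x2 x3 s → Enc a0 a1 a2 a3 m0 m1 m2 m3 e y0 y1 y2 y3 t →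
    (far c0 c1 c2 c3 r0 r1 r2 r3 r4 (c4 + 131072 * (c0 + c2)) (131072 * (c1 + c3))
      a0 a1 a2 a3 m0 m1 m2 m3 e th = true → (th : ℝ) ≤ 2 ^ 66 * FF y0 y1 y2 y3 t x0 x1 x2 x3 s) ∧
    (val c0 c1 c2 c3 r0 r1 r2 r3 r4 (c4 + 131072 * (c0 + c2)) (131072 * (c1 + c3))
      a0 a1 a2 a3 m0 m1 m2 m3 e th = true → 2 ^ 66 * FF y0 y1 y2 y3 t x0 x1 x2 x3 s ≤ th)

def RQ (valid G : ℕ → Prop) (Q : Prop) (j : ℕ) : Prop := (Q → G j) ∧ (valid j → G j → Q)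

def UOK (close : ℕ → Prop) (x0 x1 x2 x3 s : ℝ) : RL → Prop
  | .nil => True
  | .cons a0 a1 a2 a3 m0 m1 m2 m3 e th b tl =>
    (∃ i, b = 2 ^ i ∧ ∀ c0 c1 c2 c3 c4 r0 r1 r2 r3 r4,
      InB c0 c1 c2 c3 c4 r0 r1 r2 r3 r4 x0 x1 x2 x3 s →
      far c0 c1 c2 c3 r0 r1 r2 r3 r4 (c4 + 131072 * (c0 + c2)) (131072 * (c1 + c3))
        a0 a1 a2 a3 m0 m1 m2 m3 e th = true → ¬ close i) ∧ UOK close x0 x1 x2 x3 s tl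

def HOK (valid : ℕ → Prop) (A : ℕ → ℕ → Prop) (x0 x1 x2 x3 s : ℝ) : HT → Prop
  | .lf a0 a1 a2 a3 m0 m1 m2 m3 e th b k =>
    ∃ i, b = 2 ^ i ∧ (∀ c0 c1 c2 c3 c4 r0 r1 r2 r3 r4,
      InB c0 c1 c2 c3 c4 r0 r1 r2 r3 r4 x0 x1 x2 x3 s →
      val c0 c1 c2 c3 r0 r1 r2 r3 r4 (c4 + 131072 * (c0 + c2)) (131072 * (c1 + c3))
        a0 a1 a2 a3 m0 m1 m2 m3 e th = true → valid i) ∧ ∀ j, k.testBit j = true → A i j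
  | .nd l r => HOK valid A x0 x1 x2 x3 s l ∧ HOK valid A x0 x1 x2 x3 s r

def UG (close R : ℕ → Prop) : RL → Prop
  | .nil => True
  | .cons _ _ _ _ _ _ _ _ _ _ b tl => (∀ i, b = 2 ^ i → close i → R i) ∧ UG close R tl

/-- Soundness of the tree checker. -/
def STree : Prop :=
  ∀ (valid close G : ℕ → Prop) (A : ℕ → ℕ → Prop) (x0 x1 x2 x3 s : ℝ),
    (∀ i j, valid i → A i j → G i → G j) → (∀ i j, A i j → A j i) → Dom x0 x1 x2 x3 s →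
    ∀ tb, HOK valid A x0 x1 x2 x3 s tb → ∀ U, UOK close x0 x1 x2 x3 s U →
    ∀ f c0 c1 c2 c3 c4 r0 r1 r2 r3 r4 cd, InB c0 c1 c2 c3 c4 r0 r1 r2 r3 r4 x0 x1 x2 x3 s →
      chk tb f c0 c1 c2 c3 c4 r0 r1 r2 r3 r4 U 0 cd = true →
      (∃ i < 270, valid i) ∧ ∃ Q, UG close (RQ valid G Q) U

/-- Every point of the box lies in a box accepted by the checker. -/
def Cv (tb : HT) (U : RL) (c0 c1 c2 c3 c4 r0 r1 r2 r3 r4 : ℕ) : Prop :=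
  ∀ x0 x1 x2 x3 s : ℝ, Dom x0 x1 x2 x3 s → InB c0 c1 c2 c3 c4 r0 r1 r2 r3 r4 x0 x1 x2 x3 s →
    ∃ f d0 d1 d2 d3 d4 q0 q1 q2 q3 q4 cd, InB d0 d1 d2 d3 d4 q0 q1 q2 q3 q4 x0 x1 x2 x3 s ∧
      chk tb f d0 d1 d2 d3 d4 q0 q1 q2 q3 q4 U 0 cd = true

end Pool.Agent.MP_d97ab6_al.H32
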