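import Pool.Agent.MP_d97ab6_al.H32.Dat

/-! Exact checks: classes, small vectors, enumeration. -/

namespace Pool.Agent.MP_d97ab6_al.H32

theorem clsAll : allN 40 (cls CG CX) = true := by decide +kernel

theorem isU40 : isU (cg CG 40) = true := by decide +kernel

theorem uok0 : uok CX PC U0 0 = true := by decide +kernel

theorem en00 : en CX PC 0 0 = true := by decide +kernel

theorem en10 : en CX PC 1 0 = true := by decide +kernel

theorem en20 : en CX PC 2 0 = true := by decide +kernel

theorem en21 : en CX PC 2 1 = true := by decide +kernel

theorem en22 : en CX PC 2 2 = true := by decide +kernel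

theorem en30 : en CX PC 3 0 = true := by decide +kernel

theorem en31 : en CX PC 3 1 = true := by decide +kernel

theorem en32 : en CX PC 3 2 = true := by decide +kernel

end Pool.Agent.MP_d97ab6_al.H32
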