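import Pool.Agent.MP_d97ab6_al.H32.Dat

/-! Exact checks: rotations and inverses of the four generators. -/

namespace Pool.Agent.MP_d97ab6_al.H32

def RT : Nat := nat_lit 0x7e62228041111020dea988801044440837aaa218041111020df9a88401044440838226208041111020e08888001044440837e62228041111010dea988801044440437aaa218041111010df9a88401044440438226208041111010e08888001044440437e62228041111000dea988801044440037aaa218041111000df9a88401044440038226208041111000e08888001044440038222228041111020a08888801044440828222218041111020a08888401044440828222208041111020a08888001044440828222228041111010a08888801044440428222218041111010a08888401044440428222208041111010a08888001044440428222228041111000a08888801044440028222218041111000a08888401044440028222208041111000a0888800104444002822222c04111120060888890104444801822221c04111120060888850104444801822220c04111120060888810104444801822222a03f10f000608888880fc43c001822221a03f10f000608888480fc43c001822220a03f10f000608888080fc43c0018222228041111000608888801044440018222218041111000608888401044440018222208041111000608888001044440017e221ec0411110001f8887901044440007e221dc0411110001f8887501044440007e221cc0411110001f888710104444000822262a04111100020889888104444000822261a04111100020889848104444000822260a04111100020889808104444000822222804111100020888880104444000822221804111100020888840104444000822220804111100020888800104444000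

noncomputable def rchk1 (k u v ci cp : Nat) : Bool :=
  E5 CG (hN CG ci) (4366548992 + k + 64 * u + 256 * v) 4366549032 cp && Nat.beq (Nat.mod ci 64) k &&
    Nat.beq (fl ci 256 8) 0 && (Nat.beq (fl ci 64 4) 0 || (Nat.ble 2 k && Nat.ble (fl ci 64 4) 2))

noncomputable def rchk (k u v : Nat) : Bool :=
  rchk1 k u v (par RT (36 * k + 12 * u + 2 * v)) (par RT (36 * k + 12 * u + 2 * v + 1))

theorem rAll : allN 4 (fun k => allN 3 fun u => allN 6 fun v => rchk k u v) = true := by
  decide +kernel

theorem id40 : eqN 1 (gN (cg CG 40)) 3 idN = true := by decide +kernel

theorem inv0 : E5 CG (hN CG 4366548992) 4366549032 4366548993 4366548992 = true := by decide +kernel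

theorem inv1 : E5 CG (hN CG 4366548993) 4366549032 4366548992 4366548992 = true := by decide +kernel

theorem inv2 : E5 CG (hN CG 4366548994) 4366549032 4366548995 4375462016 = true := by decide +kernel

theorem inv3 : E5 CG (hN CG 4366548995) 4366549032 4375462018 4366548992 = true := by decide +kernel

/-- Bounds for the rotated position of a representative. -/
def repB (X0 X1 X2 X3 T p q : Int) : Bool :=
  decide (|(2 * p - q) * X0 - 3 * q * X1| ≤ 1100000000000 ∧ |q * X0 + (2 * p - q) * X1| ≤ 600000000000 ∧
    X2 = 0 ∧ X3 = 0 ∧ |T| ≤ 500000000000)

theorem repAll : allN 4 (fun k => allN 3 fun u => (Nat.ble k 1 && Nat.ble 1 u) ||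
    repB (cx CX k 0) (cx CX k 1) (cx CX k 2) (cx CX k 3) (cx CX k 4) (za (2 * u)) (zb (2 * u))) = true := by
  decide +kernel

theorem dg0 : ∀ n ∈ [0, 7, 14, 21, 112, 119, 126, 133, 224, 231, 238, 245, 336], dg (cg CG 0) n = 64 := by
  decide +kernel

theorem dg1 : ∀ n ∈ [343, 350, 357], dg (cg CG 0) n = 67 := by decide +kernel

end Pool.Agent.MP_d97ab6_al.H32
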