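import Pool.Agent.MP_d97ab6_al.H32.Ex

/-! The class check gives the fixed point data of a class. -/

namespace Pool.Agent.MP_d97ab6_al.H32

open Matrix Complex H91

namespace Cls

noncomputable def s6 : ℝ := √2 * √3

theorem q2 : √2 * √2 = (2 : ℝ) := Real.mul_self_sqrt (by norm_num)
theorem q3 : √3 * √3 = (3 : ℝ) := Real.mul_self_sqrt (by norm_num)

theorem s6_sq : s6 * s6 = 6 := by
  unfold s6
  linear_combination (√3 * √3) * q2 + 2 * q3

theorem s6_bd : |s6 * 1152921504606846976 - 2824069399768620282| ≤ 1 := by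
  have h0 : 0 ≤ s6 := by unfold s6; positivity
  have a : (2824069399768620282 / 1152921504606846976 : ℝ) ≤ s6 :=
    le_of_sq_le_sq (by rw [sq s6, s6_sq]; norm_num) h0
  have b : s6 ≤ (2824069399768620283 / 1152921504606846976 : ℝ) :=
    le_of_sq_le_sq (by rw [sq s6, s6_sq]; norm_num) (by norm_num)
  rw [abs_le]
  constructor <;> linarith

theorem nn_ok {p q : ℤ} (h : nn p q = true) : 0 ≤ (p : ℝ) + q * s6 := by
  have h1 : ((0 : ℤ) : ℝ) ≤ ((p * 1152921504606846976 + q * 2824069399768620282 - |q| : ℤ) : ℝ) :=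
    Int.cast_le.2 (of_decide_eq_true h)
  push_cast at h1
  have h2 : |(q : ℝ) * (s6 * 1152921504606846976 - 2824069399768620282)| ≤ |(q : ℝ)| := by
    rw [abs_mul]
    exact mul_le_of_le_one_right (abs_nonneg _) s6_bd
  have := (abs_le.1 h2).1
  linarith

theorem apx_ok {p q n k X : ℤ} (hn : 0 < (n : ℝ) + k * s6) (h : apx p q n k X = true) :
    Apx X ((p + q * s6) / (n + k * s6)) := by
  rw [apx, Bool.and_eq_true] at h
  have a := nn_ok h.1
  have b := nn_ok h.2
  push_cast at a b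
  rw [Apx, div_mul_eq_mul_div, div_sub' hn.ne', abs_div, abs_of_pos hn, div_le_one hn, abs_le]
  constructor <;> linarith

theorem gz_re (g n : ℕ) : (gz g n).re = (r1 g n + r2 g n * s6) / 6 := by
  simp [gz, eis, om, sr, r1, r2, s6]
  ring

theorem gz_im (g n : ℕ) : (gz g n).im = √3 * (i1 g n + i2 g n * s6) / 6 := by
  simp [gz, eis, om, sr, i1, i2, s6]
  linear_combination (-(√2 * (2 * ((dg g (n + 14) : ℝ) - 64) - ((dg g (n + 21) : ℝ) - 64))) / 6) * q3

theorem re_eq (g n : ℕ) : (gz g n).re * (gz g 336).re + (gz g n).im * (gz g 336).im =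
    (re1 g n + re2 g n * s6) / 36 := by
  simp only [gz_re, gz_im, re1, re2]
  push_cast
  linear_combination ((i1 g n + i2 g n * s6) * (i1 g 336 + i2 g 336 * s6) / 36) * q3 +
    ((r2 g n * r2 g 336 + 3 * (i2 g n * i2 g 336)) / 36) * s6_sq

theorem im_eq (g n : ℕ) : (gz g n).im * (gz g 336).re - (gz g n).re * (gz g 336).im =
    √3 * (im1 g n + im2 g n * s6) / 36 := by
  simp only [gz_re, gz_im, im1, im2]
  push_cast
  linear_combination (√3 * (i2 g n * r2 g 336 - r2 g n * i2 g 336) / 36) * s6_sq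

theorem nsq (g : ℕ) : normSq (gz g 336) = (re1 g 336 + re2 g 336 * s6) / 36 := by
  rw [normSq_apply, re_eq]

theorem div_re' (g n : ℕ) : (gz g n / gz g 336).re =
    (re1 g n + re2 g n * s6) / (re1 g 336 + re2 g 336 * s6) := by
  rw [div_re, ← add_div, re_eq, nsq, div_div_div_cancel_right₀ (by norm_num)]

theorem div_im' (g n : ℕ) : (gz g n / gz g 336).im / √3 =
    (im1 g n + im2 g n * s6) / (re1 g 336 + re2 g 336 * s6) := by
  rw [div_im, ← sub_div, im_eq, nsq, div_div_div_cancel_right₀ (by norm_num), mul_div_assoc,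
    mul_div_cancel_left₀ _ (by positivity)]

end Cls

open Cls in
theorem rowCls : SCls := by
  intro hp h5 CG CX a h
  unfold cls cls1 at h
  unfold ClsOK
  generalize cg CG a = g at h ⊢
  simp only [Bool.and_eq_true, Bool.or_eq_true] at h
  obtain ⟨⟨⟨⟨⟨⟨⟨⟨⟨u, n0⟩, a0⟩, a1⟩, a2⟩, a3⟩, a4⟩, b1⟩, b2⟩, b3⟩ := h
  have n1 := nn_ok n0
  push_cast at n1
  have N0 : 0 < (re1 g 336 : ℝ) + re2 g 336 * s6 := by linarith
  have e0 : gM g 0 0 = 1 / 3 * gz g 0 := rfl
  have e1 : gM g 1 0 = 1 / 3 * gz g 112 := rfl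
  have e2 : gM g 2 0 = 1 / 3 * gz g 224 := rfl
  have e3 : gM g 3 0 = 1 / 3 * gz g 336 := rfl
  have hD : normSq (gM g 3 0) = (re1 g 336 + re2 g 336 * s6) / 324 := by
    rw [e3, map_mul, nsq]
    simp
    ring
  have t3 : (1 / 3 : ℂ) ≠ 0 := by norm_num
  have pos := hp.2.2.1 ⟨gM g, h5.1 g u⟩ (normSq_pos.1 (by rw [hD]; positivity))
  simp only [hD] at pos
  simp only [e0, e1, e2, e3, mul_div_mul_left _ _ t3, div_re', div_im'] at pos
  refine ⟨h5.1 g u, _, _, _, _, _, _, pos, apx_ok N0 a0, apx_ok N0 a1, apx_ok N0 a2, apx_ok N0 a3,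
    apx_ok N0 a4, by positivity, ?_, ?_, fun ha => ?_⟩
  · have := nn_ok b1
    push_cast at this
    linarith
  · have := nn_ok b2
    push_cast at this
    linarith
  · obtain ⟨c1, c2⟩ := b3.resolve_left (by rw [Nat.ble_eq]; omega)
    have d1 := nn_ok c1
    have d2 := nn_ok c2
    push_cast at d1 d2
    constructor <;> linarith

end Pool.Agent.MP_d97ab6_al.H32
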