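import Pool.Agent.MP_d97ab6_al.H32.Base
import Pool.Agent.MP_d97ab6_al.H91.Disc
import Pool.Agent.MP_d97ab6_al.H91.Pred

/-! Covering by translates of the Siegel set, and two unipotent elements. -/

namespace Pool.Agent.MP_d97ab6_al.H32

open Matrix Complex H91
open scoped ComplexConjugate

namespace Cov3

theorem sieg_smul {d : ℂ} (hd : d ≠ 0) {y : V4} (h : Sieg3 y) : Sieg3 (d • y) := by
  obtain ⟨c, x0, x1, x2, x3, t, u, hc, e, h⟩ := h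
  exact ⟨d * c, x0, x1, x2, x3, t, u, mul_ne_zero hd hc, by rw [e, smul_smul], h⟩

theorem s3 {x : ℝ} (h : |x| ≤ 1 / 2) : |√3 * x| ≤ 1 := by
  have h3 : √3 ≤ 2 := Real.sqrt_le_iff.2 ⟨by norm_num, by norm_num⟩
  rw [abs_mul, abs_of_nonneg (Real.sqrt_nonneg 3)]
  nlinarith [abs_nonneg x, Real.sqrt_nonneg 3]

theorem sieg_dom {x0 x1 x2 x3 t u : ℝ} (h : Dom x0 x1 x2 x3 t) (hu : 1 / 10000 ≤ u) :
    Sieg3 (bp x0 x1 x2 x3 t u) := by
  obtain ⟨a0, a1, a2, -, -, a5, a6, a7, -, a9⟩ := h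
  exact ⟨1, _, _, _, _, _, u, one_ne_zero, (one_smul _ _).symm,
    abs_le.2 ⟨by linarith, by linarith⟩, s3 (abs_le.2 ⟨by linarith, by linarith⟩),
    abs_le.2 ⟨by linarith, by linarith⟩, s3 (abs_le.2 ⟨by linarith, by linarith⟩),
    (s3 a9).trans one_le_two, hu⟩

theorem red (hP : SPred3) {y : V4} (hy : 0 < nrm y) : ∃ p ∈ P3set, ∃ (c : ℂ)
    (y0 y1 y2 y3 s u : ℝ), c ≠ 0 ∧ Dom y0 y1 y2 y3 s ∧ 0 < u ∧ nrm y = normSq (y 3) * u ∧
      0 < normSq (y 3) ∧ ap p y = c • bp y0 y1 y2 y3 s u := by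
  obtain ⟨c, x0, x1, x2, x3, t, u, hc, rfl, hu⟩ := Pred.coords hy
  obtain ⟨p, hp, y0, y1, y2, y3, s, hd, e⟩ := hP x0 (x1 / √3) x2 (x3 / √3) (t / √3)
  have h3 : √3 ≠ 0 := by positivity
  have e3 : (c • pt x0 x1 x2 x3 t u) 3 = c := by simp [pt]
  refine ⟨p, hp, c, y0, y1, y2, y3, s, u, hc, hd, hu, by rw [Pred.nrm_pt, e3],
    by rw [e3]; exact normSq_pos.2 hc, ?_⟩
  rw [ap_smul, ← e u, bp, mul_div_cancel₀ _ h3, mul_div_cancel₀ _ h3, mul_div_cancel₀ _ h3]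

theorem last {h : U31} {x0 x1 x2 x3 t u : ℝ} (h1 : rr h (bp x0 x1 x2 x3 t 0) ≤ 998 / 1000)
    (h2 : normSq (h.1 3 0) ≤ 10) (u0 : 0 < u) (u1 : u < 1 / 10000) :
    normSq (ap h⁻¹ (bp x0 x1 x2 x3 t u) 3) ≤ 999 / 1000 := by
  have e1 : ap h⁻¹ (bp x0 x1 x2 x3 t u) 3 = herm (ap h e0) (bp x0 x1 x2 x3 t u) := by
    rw [← herm_ap h⁻¹, ← ap_mul, inv_mul_cancel, ap_one]
    simp [herm, e0]
  have e2 : ap h e0 3 = h.1 3 0 := by
    simp [ap, e0, Matrix.mulVec, dotProduct, Fin.sum_univ_four]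
  have e3 : herm (ap h e0) (bp x0 x1 x2 x3 t u) =
      herm (ap h e0) (bp x0 x1 x2 x3 t 0) - conj (h.1 3 0) * ((u / 2 : ℝ) : ℂ) := by
    rw [← e2]
    generalize ap h e0 = v
    apply Complex.ext <;> simp [herm, bp, pt] <;> ring
  rw [rr, normSq_eq_norm_sq] at h1
  rw [normSq_eq_norm_sq] at h2
  have n1 : ‖herm (ap h e0) (bp x0 x1 x2 x3 t 0)‖ ≤ 999 / 1000 :=
    (pow_le_pow_iff_left₀ (norm_nonneg _) (by norm_num) two_ne_zero).1 (h1.trans (by norm_num))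
  have n2 : ‖h.1 3 0‖ ≤ 4 :=
    (pow_le_pow_iff_left₀ (norm_nonneg _) (by norm_num) two_ne_zero).1 (h2.trans (by norm_num))
  have n3 := norm_sub_le (herm (ap h e0) (bp x0 x1 x2 x3 t 0)) (conj (h.1 3 0) * ((u / 2 : ℝ) : ℂ))
  rw [norm_mul, Complex.norm_conj, Complex.norm_real, Real.norm_of_nonneg (by positivity),
    ← e3] at n3
  rw [e1, normSq_eq_norm_sq]
  have n4 : ‖herm (ap h e0) (bp x0 x1 x2 x3 t u)‖ ≤ 9992 / 10000 := by
    nlinarith [norm_nonneg (h.1 3 0)]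
  exact (pow_le_pow_left₀ (norm_nonneg _) n4 2).trans (by norm_num)

theorem up (hP : SPred3) (G : Subgroup U31) (hG : P3set ⊆ G)
    (H : ∀ x0 x1 x2 x3 t : ℝ, Dom x0 x1 x2 x3 t → ∃ h ∈ G,
      rr h (bp x0 x1 x2 x3 t 0) ≤ 998 / 1000 ∧ normSq (h.1 3 0) ≤ 10) (n : ℕ) :
    ∀ y : V4, 0 < nrm y → 1 / 10000 * (999 / 1000) ^ n * normSq (y 3) ≤ nrm y →
      ∃ g ∈ G, Sieg3 (ap g y) := by
  induction n with
  | zero =>
    intro y hy h
    obtain ⟨p, hp, c, y0, y1, y2, y3, s, u, hc, hd, -, e1, h3, e⟩ := red hP hy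
    refine ⟨p, hG hp, e ▸ sieg_smul hc (sieg_dom hd ?_)⟩
    rw [e1, pow_zero, mul_one, mul_comm] at h
    exact le_of_mul_le_mul_left h h3
  | succ n ih =>
    intro y hy h
    obtain ⟨p, hp, c, y0, y1, y2, y3, s, u, hc, hd, hu, e1, h3, e⟩ := red hP hy
    rcases le_or_gt (1 / 10000) u with h1 | h1
    · exact ⟨p, hG hp, e ▸ sieg_smul hc (sieg_dom hd h1)⟩
    obtain ⟨k, hk, k1, k2⟩ := H _ _ _ _ _ hd
    have e2 : nrm (ap k⁻¹ (bp y0 y1 y2 y3 s u)) = u := by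
      have := Pred.nrm_pt 1 y0 (√3 * y1) y2 (√3 * y3) (√3 * s) u
      rw [one_smul, map_one, one_mul] at this
      rw [nrm_ap, bp, this]
    rw [e1, mul_comm] at h
    obtain ⟨g, hg, hs⟩ := ih (ap k⁻¹ (bp y0 y1 y2 y3 s u)) (by rwa [e2]) (by
      rw [e2]
      refine le_trans ?_ (le_of_mul_le_mul_left h h3)
      rw [pow_succ, ← mul_assoc]
      exact mul_le_mul_of_nonneg_left (last k1 k2 hu h1) (by positivity))
    refine ⟨g * k⁻¹ * p, G.mul_mem (G.mul_mem hg (G.inv_mem hk)) (hG hp), ?_⟩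
    rw [ap_mul, e, ap_smul, ap_mul]
    exact sieg_smul hc hs

theorem lift_of (G : Subgroup U31) {g : U31} (hg : g ∈ G) {m : M4} (e : g.1 = m)
    (hd : m.det = 1) : ∃ γ ∈ lift G, γ.1.1 = m :=
  ⟨⟨⟨m, hd⟩, e ▸ g.2⟩, ⟨1, g, hg, e.trans (one_smul _ _).symm⟩, rfl⟩

theorem tm : pm3 0 0 0 0 0 0 0 1 =
    !![1, 0, 0, ((√3 : ℝ) : ℂ) * I; 0, 1, 0, 0; 0, 0, 1, 0; 0, 0, 0, 1] := by
  have e : 1 + 2 * om = ((√3 : ℝ) : ℂ) * I := by
    apply Complex.ext <;> simp [om] <;> ring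
  ext i j
  fin_cases i <;> fin_cases j <;> simp [pm3, eis, nq, e]

end Cov3

open Cov3

theorem rowCov3 : SCov3 := by
  intro hP G hG H g
  have hy : nrm (g.1.1 *ᵥ pt 0 0 0 0 0 2) = 2 := (nrm_ap ⟨g.1.1, g.2⟩ _).trans Disc.nrm_o
  have hy' : 0 < nrm (g.1.1 *ᵥ pt 0 0 0 0 0 2) := by rw [hy]; norm_num
  obtain ⟨-, -, -, -, -, -, -, -, u, -, -, hu, e1, h3, -⟩ := red hP hy'
  obtain ⟨n, hn⟩ := exists_pow_lt_of_lt_one hu (show (999 / 1000 : ℝ) < 1 by norm_num)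
  obtain ⟨p, hp, hs⟩ := up hP G hG H n _ hy' (by
    rw [e1, mul_comm]
    exact mul_le_mul_of_nonneg_left (by linarith) h3.le)
  obtain ⟨γ, hγ, d, hd, e⟩ := Disc.exists_lift G p hp
  refine ⟨γ, hγ, ?_⟩
  have e1 : (γ * g).1.1 = γ.1.1 * g.1.1 := rfl
  rw [e1, ← Matrix.mulVec_mulVec, e, Matrix.smul_mulVec]
  exact sieg_smul hd hs

theorem rowUni : SUni := by
  rintro G ⟨p, hp, e⟩ g hg h0 h1 h2
  rw [tm] at e
  refine ⟨lift_of G hp e (by simp [det_succ_row_zero, Fin.sum_univ_succ]),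
    lift_of G (G.mul_mem (G.mul_mem hg hp) (G.inv_mem hg)) ?_
      (by simp [det_succ_row_zero, Fin.sum_univ_succ])⟩
  have e1 : p.1 = 1 + (((√3 : ℝ) : ℂ) * I) • Matrix.single 0 3 1 := by
    rw [e]
    ext i j
    fin_cases i <;> fin_cases j <;> simp
  have e2 : g.1 * (Matrix.single 0 3 1 : M4) * (H91.J * g.1ᴴ * H91.J) =
      (normSq (g.1 3 0) : ℂ) • (Matrix.single 3 0 1 : M4) := by
    ext i j
    fin_cases i <;> fin_cases j <;>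
      simp [Matrix.mul_apply, Fin.sum_univ_four, H91.J, Matrix.single_apply, h0, h1, h2, mul_conj,
        Matrix.vecMul, dotProduct]
  rw [U31.val_mul, U31.val_mul, U31.val_inv, e1, Matrix.mul_add, Matrix.mul_one, Matrix.add_mul,
    g.2.right_inv, Matrix.mul_smul, Matrix.smul_mul, e2]
  ext i j
  fin_cases i <;> fin_cases j <;> simp
  ring

end Pool.Agent.MP_d97ab6_al.H32
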