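import Pool.Agent.MP_d97ab6_al.H32.Base

/-! The descent theorem. -/

namespace Pool.Agent.MP_d97ab6_al.H32

open Matrix Complex H91
open scoped ComplexConjugate

namespace Desc

/-- Elements that descend to the subgroup. -/
inductive Good {G : Type} [Group G] (P : Subgroup G) (T : Set G) (lam : ℝ) (d : G → ℝ) : G → Prop
  | base (p : G) : p ∈ P → Good P T lam d p
  | step (g s : G) : s ∈ T → d g ≠ 0 → d (s * g) ≤ lam * d g → Good P T lam d (s * g) →
      Good P T lam d g

theorem abs {G : Type} [Group G] (P : Subgroup G) (T : Set G) (lam δ : ℝ) (d : G → ℝ)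
    (l0 : 0 < lam) (l1 : lam < 1) (hδ : 0 < δ) (d0 : ∀ g, 0 ≤ d g) (d1 : d 1 = 0)
    (dl : ∀ p ∈ P, ∀ g, d (p * g) = d g) (left : ∀ p ∈ P, ∀ t ∈ T, p * t ∈ T)
    (right : ∀ p ∈ P, ∀ t ∈ T, t * p ∈ T) (inv : ∀ t ∈ T, t⁻¹ ∈ T)
    (dep : ∀ t ∈ T, t ∈ P ∨ δ ≤ d t)
    (lc : ∀ g, d g ≠ 0 → ∃ p ∈ P, ∀ Gd : G → Prop, (∀ h, ∀ p ∈ P, Gd h → Gd (h * p)) →
      (∀ h h', d (h⁻¹ * (p * g)) ≤ lam * d g → h⁻¹ * h' ∈ T → Gd h → Gd h') →
      ∀ s ∈ T, ∀ t ∈ T, s ∉ P → t ∉ P → d (s⁻¹ * (p * g)) ≤ lam * d g →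
        lam * d (t⁻¹ * (p * g)) < d g → Gd s → Gd t) :
    ∀ g ∈ Subgroup.closure T, g ∈ P ∨ δ ≤ d g := by
  have f1 : ∀ g, Good P T lam d g → ∀ p ∈ P, Good P T lam d (p * g) := by
    intro g hg p hp
    cases hg with
    | base _ h => exact .base _ (P.mul_mem hp h)
    | step _ s a b c e =>
      have k : s * p⁻¹ * (p * g) = s * g := by group
      exact .step _ (s * p⁻¹) (right _ (P.inv_mem hp) _ a) (by rwa [dl p hp])
        (by rwa [k, dl p hp]) (by rwa [k])
  have f2 : ∀ t ∈ T, Good P T lam d t := by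
    intro t ht
    rcases dep t ht with h | h
    · exact .base _ h
    · refine .step _ t⁻¹ (inv t ht) (hδ.trans_le h).ne' ?_ ?_
      · rw [inv_mul_cancel, d1]
        exact mul_nonneg l0.le (d0 t)
      · rw [inv_mul_cancel]
        exact .base _ P.one_mem
  have f3 : ∀ g, Good P T lam d g → g ∈ P ∨ δ ≤ d g := by
    intro g hg
    induction hg with
    | base _ h => exact Or.inl h
    | step g s a b c _ ih =>
      rcases ih with h | h
      · exact dep g (by simpa using right _ h _ (inv s a))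
      · exact Or.inr (h.trans (c.trans (mul_le_of_le_one_left (d0 g) l1.le)))
  have f4 : ∀ n : ℕ, ∀ g, Good P T lam d g → d g * lam ^ n < δ → ∀ t ∈ T,
      Good P T lam d (t * g) := by
    intro n
    induction n with
    | zero =>
      intro g hg h t ht
      rcases f3 g hg with k | k
      · exact f2 _ (right g k t ht)
      · simp only [pow_zero, mul_one] at h
        exact absurd h (not_lt.2 k)
    | succ n ih =>
      intro g hg h t ht
      by_cases tP : t ∈ P
      · exact f1 g hg t tP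
      have hg' := hg
      cases hg with
      | base _ k => exact f2 _ (right g k t ht)
      | step _ s a b c e =>
        have g0 : 0 < d g := (d0 g).lt_of_ne' b
        rcases le_or_gt (d g) (lam * d (t * g)) with k | k
        · refine .step _ t⁻¹ (inv t ht) (fun z => ?_) (by rwa [inv_mul_cancel_left])
            (by rwa [inv_mul_cancel_left])
          rw [z, mul_zero] at k
          exact absurd g0 (not_lt.2 k)
        obtain ⟨p, hp, H⟩ := lc g b
        have k1 : ∀ x : G, (p * x⁻¹)⁻¹ * (p * g) = x * g := fun x => by group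
        have k2 : ∀ x : G, p * x⁻¹ ∈ P → x ∈ P := fun x hx => by
          simpa using P.mul_mem (P.inv_mem hx) hp
        have := H (fun h => Good P T lam d (h⁻¹ * (p * g))) (fun h q hq k => by
            rw [_root_.mul_inv_rev, mul_assoc]
            exact f1 _ k _ (P.inv_mem hq))
          (fun x y k1 k2 k3 => by
            have := ih _ k3 (((mul_le_mul_of_nonneg_right k1 (pow_nonneg l0.le n)).trans_eq
              (by ring)).trans_lt h) _ (inv _ k2)
            rwa [show (x⁻¹ * y)⁻¹ * (x⁻¹ * (p * g)) = y⁻¹ * (p * g) by group] at this)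
          (p * s⁻¹) (left p hp _ (inv s a)) (p * t⁻¹) (left p hp _ (inv t ht))
          (fun z => by
            rw [dl s (k2 s z)] at c
            nlinarith)
          (fun z => tP (k2 t z)) (by rwa [k1]) (by rwa [k1]) (by rwa [k1])
        rwa [k1] at this
  have f5 : ∀ g, Good P T lam d g → ∀ t ∈ T, Good P T lam d (t * g) := by
    intro g hg
    obtain ⟨n, hn⟩ := exists_pow_lt_of_lt_one (div_pos hδ (show 0 < d g + 1 by linarith [d0 g])) l1
    refine f4 n g hg ?_
    rw [lt_div_iff₀ (by linarith [d0 g])] at hn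
    nlinarith [pow_pos l0 n]
  intro g hg
  refine f3 g ?_
  induction hg using Subgroup.closure_induction_left with
  | one => exact .base _ P.one_mem
  | mul_left x hx y _ h => exact f5 y h x hx
  | inv_mul_cancel x hx y _ h => exact f5 y h _ (inv x hx)

theorem c_eq (g : U31) : g.1 3 0 = herm e0 (ap g e0) := by
  simp [herm, e0, ap, Matrix.mulVec, dotProduct, Fin.sum_univ_four]

theorem c_inv (h g : U31) : (h⁻¹ * g).1 3 0 = herm (ap h e0) (ap g e0) := by
  rw [c_eq, ← herm_ap h, ← ap_mul, mul_inv_cancel_left]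

theorem smul_r (v y : V4) (c : ℂ) : herm v (c • y) = c * herm v y := by
  simp only [herm, Pi.smul_apply, smul_eq_mul]
  ring

theorem smul_l (v y : V4) (c : ℂ) : herm (c • v) y = conj c * herm v y := by
  simp only [herm, Pi.smul_apply, smul_eq_mul, map_mul]
  ring

theorem null {w : V4} (h : herm w w = 0) (h3 : w 3 = 1) : ∃ x0 x1 x2 x3 t, w = bp x0 x1 x2 x3 t 0 := by
  have s : √3 ≠ 0 := by positivity
  refine ⟨(w 1).re, (w 1).im / √3, (w 2).re, (w 2).im / √3, (w 0).im / √3, ?_⟩
  have r := congrArg Complex.re h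
  simp only [herm, h3, map_one, mul_one, one_mul, add_re, mul_re, conj_re, conj_im, zero_re] at r
  rw [bp, mul_div_cancel₀ _ s, mul_div_cancel₀ _ s, mul_div_cancel₀ _ s]
  ext i
  fin_cases i
  · exact Complex.ext (show (w 0).re = -(_ + _ + _ + _ + _) / 2 by linarith) rfl
  · rfl
  · rfl
  · exact h3

end Desc

open Desc

theorem rowDesc : SDesc := by
  intro P T lam δ l0 l1 hδ h hl
  refine abs P T lam δ (fun g => normSq (g.1 3 0)) l0 l1 hδ (fun g => normSq_nonneg _) (by simp)
    (fun p hp g => ?_) h.left h.right h.inv h.dep fun g hg => ?_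
  · obtain ⟨e, e1, e2⟩ := h.fix _ (P.inv_mem hp)
    have := c_inv p⁻¹ g
    rw [inv_inv, e2, smul_l, ← c_eq] at this
    simp only [this, map_mul, normSq_conj, e1, one_mul]
  · have c0 : g.1 3 0 ≠ 0 := fun z => hg (by simp [z])
    have n0 : 0 < normSq (g.1 3 0) := normSq_pos.2 c0
    obtain ⟨x0, x1, x2, x3, t, e⟩ := null (w := (g.1 3 0)⁻¹ • ap g e0)
      (by rw [smul_l, smul_r, herm_ap]; simp [herm, e0])
      (by
        have : ap g e0 3 = g.1 3 0 := by simp [c_eq g, herm, e0]
        rw [Pi.smul_apply, this, smul_eq_mul, inv_mul_cancel₀ c0])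
    obtain ⟨p, hp, H⟩ := hl x0 x1 x2 x3 t
    have r : ∀ x, rr x (ap p (bp x0 x1 x2 x3 t 0)) =
        normSq ((x⁻¹ * (p * g)).1 3 0) / normSq (g.1 3 0) := fun x => by
      rw [rr, ← e, ap_smul, ← ap_mul, smul_r, ← c_inv, map_mul, map_inv₀, div_eq_inv_mul]
    refine ⟨p, hp, fun Gd a b s hs t ht c d e f => H Gd a (fun x y k => b x y ?_) s hs t ht c d ?_ ?_⟩
    · rwa [r, div_le_iff₀ n0] at k
    · rwa [r, div_le_iff₀ n0]
    · rwa [r, ← mul_div_assoc, div_lt_one n0]

end Pool.Agent.MP_d97ab6_al.H32
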