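import Pool.Agent.MP_d97ab6_al.H32.Base
import Pool.Agent.MP_d97ab6_al.H91.Disc
import Pool.Agent.MP_d97ab6_al.H91.Vol

/-! Second lattice: discreteness and finite volume of the larger Siegel set. -/

namespace Pool.Agent.MP_d97ab6_al.H32

open Matrix Complex MeasureTheory Topology H91
open scoped ComplexConjugate

namespace Disc3

theorem om_sq : om * om = -1 - om := by
  have h : √3 * √3 = 3 := Real.mul_self_sqrt (by norm_num)
  apply Complex.ext <;> simp [om] <;> linarith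

theorem normSq_eis (a b : ℤ) : normSq (eis a b) = ((a ^ 2 - a * b + b ^ 2 : ℤ) : ℝ) := by
  have h : √3 * √3 = 3 := Real.mul_self_sqrt (by norm_num)
  simp [eis, om, normSq_apply]
  linear_combination (b : ℝ) ^ 2 / 4 * h

theorem small {e : ℂ} (he : ‖e - 1‖ < 1 / 10) (m n : ℤ) (h : ‖e * eis m n‖ < 1 / 5) :
    m = 0 ∧ n = 0 := by
  have h1 : 9 / 10 ≤ ‖e‖ := by
    have := norm_sub_norm_le (1 : ℂ) e
    rw [norm_one, norm_sub_rev] at this
    linarith
  rw [norm_mul] at h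
  have h2 : ‖eis m n‖ < 1 := by
    by_contra hc
    have := mul_le_mul h1 (not_lt.1 hc) (by norm_num) (norm_nonneg _)
    linarith
  have h3 : normSq (eis m n) < 1 := by
    rw [normSq_eq_norm_sq]
    exact pow_lt_one₀ (norm_nonneg _) h2 two_ne_zero
  rw [normSq_eis] at h3
  have h4 : m ^ 2 - m * n + n ^ 2 < 1 := by exact_mod_cast h3
  constructor <;> nlinarith [sq_nonneg (m - n), sq_nonneg m, sq_nonneg n]

theorem pow_int (p q : ℤ) (a : ℕ) : ∃ m n : ℤ, eis p q ^ a = eis m n := by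
  induction a with
  | zero => exact ⟨1, 0, by simp [eis]⟩
  | succ a ih =>
    obtain ⟨m, n, h⟩ := ih
    refine ⟨m * p - n * q, m * q + n * p - n * q, ?_⟩
    rw [pow_succ, h, eis, eis, eis]
    push_cast
    linear_combination (n : ℂ) * q * om_sq

theorem pow_one {e z : ℂ} (he : ‖e - 1‖ < 1 / 10) (p q : ℤ) (hz : z = eis p q) (a : ℕ)
    (h : ‖e * z ^ a - 1‖ < 1 / 10) : z ^ a = 1 := by
  obtain ⟨m, n, e1⟩ := pow_int p q a
  rw [hz, e1] at h ⊢
  have h2 : ‖e * eis (m - 1) n‖ < 1 / 5 := by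
    have e2 : e * eis (m - 1) n = (e * eis m n - 1) - (e - 1) := by
      rw [eis, eis]; push_cast; ring
    rw [e2]
    exact (norm_sub_le _ _).trans_lt (by linarith)
  obtain ⟨a1, a2⟩ := small he _ _ h2
  rw [a2, show m = 1 by omega]
  simp [eis]

theorem key (G : Subgroup U31) (H : ∀ g ∈ G, g ∈ P3set ∨ 5 ≤ normSq (g.1 3 0)) (γ : SU31)
    (hγ : γ ∈ lift G) (hW : ∀ i j, ‖γ.1.1 i j - (1 : M4) i j‖ < 1 / 10) : γ = 1 := by
  obtain ⟨c, g, hg, e⟩ := hγ
  have hc : normSq c = 1 := Disc.normSq_scalar (m := γ.1.1) γ.2 (e ▸ g.2)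
  have c0 : c ≠ 0 := by
    rintro rfl
    simp at hc
  have w30 : ‖γ.1.1 3 0‖ < 1 / 10 := by simpa using hW 3 0
  rcases H g hg with ⟨k, u, v, a, b, a', b', m, hp⟩ | h
  swap
  · exfalso
    rw [e, Matrix.smul_apply, smul_eq_mul, map_mul, hc, one_mul, normSq_eq_norm_sq] at h
    have := norm_nonneg (γ.1.1 3 0)
    nlinarith
  have e1 : γ.1.1 = c⁻¹ • pm3 k u v a b a' b' m := by
    rw [← hp, e, smul_smul, inv_mul_cancel₀ c0, one_smul]
  rw [pm3, smul_smul] at e1
  generalize c⁻¹ * ze ^ k = E at e1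
  rw [e1] at hW
  have hE : ‖E - 1‖ < 1 / 10 := by simpa using hW 0 0
  have h13 : ‖E * eis a b‖ < 1 / 10 := by simpa using hW 1 3
  have h23 : ‖E * eis a' b'‖ < 1 / 10 := by simpa using hW 2 3
  obtain ⟨rfl, rfl⟩ := small hE _ _ (h13.trans (by norm_num))
  obtain ⟨rfl, rfl⟩ := small hE _ _ (h23.trans (by norm_num))
  have h03 : ‖E * eis m (2 * m)‖ < 1 / 5 := by
    have h1 : ‖E * ((1 + 2 * om) * m)‖ < 1 / 10 := by simpa [nq] using hW 0 3
    rw [show eis m (2 * m) = (1 + 2 * om) * m by rw [eis]; push_cast; ring]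
    linarith
  obtain ⟨rfl, -⟩ := small hE _ _ h03
  have ha := pow_one (z := om) hE 0 1 (by simp [eis]) u (by simpa using hW 1 1)
  have hb := pow_one (z := ze) hE 1 1 (by simp [eis, ze]) v (by simpa using hW 2 2)
  have e2 : γ.1.1 = E • (1 : M4) := by
    rw [e1, ha, hb]
    congr 1
    ext i j
    fin_cases i <;> fin_cases j <;> simp [eis, nq]
  have hd := γ.1.2
  rw [e2, det_smul, det_one, mul_one, Fintype.card_fin] at hd
  rw [Disc.root_one hE hd, one_smul] at e2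
  exact Subtype.ext (Subtype.ext e2)

open Vol in
theorem rest {g : SU31} (h : Sieg3 (v g)) (h' : ¬ Sieg (v g)) (i : Fin 4) :
    normSq (v g i) ≤ 99999999 := by
  obtain ⟨c, x0, x1, x2, x3, t, u, hc, hv, h0, h1, h2, h3, ht, hu⟩ := h
  have hu' : u < 1 / 20 := lt_of_not_ge fun k =>
    h' ⟨c, x0, x1, x2, x3, t, u, hc, hv, h0, h1, h2, h3, ht, k⟩
  have e4 : normSq c * u = 2 := by rw [← nrm_v g, hv, Disc.nrm_pt]
  have c0 : normSq c ≤ 20000 := by nlinarith [normSq_nonneg c]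
  have a0 := (sq_le_one_iff_abs_le_one _).2 h0
  have a1 := (sq_le_one_iff_abs_le_one _).2 h1
  have a2 := (sq_le_one_iff_abs_le_one _).2 h2
  have a3 := (sq_le_one_iff_abs_le_one _).2 h3
  have a4 : t ^ 2 ≤ 2 ^ 2 := sq_le_sq' (abs_le.1 ht).1 (abs_le.1 ht).2
  have k : normSq (pt x0 x1 x2 x3 t u i) ≤ 20 := by
    have a5 : (x0 ^ 2 + x1 ^ 2 + x2 ^ 2 + x3 ^ 2 + u) ^ 2 ≤ 5 ^ 2 :=
      pow_le_pow_left₀ (by positivity) (by linarith) 2
    fin_cases i <;> simp [pt, normSq_apply] <;> nlinarith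
  rw [hv, Pi.smul_apply, smul_eq_mul, map_mul]
  exact (mul_le_mul c0 k (normSq_nonneg _) (by norm_num)).trans (by norm_num)

end Disc3

theorem rowDisc3 : SDisc3 := by
  intro G H
  apply discreteTopology_of_isOpen_singleton_one
  have e : ({1} : Set (lift G)) =
      ⋂ i, ⋂ j, {γ : lift G | ‖γ.1.1.1 i j - (1 : M4) i j‖ < 1 / 10} := by
    ext γ
    simp only [Set.mem_singleton_iff, Set.mem_iInter, Set.mem_ofPred_eq]
    constructor
    · rintro rfl i j
      change ‖(1 : M4) i j - (1 : M4) i j‖ < _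
      simp
    · exact fun h => Subtype.ext (Disc3.key G H γ.1 γ.2 h)
  rw [e]
  refine isOpen_iInter_of_finite fun i => isOpen_iInter_of_finite fun j => isOpen_lt ?_
    continuous_const
  have hc : Continuous fun γ : lift G => γ.1.1.1 := Vol.emb.continuous.comp continuous_subtype_val
  exact ((hc.matrix_elem i j).sub continuous_const).norm

theorem rowVol3 : SVol3 := by
  intro _ _ μ _
  have h : IsCompact {A : M4 | ∀ i j, A i j ∈ Metric.closedBall (0 : ℂ) 10000} :=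
    isCompact_pi_infinite fun i => isCompact_pi_infinite fun j => isCompact_closedBall _ _
  refine (measure_mono fun g hg => ?_).trans_lt ((measure_union_le _ _).trans_lt
    (ENNReal.add_lt_top.2 ⟨rowVol μ, (Vol.emb.isCompact_preimage h).measure_lt_top⟩))
  refine or_iff_not_imp_left.2 fun k i j => ?_
  rw [mem_closedBall_zero_iff, ← abs_norm, ← abs_of_nonneg (by norm_num : (0 : ℝ) ≤ 10000),
    ← sq_le_sq, ← normSq_eq_norm_sq]
  linarith [Vol.row g i j, Disc3.rest hg k i]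

end Pool.Agent.MP_d97ab6_al.H32
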