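import Pool.Agent.MP_d97ab6_al.H32.Base

/-! Exact layer: matrices over the ring generated by `om` and `sr`, represented by pairs of natural
numbers modulo `B^2+B+1` with `B = 2^128`; fixed point data; the checking functions. -/

namespace Pool.Agent.MP_d97ab6_al.H32

open Matrix Complex H91
open scoped ComplexConjugate

def cB : Nat := 340282366920938463463374607431768211456
def cB1 : Nat := 340282366920938463463374607431768211457
def cB2 : Nat := 115792089237316195423570985008687907853269984665640564039457584007913129639936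
def cN : Nat := 115792089237316195423570985008687907853610267032561502502920958615344897851393
def cM : Nat := 115792089237316195423570985008687907853610267032561502502920958615344897851391
def cS : Nat := 115792089237316195423570985008687907853610267032561502502920958615344897851392

/-- `u` represents the Eisenstein integer `z` with coefficients bounded by `β`. -/
def ER (β : ℕ) (z : ℂ) (u : ℕ) : Prop :=
  ∃ a b : ℤ, z = eis a b ∧ |a| ≤ β ∧ |b| ≤ β ∧ (u : ℤ) ≡ a + b * cB [ZMOD cN]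

def Rep (β : ℕ) (z : ℂ) (u v : ℕ) : Prop :=
  ∃ z1 z2 : ℂ, z = z1 + z2 * sr ∧ ER β z1 u ∧ ER β z2 v

inductive NM
  | mk (u00 v00 u01 v01 u02 v02 u03 v03 u10 v10 u11 v11 u12 v12 u13 v13 u20 v20 u21 v21 u22 v22 u23 v23 u30 v30 u31 v31 u32 v32 u33 v33 : Nat)

def NM.u : NM → Fin 4 → Fin 4 → ℕ
  | .mk u00 _ u01 _ u02 _ u03 _ u10 _ u11 _ u12 _ u13 _ u20 _ u21 _ u22 _ u23 _ u30 _ u31 _ u32 _ u33 _ =>
    ![![u00, u01, u02, u03], ![u10, u11, u12, u13], ![u20, u21, u22, u23], ![u30, u31, u32, u33]]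

def NM.v : NM → Fin 4 → Fin 4 → ℕ
  | .mk _ v00 _ v01 _ v02 _ v03 _ v10 _ v11 _ v12 _ v13 _ v20 _ v21 _ v22 _ v23 _ v30 _ v31 _ v32 _ v33 =>
    ![![v00, v01, v02, v03], ![v10, v11, v12, v13], ![v20, v21, v22, v23], ![v30, v31, v32, v33]]

def MRep (β : ℕ) (M : M4) (X : NM) : Prop := ∀ i j, Rep β (M i j) (X.u i j) (X.v i j)

def d4u (a0 b0 a1 b1 a2 b2 a3 b3 c0 d0 c1 d1 c2 d2 c3 d3 : Nat) : Nat :=
  Nat.mod (Nat.add (Nat.add (Nat.add (Nat.mul a0 c0) (Nat.mul a1 c1))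
      (Nat.add (Nat.mul a2 c2) (Nat.mul a3 c3)))
    (Nat.mul cM (Nat.add (Nat.add (Nat.mul b0 d0) (Nat.mul b1 d1))
      (Nat.add (Nat.mul b2 d2) (Nat.mul b3 d3))))) cN

def d4v (a0 b0 a1 b1 a2 b2 a3 b3 c0 d0 c1 d1 c2 d2 c3 d3 : Nat) : Nat :=
  Nat.mod (Nat.add (Nat.add (Nat.add (Nat.mul a0 d0) (Nat.mul a1 d1))
      (Nat.add (Nat.mul a2 d2) (Nat.mul a3 d3)))
    (Nat.add (Nat.add (Nat.mul b0 c0) (Nat.mul b1 c1))
      (Nat.add (Nat.mul b2 c2) (Nat.mul b3 c3)))) cN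

noncomputable def mm (X Y : NM) : NM :=
  NM.rec (motive := fun _ => NM) (fun
    a00 b00 a01 b01 a02 b02 a03 b03 a10 b10 a11 b11 a12 b12 a13 b13 a20 b20 a21 b21 a22 b22 a23 b23
    a30 b30 a31 b31 a32 b32 a33 b33 =>
    NM.rec (motive := fun _ => NM) (fun
    c00 d00 c01 d01 c02 d02 c03 d03 c10 d10 c11 d11 c12 d12 c13 d13 c20 d20 c21 d21 c22 d22 c23 d23
    c30 d30 c31 d31 c32 d32 c33 d33 =>
    NM.mk
      (d4u a00 b00 a01 b01 a02 b02 a03 b03 c00 d00 c10 d10 c20 d20 c30 d30)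
      (d4v a00 b00 a01 b01 a02 b02 a03 b03 c00 d00 c10 d10 c20 d20 c30 d30)
      (d4u a00 b00 a01 b01 a02 b02 a03 b03 c01 d01 c11 d11 c21 d21 c31 d31)
      (d4v a00 b00 a01 b01 a02 b02 a03 b03 c01 d01 c11 d11 c21 d21 c31 d31)
      (d4u a00 b00 a01 b01 a02 b02 a03 b03 c02 d02 c12 d12 c22 d22 c32 d32)
      (d4v a00 b00 a01 b01 a02 b02 a03 b03 c02 d02 c12 d12 c22 d22 c32 d32)
      (d4u a00 b00 a01 b01 a02 b02 a03 b03 c03 d03 c13 d13 c23 d23 c33 d33)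
      (d4v a00 b00 a01 b01 a02 b02 a03 b03 c03 d03 c13 d13 c23 d23 c33 d33)
      (d4u a10 b10 a11 b11 a12 b12 a13 b13 c00 d00 c10 d10 c20 d20 c30 d30)
      (d4v a10 b10 a11 b11 a12 b12 a13 b13 c00 d00 c10 d10 c20 d20 c30 d30)
      (d4u a10 b10 a11 b11 a12 b12 a13 b13 c01 d01 c11 d11 c21 d21 c31 d31)
      (d4v a10 b10 a11 b11 a12 b12 a13 b13 c01 d01 c11 d11 c21 d21 c31 d31)
      (d4u a10 b10 a11 b11 a12 b12 a13 b13 c02 d02 c12 d12 c22 d22 c32 d32)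
      (d4v a10 b10 a11 b11 a12 b12 a13 b13 c02 d02 c12 d12 c22 d22 c32 d32)
      (d4u a10 b10 a11 b11 a12 b12 a13 b13 c03 d03 c13 d13 c23 d23 c33 d33)
      (d4v a10 b10 a11 b11 a12 b12 a13 b13 c03 d03 c13 d13 c23 d23 c33 d33)
      (d4u a20 b20 a21 b21 a22 b22 a23 b23 c00 d00 c10 d10 c20 d20 c30 d30)
      (d4v a20 b20 a21 b21 a22 b22 a23 b23 c00 d00 c10 d10 c20 d20 c30 d30)
      (d4u a20 b20 a21 b21 a22 b22 a23 b23 c01 d01 c11 d11 c21 d21 c31 d31)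
      (d4v a20 b20 a21 b21 a22 b22 a23 b23 c01 d01 c11 d11 c21 d21 c31 d31)
      (d4u a20 b20 a21 b21 a22 b22 a23 b23 c02 d02 c12 d12 c22 d22 c32 d32)
      (d4v a20 b20 a21 b21 a22 b22 a23 b23 c02 d02 c12 d12 c22 d22 c32 d32)
      (d4u a20 b20 a21 b21 a22 b22 a23 b23 c03 d03 c13 d13 c23 d23 c33 d33)
      (d4v a20 b20 a21 b21 a22 b22 a23 b23 c03 d03 c13 d13 c23 d23 c33 d33)
      (d4u a30 b30 a31 b31 a32 b32 a33 b33 c00 d00 c10 d10 c20 d20 c30 d30)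
      (d4v a30 b30 a31 b31 a32 b32 a33 b33 c00 d00 c10 d10 c20 d20 c30 d30)
      (d4u a30 b30 a31 b31 a32 b32 a33 b33 c01 d01 c11 d11 c21 d21 c31 d31)
      (d4v a30 b30 a31 b31 a32 b32 a33 b33 c01 d01 c11 d11 c21 d21 c31 d31)
      (d4u a30 b30 a31 b31 a32 b32 a33 b33 c02 d02 c12 d12 c22 d22 c32 d32)
      (d4v a30 b30 a31 b31 a32 b32 a33 b33 c02 d02 c12 d12 c22 d22 c32 d32)
      (d4u a30 b30 a31 b31 a32 b32 a33 b33 c03 d03 c13 d13 c23 d23 c33 d33)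
      (d4v a30 b30 a31 b31 a32 b32 a33 b33 c03 d03 c13 d13 c23 d23 c33 d33)) Y) X

def eq1 (s x e y : Nat) : Bool := Nat.beq (Nat.mod (Nat.mul s x) cN) (Nat.mod (Nat.mul e y) cN)

/-- `s • X = e • Y` modulo `cN`. -/
noncomputable def eqN (s : Nat) (X : NM) (e : Nat) (Y : NM) : Bool :=
  NM.rec (motive := fun _ => Bool) (fun
    a00 b00 a01 b01 a02 b02 a03 b03 a10 b10 a11 b11 a12 b12 a13 b13 a20 b20 a21 b21 a22 b22 a23 b23
    a30 b30 a31 b31 a32 b32 a33 b33 =>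
    NM.rec (motive := fun _ => Bool) (fun
    c00 d00 c01 d01 c02 d02 c03 d03 c10 d10 c11 d11 c12 d12 c13 d13 c20 d20 c21 d21 c22 d22 c23 d23
    c30 d30 c31 d31 c32 d32 c33 d33 =>
      band (eq1 s a00 e c00) (band (eq1 s b00 e d00) (band (eq1 s a01 e c01) (band (eq1 s b01 e
      d01) (band (eq1 s a02 e c02) (band (eq1 s b02 e d02) (band (eq1 s a03 e c03) (band (eq1 s b03
      e d03) (band (eq1 s a10 e c10) (band (eq1 s b10 e d10) (band (eq1 s a11 e c11) (band (eq1 s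
      b11 e d11) (band (eq1 s a12 e c12) (band (eq1 s b12 e d12) (band (eq1 s a13 e c13) (band (eq1
      s b13 e d13) (band (eq1 s a20 e c20) (band (eq1 s b20 e d20) (band (eq1 s a21 e c21) (band
      (eq1 s b21 e d21) (band (eq1 s a22 e c22) (band (eq1 s b22 e d22) (band (eq1 s a23 e c23)
      (band (eq1 s b23 e d23) (band (eq1 s a30 e c30) (band (eq1 s b30 e d30) (band (eq1 s a31 e
      c31) (band (eq1 s b31 e d31) (band (eq1 s a32 e c32) (band (eq1 s b32 e d32) (band (eq1 s a33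
      e c33) (eq1 s b33 e d33)))))))))))))))))))))))))))))))) Y) X

def dg (g n : Nat) : Nat := Nat.land (Nat.shiftRight g n) 127

noncomputable def gz (g n : ℕ) : ℂ :=
  eis ((dg g n : ℤ) - 64) ((dg g (n + 7) : ℤ) - 64) +
    eis ((dg g (n + 14) : ℤ) - 64) ((dg g (n + 21) : ℤ) - 64) * sr

/-- The matrix coded by `g`. -/
noncomputable def gM (g : ℕ) : M4 := (1 / 3 : ℂ) •
  !![gz g 0, gz g 28, gz g 56, gz g 84;
    gz g 112, gz g 140, gz g 168, gz g 196;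
    gz g 224, gz g 252, gz g 280, gz g 308;
    gz g 336, gz g 364, gz g 392, gz g 420]

def gu (g n : Nat) : Nat :=
  Nat.add (Nat.add (dg g n) (Nat.mul cB (dg g (Nat.add n 7)))) (Nat.mul 64 cB2)

def gc (g n : Nat) : Nat :=
  Nat.add (Nat.add (dg g n) (Nat.mul cB2 (dg g (Nat.add n 7)))) (Nat.mul 64 cB)

/-- Represents three times `gM g`. -/
def gN (g : Nat) : NM := NM.mk
    (gu g 0) (gu g 14) (gu g 28) (gu g 42) (gu g 56) (gu g 70) (gu g 84) (gu g 98) (gu g 112) (gu g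
    126) (gu g 140) (gu g 154) (gu g 168) (gu g 182) (gu g 196) (gu g 210) (gu g 224) (gu g 238)
    (gu g 252) (gu g 266) (gu g 280) (gu g 294) (gu g 308) (gu g 322) (gu g 336) (gu g 350) (gu g
    364) (gu g 378) (gu g 392) (gu g 406) (gu g 420) (gu g 434)

/-- Represents three times `J * (gM g)ᴴ * J`. -/
def gC (g : Nat) : NM := NM.mk
    (gc g 420) (Nat.mul cS (gc g 434)) (gc g 196) (Nat.mul cS (gc g 210)) (gc g 308) (Nat.mul cS
    (gc g 322)) (gc g 84) (Nat.mul cS (gc g 98)) (gc g 364) (Nat.mul cS (gc g 378)) (gc g 140)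
    (Nat.mul cS (gc g 154)) (gc g 252) (Nat.mul cS (gc g 266)) (gc g 28) (Nat.mul cS (gc g 42)) (gc
    g 392) (Nat.mul cS (gc g 406)) (gc g 168) (Nat.mul cS (gc g 182)) (gc g 280) (Nat.mul cS (gc g
    294)) (gc g 56) (Nat.mul cS (gc g 70)) (gc g 336) (Nat.mul cS (gc g 350)) (gc g 112) (Nat.mul
    cS (gc g 126)) (gc g 224) (Nat.mul cS (gc g 238)) (gc g 0) (Nat.mul cS (gc g 14))

def idN : NM := NM.mk 1 0 0 0 0 0 0 0 0 0 1 0 0 0 0 0 0 0 0 0 1 0 0 0 0 0 0 0 0 0 1 0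

noncomputable def isU (g : Nat) : Bool := eqN 1 (mm (gC g) (gN g)) 9 idN

def fl (c s m : Nat) : Nat := Nat.mod (Nat.div c s) m

/-- The element of the cusp group coded by `c`, with scalar exponent `k`. -/
noncomputable def pc (k c : ℕ) : M4 :=
  pm3 k (fl c 64 4) (fl c 256 8) ((fl c 2048 16 : ℤ) - 8) ((fl c 32768 16 : ℤ) - 8)
    ((fl c 524288 16 : ℤ) - 8) ((fl c 8388608 16 : ℤ) - 8) ((fl c 134217728 64 : ℤ) - 32)

def zu (a b : Nat) : Nat := Nat.add (Nat.add a (Nat.mul cB b)) (Nat.mul 8 cB2)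

def zc (a b : Nat) : Nat := Nat.add (Nat.add a (Nat.mul cB2 b)) (Nat.mul 8 cB)

def pN2 (u1 u2 z1 y1 z2 y2 w : Nat) : NM := NM.mk
    3 0 (Nat.mod (Nat.mul (Nat.mul 3 cS) (Nat.mul y1 u1)) cN) 0
    (Nat.mod (Nat.mul (Nat.mul 3 cS) (Nat.mul y2 u2)) cN) 0
    (Nat.mod (Nat.add (Nat.mul (Nat.mul 3 cB) (Nat.add (Nat.mul z1 y1) (Nat.mul z2 y2)))
      (Nat.mul (Nat.add cB cB1) w)) cN) 0
    0 0 (Nat.mul 3 u1) 0 0 0 (Nat.mul 3 z1) 0
    0 0 0 0 (Nat.mul 3 u2) 0 (Nat.mul 3 z2) 0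
    0 0 0 0 0 0 3 0

def pN1 (u v a b c d m : Nat) : NM :=
  pN2 (Nat.mod (Nat.pow cB u) cN) (Nat.mod (Nat.pow cB1 v) cN) (zu a b) (zc a b) (zu c d) (zc c d)
    (Nat.add (Nat.mul 3 m) (Nat.mul cS (Nat.add (Nat.add a b) 80)))

/-- Represents three times `pc 0 c`. -/
def pN (c : Nat) : NM :=
  pN1 (fl c 64 4) (fl c 256 8) (fl c 2048 16) (fl c 32768 16) (fl c 524288 16) (fl c 8388608 16)
    (fl c 134217728 64)

def cg (CG a : Nat) : Nat := Nat.mod (Nat.shiftRight CG (Nat.mul 448 a)) (Nat.pow 2 448)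

noncomputable def hM (CG c : ℕ) : M4 := pc 0 c * gM (cg CG (Nat.mod c 64))

/-- Represents nine times `hM CG c`. -/
noncomputable def hN (CG c : Nat) : NM := mm (pN c) (gN (cg CG (Nat.mod c 64)))

noncomputable def E5 (CG : Nat) (hi : NM) (cj cw cp : Nat) : Bool :=
  eqN 27 (hN CG cj) (Nat.pow cB1 (Nat.mod cp 8)) (mm (mm hi (hN CG cw)) (pN cp))

def SE5 : Prop :=
  (∀ g, isU g = true → IsU (gM g)) ∧
    ∀ CG ci cj cw cp, E5 CG (hN CG ci) cj cw cp = true →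
      hM CG cj = hM CG ci * hM CG cw * pc (Nat.mod cp 8) cp

/-- Fixed point data of a class: five coordinates at scale `2^40`. -/
def cx (CX a j : Nat) : Int :=
  Int.subNatNat (Nat.mod (Nat.shiftRight CX (Nat.add (Nat.mul 400 a) (Nat.mul 48 j)))
    281474976710656) 2199023255552

def ctf (CX a : Nat) : Nat :=
  Nat.mod (Nat.shiftRight CX (Nat.add (Nat.mul 400 a) 240)) 1208925819614629174706176

def ctv (CX a : Nat) : Nat :=
  Nat.mod (Nat.shiftRight CX (Nat.add (Nat.mul 400 a) 320)) 1208925819614629174706176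

def Apx (X : ℤ) (y : ℝ) : Prop := |y * 1099511627776 - X| ≤ 1

def ClsOK (CG CX a : ℕ) : Prop :=
  ∃ (h : IsU (gM (cg CG a))) (y0 y1 y2 y3 t D : ℝ), PosOf ⟨gM (cg CG a), h⟩ y0 y1 y2 y3 t D ∧
    Apx (cx CX a 0) y0 ∧ Apx (cx CX a 1) y1 ∧ Apx (cx CX a 2) y2 ∧ Apx (cx CX a 3) y3 ∧
    Apx (cx CX a 4) t ∧ 0 < D ∧ 2 ^ 66 ≤ 998 / 1000 * D * ctf CX a ∧
    D * ctv CX a ≤ 998 / 1000 * 2 ^ 66 ∧ (a < 4 → 5 ≤ D ∧ D ≤ 10)

/-- A sufficient test for `0 ≤ p + q √6`. -/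
def nn (p q : Int) : Bool := decide (0 ≤ p * 1152921504606846976 + q * 2824069399768620282 - |q|)

/-- Tests that `(p + q √6) / (n + k √6)` is within `2^-40` of `X / 2^40`. -/
def apx (p q n k X : Int) : Bool :=
  nn (n - (p * 1099511627776 - X * n)) (k - (q * 1099511627776 - X * k)) &&
    nn (n + (p * 1099511627776 - X * n)) (k + (q * 1099511627776 - X * k))

/-- Six times the real part of an entry is `r1 + r2 √6`. -/
def r1 (g n : Nat) : Int := 3 * (2 * ((dg g n : ℤ) - 64) - ((dg g (n + 7) : ℤ) - 64))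
def r2 (g n : Nat) : Int := -3 * ((dg g (n + 21) : ℤ) - 64)

/-- Six times the imaginary part of an entry is `√3 (i1 + i2 √6)`. -/
def i1 (g n : Nat) : Int := 3 * ((dg g (n + 7) : ℤ) - 64)
def i2 (g n : Nat) : Int := 2 * ((dg g (n + 14) : ℤ) - 64) - ((dg g (n + 21) : ℤ) - 64)

def re1 (g n : Nat) : Int :=
  r1 g n * r1 g 336 + 6 * (r2 g n * r2 g 336) + 3 * (i1 g n * i1 g 336 + 6 * (i2 g n * i2 g 336))
def re2 (g n : Nat) : Int :=
  r1 g n * r2 g 336 + r2 g n * r1 g 336 + 3 * (i1 g n * i2 g 336 + i2 g n * i1 g 336)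
def im1 (g n : Nat) : Int :=
  i1 g n * r1 g 336 + 6 * (i2 g n * r2 g 336) - (r1 g n * i1 g 336 + 6 * (r2 g n * i2 g 336))
def im2 (g n : Nat) : Int :=
  i1 g n * r2 g 336 + i2 g n * r1 g 336 - (r1 g n * i2 g 336 + r2 g n * i1 g 336)

noncomputable def cls1 (g : Nat) (n k X0 X1 X2 X3 T tf tw : Int) (a : Nat) : Bool :=
  isU g && nn (n - 1) k && apx (re1 g 112) (re2 g 112) n k X0 && apx (im1 g 112) (im2 g 112) n k X1 &&
    apx (re1 g 224) (re2 g 224) n k X2 && apx (im1 g 224) (im2 g 224) n k X3 &&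
    apx (im1 g 0) (im2 g 0) n k T &&
    nn (998 * tf * n - 324000 * 73786976294838206464) (998 * tf * k) &&
    nn (998 * 324 * 73786976294838206464 - 1000 * tw * n) (-(1000 * tw * k)) &&
    (Nat.ble 4 a || (nn (n - 1620) k && nn (3240 - n) (-k)))

noncomputable def cls (CG CX a : Nat) : Bool :=
  cls1 (cg CG a) (re1 (cg CG a) 336) (re2 (cg CG a) 336) (cx CX a 0) (cx CX a 1) (cx CX a 2)
    (cx CX a 3) (cx CX a 4) (ctf CX a) (ctv CX a) a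

def SCls : Prop := SPos → SE5 → ∀ CG CX a, cls CG CX a = true → ClsOK CG CX a

noncomputable def fz (x : Int) (k : Nat → Bool) : Bool :=
  Int.rec (motive := fun _ => Bool) (fun n => frc n k) (fun _ => false) x

abbrev K9 := Nat → Nat → Nat → Nat → Nat → Nat → Nat → Nat → Nat → Bool

noncomputable def mk1 (Y0 Y1 Y2 Y3 T a b c d m : Int) (k : K9) : Bool :=
  fz ((Y0 + (2 * a - b + 4) * 1099511627776) / 33554432) fun a0 =>
  fz ((Y1 + (b + 4) * 1099511627776) / 33554432) fun a1 =>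
  fz ((Y2 + (2 * c - d + 4) * 1099511627776) / 33554432) fun a2 =>
  fz ((Y3 + (d + 4) * 1099511627776) / 33554432) fun a3 =>
  fz ((12 * T + (6 * (a * a - a * b + b * b + (c * c - c * d + d * d)) - 4 * (a + b) + 384) *
      1099511627776 - 3 * ((2 * a - b) * Y1 - b * Y0 + ((2 * c - d) * Y3 - d * Y2)) +
      m * 13194139533312) / 3072 + 131072 * ((a0 : ℤ) - a1 + a2 - a3)) fun e =>
    k a0 a1 a2 a3 (ad a0 131072) (ad a1 131072) (ad a2 131072) (ad a3 131072) e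

noncomputable def mkE (X0 X1 X2 X3 T p1 q1 p2 q2 a b c d m : Int) (k : K9) : Bool :=
  mk1 ((2 * p1 - q1) * X0 - 3 * q1 * X1) (q1 * X0 + (2 * p1 - q1) * X1)
    ((2 * p2 - q2) * X2 - 3 * q2 * X3) (q2 * X2 + (2 * p2 - q2) * X3) T a b c d m k

def za (v : Nat) : Int := Int.subNatNat (Nat.mod (Nat.shiftRight 42010 (Nat.mul 2 v)) 4) 1
def zb (v : Nat) : Int := Int.subNatNat (Nat.mod (Nat.shiftRight 36969 (Nat.mul 2 v)) 4) 1

def SMk : Prop :=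
  (∀ v < 8, ze ^ v = eis (za v) (zb v) ∧ |za v| ≤ 1 ∧ |zb v| ≤ 1) ∧ (∀ u, om ^ u = ze ^ (2 * u)) ∧
  ∀ (X0 X1 X2 X3 T p1 q1 p2 q2 a b c d m : ℤ) (k : K9) (y0 y1 y2 y3 t : ℝ),
    Apx X0 y0 → Apx X1 y1 → Apx X2 y2 → Apx X3 y3 → Apx T t → |p1| ≤ 1 → |q1| ≤ 1 → |p2| ≤ 1 →
    |q2| ≤ 1 → |a| ≤ 8 → |b| ≤ 8 → |c| ≤ 8 → |d| ≤ 8 →
    mkE X0 X1 X2 X3 T p1 q1 p2 q2 a b c d m k = true →
    ∃ a0 a1 a2 a3 m0 m1 m2 m3 e, k a0 a1 a2 a3 m0 m1 m2 m3 e = true ∧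
      Enc a0 a1 a2 a3 m0 m1 m2 m3 e (ro0 p1 q1 y0 y1 + a - b / 2) (ro1 p1 q1 y0 y1 + b / 2)
        (ro0 p2 q2 y2 y3 + c - d / 2) (ro1 p2 q2 y2 y3 + d / 2)
        (tv a b c d m (ro0 p1 q1 y0 y1) (ro1 p1 q1 y0 y1) (ro0 p2 q2 y2 y3) (ro1 p2 q2 y2 y3) t)

end Pool.Agent.MP_d97ab6_al.H32
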