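import Pool.Agent.MP_d97ab6_al.H32.Base

/-! Soundness of the two interval tests. -/

namespace Pool.Agent.MP_d97ab6_al.H32

namespace Far

theorem ad_cast (x y : ℕ) : ((x - y + (y - x) : ℕ) : ℝ) = |(x : ℝ) - y| := by
  rcases le_total x y with h | h
  · have h1 : (x : ℝ) ≤ y := by exact_mod_cast h
    rw [Nat.sub_eq_zero_of_le h, zero_add, Nat.cast_sub h, abs_sub_comm,
      abs_of_nonneg (sub_nonneg.2 h1)]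
  · have h1 : (y : ℝ) ≤ x := by exact_mod_cast h
    rw [Nat.sub_eq_zero_of_le h, add_zero, Nat.cast_sub h, abs_of_nonneg (sub_nonneg.2 h1)]

theorem lo (x y r : ℕ) (z : ℝ) (h : |z - ((x : ℝ) - y)| ≤ r) :
    ((x - y + (y - x) - r : ℕ) : ℝ) ^ 2 ≤ z ^ 2 := by
  rcases le_total (x - y + (y - x)) r with h1 | h1
  · rw [Nat.sub_eq_zero_of_le h1, Nat.cast_zero, zero_pow two_ne_zero]
    exact sq_nonneg z
  · have h2 : (r : ℝ) ≤ ((x - y + (y - x) : ℕ) : ℝ) := by exact_mod_cast h1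
    rw [Nat.cast_sub h1, ← sq_abs z]
    refine pow_le_pow_left₀ (sub_nonneg.2 h2) ?_ 2
    rw [ad_cast]
    have h3 := abs_sub_abs_le_abs_sub ((x : ℝ) - y) z
    rw [abs_sub_comm ((x : ℝ) - y) z] at h3
    linarith

theorem hi (x y r : ℕ) (z : ℝ) (h : |z - ((x : ℝ) - y)| ≤ r) :
    z ^ 2 ≤ ((x - y + (y - x) + r : ℕ) : ℝ) ^ 2 := by
  rw [← sq_abs z, Nat.cast_add _ r, ad_cast]
  refine pow_le_pow_left₀ (abs_nonneg z) ?_ 2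
  have h3 := abs_sub_abs_le_abs_sub z ((x : ℝ) - y)
  linarith

theorem dif {c a r x y : ℝ} (h : |65536 * (x + 2) - c| + 2 ≤ r) (h' : |a - 65536 * (y + 2)| ≤ 2) :
    |65536 * (x - y) - (c - a)| ≤ r := by
  have e : 65536 * (x - y) - (c - a) = (65536 * (x + 2) - c) + (a - 65536 * (y + 2)) := by ring
  rw [e]
  exact (abs_add_le _ _).trans (by linarith)

theorem crs {c a r m x y : ℝ} (h : |65536 * (x + 2) - c| + 2 ≤ r)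
    (h' : |a - 65536 * (y + 2)| ≤ 2) (hm : |a - 131072| ≤ m) (hx : |x| ≤ 1) :
    |4294967296 * (y * x) - (a - 131072) * (c - 131072)| ≤ m * r + 131072 := by
  have e : 4294967296 * (y * x) - (a - 131072) * (c - 131072) =
      (a - 131072) * (65536 * (x + 2) - c) - 65536 * ((a - 65536 * (y + 2)) * x) := by ring
  have h1 : |(a - 131072) * (65536 * (x + 2) - c)| ≤ m * r := by
    rw [abs_mul]
    exact mul_le_mul hm (by linarith) (abs_nonneg _) ((abs_nonneg _).trans hm)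
  have h2 : |(a - 65536 * (y + 2)) * x| ≤ 2 * 1 := by
    rw [abs_mul]
    exact mul_le_mul h' hx (abs_nonneg _) zero_le_two
  rw [e]
  rw [abs_le] at h1 h2 ⊢
  constructor <;> linarith [h1.1, h1.2, h2.1, h2.2]

theorem ff_eq (y0 y1 y2 y3 t x0 x1 x2 x3 s : ℝ) :
    2 ^ 66 * FF y0 y1 y2 y3 t x0 x1 x2 x3 s =
      ((65536 * (x0 - y0)) ^ 2 + (65536 * (x2 - y2)) ^ 2 +
        3 * ((65536 * (x1 - y1)) ^ 2 + (65536 * (x3 - y3)) ^ 2)) ^ 2 +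
      12 * (4294967296 * (s - t + y0 * x1 - y1 * x0 + y2 * x3 - y3 * x2)) ^ 2 := by
  unfold FF
  ring

theorem comb {l0 l1 l2 l3 l4 z0 z1 z2 z3 z4 : ℝ} (h0 : l0 ^ 2 ≤ z0 ^ 2) (h1 : l1 ^ 2 ≤ z1 ^ 2)
    (h2 : l2 ^ 2 ≤ z2 ^ 2) (h3 : l3 ^ 2 ≤ z3 ^ 2) (h4 : l4 ^ 2 ≤ z4 ^ 2) :
    (l0 ^ 2 + l2 ^ 2 + 3 * (l1 ^ 2 + l3 ^ 2)) ^ 2 + 12 * l4 ^ 2 ≤
      (z0 ^ 2 + z2 ^ 2 + 3 * (z1 ^ 2 + z3 ^ 2)) ^ 2 + 12 * z4 ^ 2 :=
  add_le_add (pow_le_pow_left₀ (by positivity) (by linarith) 2) (by linarith)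

theorem castF (l0 l1 l2 l3 l4 : ℕ) :
    (((l0 ^ 2 + l2 ^ 2 + 3 * (l1 ^ 2 + l3 ^ 2)) ^ 2 + 12 * l4 ^ 2 : ℕ) : ℝ) =
      ((l0 : ℝ) ^ 2 + (l2 : ℝ) ^ 2 + 3 * ((l1 : ℝ) ^ 2 + (l3 : ℝ) ^ 2)) ^ 2 + 12 * (l4 : ℝ) ^ 2 := by
  push_cast
  rfl

theorem far_le {c0 c1 c2 c3 r0 r1 r2 r3 r4 np nq a0 a1 a2 a3 m0 m1 m2 m3 e th : ℕ}
    (h : far c0 c1 c2 c3 r0 r1 r2 r3 r4 np nq a0 a1 a2 a3 m0 m1 m2 m3 e th = true) :
    th ≤ ((c0 - a0 + (a0 - c0) - r0) ^ 2 + (c2 - a2 + (a2 - c2) - r2) ^ 2 +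
      3 * ((c1 - a1 + (a1 - c1) - r1) ^ 2 + (c3 - a3 + (a3 - c3) - r3) ^ 2)) ^ 2 +
      12 * ((a0 * c1 + a2 * c3 + np) - (a1 * c0 + a3 * c2 + (e + nq)) +
        ((a1 * c0 + a3 * c2 + (e + nq)) - (a0 * c1 + a2 * c3 + np)) -
        (m0 * r1 + m1 * r0 + (m2 * r3 + m3 * r2) + r4)) ^ 2 :=
  Nat.le_of_ble_eq_true h

theorem val_le {c0 c1 c2 c3 r0 r1 r2 r3 r4 np nq a0 a1 a2 a3 m0 m1 m2 m3 e th : ℕ}
    (h : val c0 c1 c2 c3 r0 r1 r2 r3 r4 np nq a0 a1 a2 a3 m0 m1 m2 m3 e th = true) :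
    ((c0 - a0 + (a0 - c0) + r0) ^ 2 + (c2 - a2 + (a2 - c2) + r2) ^ 2 +
      3 * ((c1 - a1 + (a1 - c1) + r1) ^ 2 + (c3 - a3 + (a3 - c3) + r3) ^ 2)) ^ 2 +
      12 * ((a0 * c1 + a2 * c3 + np) - (a1 * c0 + a3 * c2 + (e + nq)) +
        ((a1 * c0 + a3 * c2 + (e + nq)) - (a0 * c1 + a2 * c3 + np)) +
        (m0 * r1 + m1 * r0 + (m2 * r3 + m3 * r2) + r4)) ^ 2 ≤ th :=
  Nat.le_of_ble_eq_true h

end Far

open Far

theorem rowFar : SFar := by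
  intro c0 c1 c2 c3 c4 r0 r1 r2 r3 r4 a0 a1 a2 a3 m0 m1 m2 m3 e th y0 y1 y2 y3 t x0 x1 x2 x3 s
    ⟨d1, d2, d3, _, _, d6, d7, d8, _, _⟩ ⟨b0, b1, b2, b3, b4⟩ ⟨e0, e1, e2, e3, n0, n1, n2, n3, e4⟩
  have k0 := dif b0 e0
  have k1 := dif b1 e1
  have k2 := dif b2 e2
  have k3 := dif b3 e3
  have j0 := abs_le.1 (crs b1 e0 n0 (abs_le.2 ⟨by linarith, by linarith⟩))
  have j1 := abs_le.1 (crs b0 e1 n1 (abs_le.2 ⟨by linarith, by linarith⟩))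
  have j2 := abs_le.1 (crs b3 e2 n2 (abs_le.2 ⟨by linarith, by linarith⟩))
  have j3 := abs_le.1 (crs b2 e3 n3 (abs_le.2 ⟨by linarith, by linarith⟩))
  have j4 := abs_le.1 (le_sub_iff_add_le.2 b4)
  have j5 := abs_le.1 e4
  have k4 : |4294967296 * (s - t + y0 * x1 - y1 * x0 + y2 * x3 - y3 * x2) -
      (((a0 * c1 + a2 * c3 + (c4 + 131072 * (c0 + c2)) : ℕ) : ℝ) -
        ((a1 * c0 + a3 * c2 + (e + 131072 * (c1 + c3)) : ℕ) : ℝ))| ≤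
      ((m0 * r1 + m1 * r0 + (m2 * r3 + m3 * r2) + r4 : ℕ) : ℝ) := by
    push_cast
    rw [abs_le]
    constructor <;>
      linarith [j0.1, j0.2, j1.1, j1.2, j2.1, j2.2, j3.1, j3.2, j4.1, j4.2, j5.1, j5.2]
  rw [ff_eq]
  refine ⟨fun h => ?_, fun h => ?_⟩
  · refine le_trans (Nat.cast_le.2 (far_le h)) ?_
    rw [castF]
    exact comb (lo _ _ _ _ k0) (lo _ _ _ _ k1) (lo _ _ _ _ k2) (lo _ _ _ _ k3) (lo _ _ _ _ k4)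
  · refine le_trans ?_ (Nat.cast_le.2 (val_le h))
    rw [castF]
    exact comb (hi _ _ _ _ k0) (hi _ _ _ _ k1) (hi _ _ _ _ k2) (hi _ _ _ _ k3) (hi _ _ _ _ k4)

end Pool.Agent.MP_d97ab6_al.H32
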