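import Pool.Agent.MP_d97ab6_al.H32.Base

/-! Reduction into the fundamental domain by the cusp group of the second lattice. -/

namespace Pool.Agent.MP_d97ab6_al.H32

open Matrix Complex H91

namespace Pred3

theorem s3 : √3 * √3 = (3 : ℝ) := Real.mul_self_sqrt (by norm_num)

theorem tr (a b c d m : ℤ) (x0 x1 x2 x3 t u : ℝ) :
    pm3 0 0 0 a b c d m *ᵥ bp x0 x1 x2 x3 t u = bp (x0 + a - b / 2) (x1 + b / 2) (x2 + c - d / 2)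
      (x3 + d / 2) (tv a b c d m x0 x1 x2 x3 t) u := by
  have h := s3
  funext i
  fin_cases i <;> apply Complex.ext <;>
    simp [pm3, bp, pt, eis, om, nq, tv, Matrix.mulVec, dotProduct, Fin.sum_univ_four, pow_two]
  all_goals first
    | ring1
    | linear_combination (b ^ 2 + d ^ 2 : ℝ) / 8 * h

theorem rot {a b : ℕ} (m : ℤ) {x0 x1 x2 x3 y0 y1 y2 y3 : ℝ} (t u : ℝ)
    (h1 : om ^ a * ⟨x0, √3 * x1⟩ = ⟨y0, √3 * y1⟩) (h2 : ze ^ b * ⟨x2, √3 * x3⟩ = ⟨y2, √3 * y3⟩)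
    (h3 : y0 ^ 2 + 3 * y1 ^ 2 = x0 ^ 2 + 3 * x1 ^ 2)
    (h4 : y2 ^ 2 + 3 * y3 ^ 2 = x2 ^ 2 + 3 * x3 ^ 2) :
    pm3 0 a b 0 0 0 0 m *ᵥ bp x0 x1 x2 x3 t u = bp y0 y1 y2 y3 (t + m) u := by
  have h := s3
  funext i
  fin_cases i
  · apply Complex.ext <;>
      simp [pm3, bp, pt, eis, om, nq, Matrix.mulVec, dotProduct, Fin.sum_univ_four]
    · linear_combination (h3 + h4) / 2 + (y1 ^ 2 + y3 ^ 2 - x1 ^ 2 - x3 ^ 2) / 2 * h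
    · ring
  · simpa [pm3, bp, pt, eis, Matrix.mulVec, dotProduct, Fin.sum_univ_four] using h1
  · simpa [pm3, bp, pt, eis, Matrix.mulVec, dotProduct, Fin.sum_univ_four] using h2
  · simp [pm3, bp, pt, Matrix.mulVec, dotProduct, Fin.sum_univ_four]

/-- The hexagon. -/
def Hex (x y : ℝ) : Prop :=
  x ≤ 1 / 2 ∧ -x ≤ 1 / 2 ∧ x + 3 * y ≤ 1 ∧ x - 3 * y ≤ 1 ∧ -x + 3 * y ≤ 1 ∧ -x - 3 * y ≤ 1

theorem hex (x y : ℝ) : ∃ a b : ℤ, Hex (x + a - b / 2) (y + b / 2) := by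
  obtain ⟨b, hb⟩ : ∃ b : ℤ, |2 * y - b| ≤ 1 / 2 := ⟨_, abs_sub_round _⟩
  obtain ⟨a, ha⟩ : ∃ a : ℤ, |x + b / 2 - a| ≤ 1 / 2 := ⟨_, abs_sub_round _⟩
  obtain ⟨b1, b2⟩ := abs_le.1 hb
  obtain ⟨a1, a2⟩ := abs_le.1 ha
  by_cases c1 : (x + b / 2 - a) + 3 * (y - b / 2) ≤ 1
  · by_cases c2 : (x + b / 2 - a) - 3 * (y - b / 2) ≤ 1
    · by_cases c3 : -(x + b / 2 - a) + 3 * (y - b / 2) ≤ 1
      · by_cases c4 : -(x + b / 2 - a) - 3 * (y - b / 2) ≤ 1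
        · refine ⟨-a, -b, ?_, ?_, ?_, ?_, ?_, ?_⟩ <;> push_cast <;> linarith
        · refine ⟨-a + 1, -b + 1, ?_, ?_, ?_, ?_, ?_, ?_⟩ <;> push_cast <;> linarith
      · refine ⟨-a, -b - 1, ?_, ?_, ?_, ?_, ?_, ?_⟩ <;> push_cast <;> linarith
    · refine ⟨-a, -b + 1, ?_, ?_, ?_, ?_, ?_, ?_⟩ <;> push_cast <;> linarith
  · refine ⟨-a - 1, -b - 1, ?_, ?_, ?_, ?_, ?_, ?_⟩ <;> push_cast <;> linarith

theorem om_mul (x y : ℝ) : om * ⟨x, √3 * y⟩ = ⟨(-x - 3 * y) / 2, √3 * ((x - y) / 2)⟩ := by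
  have h := s3
  apply Complex.ext <;> simp [om]
  · linear_combination (-y / 2) * h
  · ring

theorem ze_mul (x y : ℝ) : ze * ⟨x, √3 * y⟩ = ⟨(x - 3 * y) / 2, √3 * ((x + y) / 2)⟩ := by
  have h := s3
  apply Complex.ext <;> simp [ze, om]
  · linear_combination (-y / 2) * h
  · ring

theorem ze_sq : ze ^ 2 = om := by
  have h := s3
  apply Complex.ext <;> simp [ze, om, pow_two]
  · linear_combination (-1 / 4 : ℝ) * h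
  · ring

theorem tri (x y : ℝ) (h : Hex x y) : ∃ (a : ℕ) (x' y' : ℝ),
    om ^ a * ⟨x, √3 * y⟩ = ⟨x', √3 * y'⟩ ∧ y' ≤ x' ∧ -y' ≤ x' ∧
    x' ^ 2 + 3 * y' ^ 2 = x ^ 2 + 3 * y ^ 2 ∧ Hex x' y' := by
  obtain ⟨h1, h2, h3, h4, h5, h6⟩ := h
  by_cases c : y ≤ x ∧ -y ≤ x
  · exact ⟨0, x, y, by simp, c.1, c.2, rfl, h1, h2, h3, h4, h5, h6⟩
  by_cases c' : y ≤ 0
  · have k : x + y ≤ 0 := by
      by_contra k
      exact c ⟨by linarith, by linarith⟩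
    exact ⟨1, _, _, by rw [pow_one, om_mul], by linarith, by linarith, by ring, by linarith,
      by linarith, by linarith, by linarith, by linarith, by linarith⟩
  · have k : x ≤ y := by
      by_contra k
      exact c ⟨by linarith, by linarith⟩
    exact ⟨2, _, _, by rw [pow_two, mul_assoc, om_mul, om_mul], by linarith, by linarith, by ring,
      by linarith, by linarith, by linarith, by linarith, by linarith, by linarith⟩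

theorem six (x y : ℝ) (h : Hex x y) : ∃ (a : ℕ) (x' y' : ℝ),
    ze ^ a * ⟨x, √3 * y⟩ = ⟨x', √3 * y'⟩ ∧ 0 ≤ y' ∧ y' ≤ x' ∧
    x' ^ 2 + 3 * y' ^ 2 = x ^ 2 + 3 * y ^ 2 ∧ Hex x' y' := by
  obtain ⟨a, p, q, e, k1, k2, n, h1, h2, h3, h4, h5, h6⟩ := tri x y h
  by_cases c : 0 ≤ q
  · exact ⟨2 * a, p, q, by rw [pow_mul, ze_sq, e], c, k1, n, h1, h2, h3, h4, h5, h6⟩
  · exact ⟨2 * a + 1, _, _, by rw [pow_succ', pow_mul, ze_sq, mul_assoc, e, ze_mul], by linarith,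
      by linarith, by rw [← n]; ring, by linarith, by linarith, by linarith, by linarith,
      by linarith, by linarith⟩

end Pred3

open H32.Pred3

theorem rowPred3 : SPgrp3 → SPred3 := by
  rintro ⟨hU, ⟨P, hP⟩, -⟩ x0 x1 x2 x3 t
  obtain ⟨a, b, hab⟩ := hex x0 x1
  obtain ⟨c, d, hcd⟩ := hex x2 x3
  obtain ⟨u, z0, z1, e1, p0, p1, q1, r1⟩ := tri _ _ hab
  obtain ⟨v, z2, z3, e2, p2, p3, q2, r2⟩ := six _ _ hcd
  obtain ⟨m, hm⟩ : ∃ m : ℤ, |tv a b c d 0 x0 x1 x2 x3 t - m| ≤ 1 / 2 := ⟨_, abs_sub_round _⟩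
  have m1 : (⟨_, hU 0 0 0 a b c d 0⟩ : U31) ∈ (P : Set U31) := hP ▸ ⟨_, _, _, _, _, _, _, _, rfl⟩
  have m2 : (⟨_, hU 0 u v 0 0 0 0 (-m)⟩ : U31) ∈ (P : Set U31) :=
    hP ▸ ⟨_, _, _, _, _, _, _, _, rfl⟩
  have m3 := P.mul_mem m2 m1
  rw [← SetLike.mem_coe, hP] at m3
  refine ⟨_, m3, z0, z1, z2, z3, tv a b c d 0 x0 x1 x2 x3 t + ((-m : ℤ) : ℝ),
    ⟨r1.1, p0, p1, r1.2.2.1, r1.2.2.2.1, r2.1, p2, p3, r2.2.2.1, ?_⟩, fun w => ?_⟩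
  · rwa [Int.cast_neg, ← sub_eq_add_neg]
  · rw [ap_mul, ← rot _ _ w e1 e2 q1 q2, ← tr]
    rfl

end Pool.Agent.MP_d97ab6_al.H32
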