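import Pool.Agent.MP_d97ab6_al.H32.Base

/-! Soundness of the tree checker, and gluing of boxes. -/

namespace Pool.Agent.MP_d97ab6_al.H32

namespace Tree

theorem frc_eq (n : ℕ) (k : ℕ → Bool) : frc n k = k n := rfl

theorem brec {a b x : Bool} (h : Bool.rec (motive := fun _ => Bool) a b x = true) :
    (x = false ∧ a = true) ∨ (x = true ∧ b = true) := by
  cases x
  · exact Or.inl ⟨rfl, h⟩
  · exact Or.inr ⟨rfl, h⟩

theorem band_true {x y : Bool} (h : band x y = true) : x = true ∧ y = true := by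
  rcases brec h with h | h
  · exact absurd h.2 (by simp)
  · exact h

theorem bit_of_land {nb i : ℕ} (h : Nat.beq (Nat.land nb (2 ^ i)) 0 = false) :
    nb.testBit i = true := by
  have h1 : nb &&& 2 ^ i ≠ 0 := Nat.ne_of_beq_eq_false h
  rw [Nat.and_two_pow] at h1
  cases h2 : nb.testBit i
  · rw [h2] at h1; simp at h1
  · rfl

theorem half (X M : ℝ) (c r h : ℕ) (hX : 0 ≤ X) (h1 : |X - c| + M ≤ r)
    (h2 : (r : ℝ) ≤ 2 * h + M) :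
    |X - ((c - h : ℕ) : ℝ)| ≤ h ∨ |X - ((c + h : ℕ) : ℝ)| ≤ h := by
  have h3 := le_abs_self (X - c)
  have h4 := neg_abs_le (X - c)
  rcases le_total X c with hc | hc
  · left
    rcases le_total h c with hh | hh
    · rw [Nat.cast_sub hh, abs_le]; constructor <;> linarith
    · have h5 : (c : ℝ) ≤ h := by exact_mod_cast hh
      rw [Nat.sub_eq_zero_of_le hh, abs_le]; push_cast; constructor <;> linarith
  · right
    rw [abs_le]; push_cast; constructor <;> linarith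

theorem half2 (X : ℝ) (c r : ℕ) (hX : 0 ≤ X) (h1 : |X - c| + 2 ≤ r) :
    |X - ((c - (r - 1) / 2 : ℕ) : ℝ)| + 2 ≤ (((r - 1) / 2 + 2 : ℕ) : ℝ) ∨
      |X - ((c + (r - 1) / 2 : ℕ) : ℝ)| + 2 ≤ (((r - 1) / 2 + 2 : ℕ) : ℝ) := by
  have h2 : r ≤ 2 * ((r - 1) / 2) + 2 := by omega
  have h3 : (r : ℝ) ≤ 2 * (((r - 1) / 2 : ℕ) : ℝ) + 2 := by exact_mod_cast h2
  have e : (((r - 1) / 2 + 2 : ℕ) : ℝ) = (((r - 1) / 2 : ℕ) : ℝ) + 2 := by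
    rw [Nat.cast_add]; norm_num
  rw [e]
  rcases half X 2 c r _ hX h1 h3 with h | h
  · left; linarith
  · right; linarith

theorem half4 (X : ℝ) (c r : ℕ) (hX : 0 ≤ X) (h1 : |X - c| + 655360 ≤ r) :
    |X - ((c - (r - 655359) / 2 : ℕ) : ℝ)| + 655360 ≤ (((r - 655359) / 2 + 655360 : ℕ) : ℝ) ∨
      |X - ((c + (r - 655359) / 2 : ℕ) : ℝ)| + 655360 ≤
        (((r - 655359) / 2 + 655360 : ℕ) : ℝ) := by
  have h2 : r ≤ 2 * ((r - 655359) / 2) + 655360 := by omega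
  have h3 : (r : ℝ) ≤ 2 * (((r - 655359) / 2 : ℕ) : ℝ) + 655360 := by exact_mod_cast h2
  have e : (((r - 655359) / 2 + 655360 : ℕ) : ℝ) = (((r - 655359) / 2 : ℕ) : ℝ) + 655360 := by
    rw [Nat.cast_add]; norm_num
  rw [e]
  rcases half X 655360 c r _ hX h1 h3 with h | h
  · left; linarith
  · right; linarith

variable {x0 x1 x2 x3 s : ℝ} {c0 c1 c2 c3 c4 r0 r1 r2 r3 r4 : ℕ}

theorem cut0 (hD : Dom x0 x1 x2 x3 s) (h : InB c0 c1 c2 c3 c4 r0 r1 r2 r3 r4 x0 x1 x2 x3 s) :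
    InB (c0 - (r0 - 1) / 2) c1 c2 c3 c4 ((r0 - 1) / 2 + 2) r1 r2 r3 r4 x0 x1 x2 x3 s ∨
      InB (c0 + (r0 - 1) / 2) c1 c2 c3 c4 ((r0 - 1) / 2 + 2) r1 r2 r3 r4 x0 x1 x2 x3 s := by
  obtain ⟨d0, d1, d2, -⟩ := hD
  obtain ⟨h0, h1⟩ := h
  exact (half2 _ c0 r0 (by linarith) h0).imp (fun k => ⟨k, h1⟩) fun k => ⟨k, h1⟩

theorem cut1 (hD : Dom x0 x1 x2 x3 s) (h : InB c0 c1 c2 c3 c4 r0 r1 r2 r3 r4 x0 x1 x2 x3 s) :
    InB c0 (c1 - (r1 - 1) / 2) c2 c3 c4 r0 ((r1 - 1) / 2 + 2) r2 r3 r4 x0 x1 x2 x3 s ∨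
      InB c0 (c1 + (r1 - 1) / 2) c2 c3 c4 r0 ((r1 - 1) / 2 + 2) r2 r3 r4 x0 x1 x2 x3 s := by
  obtain ⟨d0, d1, d2, -⟩ := hD
  obtain ⟨h0, h1, h2⟩ := h
  exact (half2 _ c1 r1 (by linarith) h1).imp (fun k => ⟨h0, k, h2⟩) fun k => ⟨h0, k, h2⟩

theorem cut2 (hD : Dom x0 x1 x2 x3 s) (h : InB c0 c1 c2 c3 c4 r0 r1 r2 r3 r4 x0 x1 x2 x3 s) :
    InB c0 c1 (c2 - (r2 - 1) / 2) c3 c4 r0 r1 ((r2 - 1) / 2 + 2) r3 r4 x0 x1 x2 x3 s ∨
      InB c0 c1 (c2 + (r2 - 1) / 2) c3 c4 r0 r1 ((r2 - 1) / 2 + 2) r3 r4 x0 x1 x2 x3 s := by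
  obtain ⟨-, -, -, -, -, -, d1, d2, -⟩ := hD
  obtain ⟨h0, h1, h2, h3⟩ := h
  exact (half2 _ c2 r2 (by linarith) h2).imp (fun k => ⟨h0, h1, k, h3⟩) fun k => ⟨h0, h1, k, h3⟩

theorem cut3 (hD : Dom x0 x1 x2 x3 s) (h : InB c0 c1 c2 c3 c4 r0 r1 r2 r3 r4 x0 x1 x2 x3 s) :
    InB c0 c1 c2 (c3 - (r3 - 1) / 2) c4 r0 r1 r2 ((r3 - 1) / 2 + 2) r4 x0 x1 x2 x3 s ∨
      InB c0 c1 c2 (c3 + (r3 - 1) / 2) c4 r0 r1 r2 ((r3 - 1) / 2 + 2) r4 x0 x1 x2 x3 s := by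
  obtain ⟨-, -, -, -, -, -, d1, d2, -⟩ := hD
  obtain ⟨h0, h1, h2, h3, h4⟩ := h
  exact (half2 _ c3 r3 (by linarith) h3).imp (fun k => ⟨h0, h1, h2, k, h4⟩)
    fun k => ⟨h0, h1, h2, k, h4⟩

theorem cut4 (hD : Dom x0 x1 x2 x3 s) (h : InB c0 c1 c2 c3 c4 r0 r1 r2 r3 r4 x0 x1 x2 x3 s) :
    InB c0 c1 c2 c3 (c4 - (r4 - 655359) / 2) r0 r1 r2 r3 ((r4 - 655359) / 2 + 655360)
        x0 x1 x2 x3 s ∨
      InB c0 c1 c2 c3 (c4 + (r4 - 655359) / 2) r0 r1 r2 r3 ((r4 - 655359) / 2 + 655360)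
        x0 x1 x2 x3 s := by
  obtain ⟨-, -, -, -, -, -, -, -, -, d⟩ := hD
  obtain ⟨h0, h1, h2, h3, h4⟩ := h
  have d1 := (abs_le.1 d).1
  exact (half4 _ c4 r4 (by linarith) h4).imp (fun k => ⟨h0, h1, h2, h3, k⟩)
    fun k => ⟨h0, h1, h2, h3, k⟩

theorem not_out (hD : Dom x0 x1 x2 x3 s) (h : InB c0 c1 c2 c3 c4 r0 r1 r2 r3 r4 x0 x1 x2 x3 s) :
    out c0 c1 c2 c3 r0 r1 r2 r3 ≠ true := by
  obtain ⟨d0, d1, d2, d3, d4, d5, d6, d7, d8, -⟩ := hD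
  obtain ⟨h0, h1, h2, h3, -⟩ := h
  have a0 := le_abs_self (65536 * (x0 + 2) - c0)
  have b0 := neg_abs_le (65536 * (x0 + 2) - c0)
  have a1 := le_abs_self (65536 * (x1 + 2) - c1)
  have b1 := neg_abs_le (65536 * (x1 + 2) - c1)
  have a2 := le_abs_self (65536 * (x2 + 2) - c2)
  have b2 := neg_abs_le (65536 * (x2 + 2) - c2)
  have a3 := le_abs_self (65536 * (x3 + 2) - c3)
  have b3 := neg_abs_le (65536 * (x3 + 2) - c3)
  intro ho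
  simp only [out, Bool.or_eq_true, Nat.ble_eq] at ho
  rcases ho with ((((ho | ho) | ho) | ho) | ho) | ho <;>
    (have ho' := (Nat.cast_le (α := ℝ)).2 ho; push_cast at ho'; linarith)

theorem shr (n : ℕ) : Nat.shiftRight n 1 = n / 2 := by
  change n >>> 1 = n / 2
  rw [Nat.shiftRight_one]

section Split

variable {ih : KT} {op n nb cd l r : ℕ} {U : RL}

theorem sp0_eq : sp0 ih c0 c1 c2 c3 c4 r0 r1 r2 r3 r4 U nb l r =
    band (ih (c0 - (r0 - 1) / 2) c1 c2 c3 c4 ((r0 - 1) / 2 + 2) r1 r2 r3 r4 U nb l)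
      (ih (c0 + (r0 - 1) / 2) c1 c2 c3 c4 ((r0 - 1) / 2 + 2) r1 r2 r3 r4 U nb r) := by
  rw [← shr]; rfl

theorem sp1_eq : sp1 ih c0 c1 c2 c3 c4 r0 r1 r2 r3 r4 U nb l r =
    band (ih c0 (c1 - (r1 - 1) / 2) c2 c3 c4 r0 ((r1 - 1) / 2 + 2) r2 r3 r4 U nb l)
      (ih c0 (c1 + (r1 - 1) / 2) c2 c3 c4 r0 ((r1 - 1) / 2 + 2) r2 r3 r4 U nb r) := by
  rw [← shr]; rfl

theorem sp2_eq : sp2 ih c0 c1 c2 c3 c4 r0 r1 r2 r3 r4 U nb l r =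
    band (ih c0 c1 (c2 - (r2 - 1) / 2) c3 c4 r0 r1 ((r2 - 1) / 2 + 2) r3 r4 U nb l)
      (ih c0 c1 (c2 + (r2 - 1) / 2) c3 c4 r0 r1 ((r2 - 1) / 2 + 2) r3 r4 U nb r) := by
  rw [← shr]; rfl

theorem sp3_eq : sp3 ih c0 c1 c2 c3 c4 r0 r1 r2 r3 r4 U nb l r =
    band (ih c0 c1 c2 (c3 - (r3 - 1) / 2) c4 r0 r1 r2 ((r3 - 1) / 2 + 2) r4 U nb l)
      (ih c0 c1 c2 (c3 + (r3 - 1) / 2) c4 r0 r1 r2 ((r3 - 1) / 2 + 2) r4 U nb r) := by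
  rw [← shr]; rfl

theorem sp4_eq : sp4 ih c0 c1 c2 c3 c4 r0 r1 r2 r3 r4 U nb l r =
    band (ih c0 c1 c2 c3 (c4 - (r4 - 655359) / 2) r0 r1 r2 r3 ((r4 - 655359) / 2 + 655360) U nb l)
      (ih c0 c1 c2 c3 (c4 + (r4 - 655359) / 2) r0 r1 r2 r3 ((r4 - 655359) / 2 + 655360)
        U nb r) := by
  unfold sp4
  rw [frc_eq, frc_eq, frc_eq, frc_eq, shr]
  rfl

/-- After a split the point lies in an accepted half. -/
theorem spl_sound (hD : Dom x0 x1 x2 x3 s) (h : InB c0 c1 c2 c3 c4 r0 r1 r2 r3 r4 x0 x1 x2 x3 s)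
    (hs : spl ih op n c0 c1 c2 c3 c4 r0 r1 r2 r3 r4 nb U cd = true) :
    ∃ d0 d1 d2 d3 d4 q0 q1 q2 q3 q4 cd', InB d0 d1 d2 d3 d4 q0 q1 q2 q3 q4 x0 x1 x2 x3 s ∧
      ih d0 d1 d2 d3 d4 q0 q1 q2 q3 q4 U nb cd' = true := by
  unfold spl at hs
  rw [frc_eq, frc_eq] at hs
  rcases brec hs with ⟨-, k⟩ | ⟨-, k⟩
  · rcases brec k with ⟨-, k⟩ | ⟨-, k⟩
    · rcases brec k with ⟨-, k⟩ | ⟨-, k⟩
      · rw [sp4_eq] at k
        rcases cut4 hD h with h' | h'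
        · exact ⟨_, _, _, _, _, _, _, _, _, _, _, h', (band_true k).1⟩
        · exact ⟨_, _, _, _, _, _, _, _, _, _, _, h', (band_true k).2⟩
      · rw [sp3_eq] at k
        rcases cut3 hD h with h' | h'
        · exact ⟨_, _, _, _, _, _, _, _, _, _, _, h', (band_true k).1⟩
        · exact ⟨_, _, _, _, _, _, _, _, _, _, _, h', (band_true k).2⟩
    · rw [sp2_eq] at k
      rcases cut2 hD h with h' | h'
      · exact ⟨_, _, _, _, _, _, _, _, _, _, _, h', (band_true k).1⟩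
      · exact ⟨_, _, _, _, _, _, _, _, _, _, _, h', (band_true k).2⟩
  · rcases brec k with ⟨-, k⟩ | ⟨-, k⟩
    · rw [sp1_eq] at k
      rcases cut1 hD h with h' | h'
      · exact ⟨_, _, _, _, _, _, _, _, _, _, _, h', (band_true k).1⟩
      · exact ⟨_, _, _, _, _, _, _, _, _, _, _, h', (band_true k).2⟩
    · rw [sp0_eq] at k
      rcases cut0 hD h with h' | h'
      · exact ⟨_, _, _, _, _, _, _, _, _, _, _, h', (band_true k).1⟩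
      · exact ⟨_, _, _, _, _, _, _, _, _, _, _, h', (band_true k).2⟩

end Split

theorem exp_eq {b i j : ℕ} (h : b = 2 ^ i) (h' : b = 2 ^ j) : j = i :=
  Nat.pow_right_injective (le_refl 2) (h'.symm.trans h)

theorem le_exp {b i n : ℕ} (h : b = 2 ^ i) (h' : Nat.ble b (Nat.pow 2 n) = true) : i ≤ n := by
  have k : b ≤ 2 ^ n := Nat.le_of_ble_eq_true h'
  rw [h] at k
  exact (Nat.pow_le_pow_iff_right (by norm_num)).1 k

variable {close : ℕ → Prop}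

theorem allf_sound (h : InB c0 c1 c2 c3 c4 r0 r1 r2 r3 r4 x0 x1 x2 x3 s) {nb : ℕ} {R : ℕ → Prop}
    (hR : ∀ j, nb.testBit j = true → R j) (U : RL) (hU : UOK close x0 x1 x2 x3 s U)
    (ha : allf c0 c1 c2 c3 r0 r1 r2 r3 r4 (c4 + 131072 * (c0 + c2)) (131072 * (c1 + c3)) nb U
      = true) : UG close R U := by
  induction U with
  | nil => trivial
  | cons a0 a1 a2 a3 m0 m1 m2 m3 e th b tl ih =>
    obtain ⟨⟨i, hb, hf⟩, hU⟩ := hU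
    rcases brec ha with ⟨k1, k⟩ | ⟨-, k⟩
    · refine ⟨fun j hj _ => ?_, ih hU k⟩
      rw [exp_eq hb hj]
      rw [hb] at k1
      exact hR i (bit_of_land k1)
    · rcases brec k with ⟨-, k⟩ | ⟨k1, k⟩
      · exact absurd k (by simp)
      · refine ⟨fun j hj hc => ?_, ih hU k⟩
        rw [exp_eq hb hj] at hc
        exact absurd hc (hf _ _ _ _ _ _ _ _ _ _ h k1)

theorem flt_sound (h : InB c0 c1 c2 c3 c4 r0 r1 r2 r3 r4 x0 x1 x2 x3 s) {nb : ℕ}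
    (k : RL → ℕ → Bool) (U : RL) : ∀ (acc : RL) (cd : ℕ), UOK close x0 x1 x2 x3 s U →
    UOK close x0 x1 x2 x3 s acc →
    flt c0 c1 c2 c3 r0 r1 r2 r3 r4 (c4 + 131072 * (c0 + c2)) (131072 * (c1 + c3)) nb k U acc cd
      = true →
    ∃ acc' cd', k acc' cd' = true ∧ UOK close x0 x1 x2 x3 s acc' ∧ ∀ R : ℕ → Prop,
      (∀ j, nb.testBit j = true → R j) → UG close R acc' → UG close R U ∧ UG close R acc := by
  induction U with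
  | nil => exact fun acc cd _ ha hk => ⟨acc, cd, hk, ha, fun _ _ hG => ⟨trivial, hG⟩⟩
  | cons a0 a1 a2 a3 m0 m1 m2 m3 e th b tl ih =>
    intro acc cd hU ha hk
    obtain ⟨⟨i, hb, hf⟩, hU⟩ := hU
    rcases brec hk with ⟨k1, k2⟩ | ⟨-, k2⟩
    · obtain ⟨acc', cd', e1, e2, e3⟩ := ih acc cd hU ha k2
      refine ⟨acc', cd', e1, e2, fun R hR hG => ⟨⟨fun j hj _ => ?_, (e3 R hR hG).1⟩,
        (e3 R hR hG).2⟩⟩
      rw [exp_eq hb hj]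
      rw [hb] at k1
      exact hR i (bit_of_land k1)
    · rcases brec k2 with ⟨-, k2⟩ | ⟨-, k2⟩
      · rcases brec k2 with ⟨-, k2⟩ | ⟨k1, k2⟩
        · exact absurd k2 (by simp)
        · obtain ⟨acc', cd', e1, e2, e3⟩ := ih acc _ hU ha k2
          refine ⟨acc', cd', e1, e2, fun R hR hG => ⟨⟨fun j hj hc => ?_, (e3 R hR hG).1⟩,
            (e3 R hR hG).2⟩⟩
          rw [exp_eq hb hj] at hc
          exact absurd hc (hf _ _ _ _ _ _ _ _ _ _ h k1)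
      · obtain ⟨acc', cd', e1, e2, e3⟩ :=
          ih (RL.cons a0 a1 a2 a3 m0 m1 m2 m3 e th b acc) _ hU ⟨⟨i, hb, hf⟩, ha⟩ k2
        exact ⟨acc', cd', e1, e2, fun R hR hG => ⟨⟨(e3 R hR hG).2.1, (e3 R hR hG).1⟩,
          (e3 R hR hG).2.2⟩⟩

/-- The hub step. -/
theorem doH_sound (h : InB c0 c1 c2 c3 c4 r0 r1 r2 r3 r4 x0 x1 x2 x3 s) {valid : ℕ → Prop}
    {A : ℕ → ℕ → Prop} {ih : KT} {U : RL} {nb cd : ℕ} {tb : HT}
    (ht : HOK valid A x0 x1 x2 x3 s tb)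
    (hd : doH tb ih c0 c1 c2 c3 c4 r0 r1 r2 r3 r4 U nb cd = true) :
    ∃ i k cd', valid i ∧ (∀ j, k.testBit j = true → A i j) ∧
      (nb.testBit i = true ∨ (nb = 0 ∧ i < 270)) ∧
      ih c0 c1 c2 c3 c4 r0 r1 r2 r3 r4 U (nb ||| k) cd' = true := by
  unfold doH at hd
  generalize Nat.land (Nat.shiftRight cd 3) 2047 = n at hd
  induction tb generalizing n with
  | lf a0 a1 a2 a3 m0 m1 m2 m3 e th b k =>
    obtain ⟨i, hb, hv, hk⟩ := ht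
    obtain ⟨k1, k2⟩ := band_true hd
    obtain ⟨k2, k3⟩ := band_true k2
    refine ⟨i, k, _, hv _ _ _ _ _ _ _ _ _ _ h k2, hk, ?_, k3⟩
    rcases brec k1 with ⟨k4, -⟩ | ⟨-, k4⟩
    · rw [hb] at k4
      exact Or.inl (bit_of_land k4)
    · obtain ⟨k5, k6⟩ := band_true k4
      refine Or.inr ⟨Nat.eq_of_beq_eq_true k5, ?_⟩
      exact Nat.lt_succ_of_le (le_exp (n := 269) hb k6)
  | nd l r il ir =>
    rcases brec hd with ⟨-, k⟩ | ⟨-, k⟩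
    · exact ir ht.2 _ k
    · exact il ht.1 _ k

theorem main {valid G : ℕ → Prop} {A : ℕ → ℕ → Prop}
    (h1 : ∀ i j, valid i → A i j → G i → G j) (h2 : ∀ i j, A i j → A j i)
    (hD : Dom x0 x1 x2 x3 s) {tb : HT} (ht : HOK valid A x0 x1 x2 x3 s tb) (f : ℕ) :
    ∀ (c0 c1 c2 c3 c4 r0 r1 r2 r3 r4 : ℕ) (U : RL) (nb cd : ℕ),
      InB c0 c1 c2 c3 c4 r0 r1 r2 r3 r4 x0 x1 x2 x3 s → UOK close x0 x1 x2 x3 s U →
      chk tb f c0 c1 c2 c3 c4 r0 r1 r2 r3 r4 U nb cd = true → ∀ Q : Prop,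
      (∀ j, nb.testBit j = true → RQ valid G Q j) → (nb ≠ 0 → ∃ i < 270, valid i) →
      (∃ i < 270, valid i) ∧ ∃ Q', (∀ j, nb.testBit j = true → RQ valid G Q' j) ∧
        UG close (RQ valid G Q') U := by
  induction f with
  | zero => exact fun _ _ _ _ _ _ _ _ _ _ _ _ _ _ _ hc => absurd hc (by simp [chk])
  | succ f ih =>
    intro c0 c1 c2 c3 c4 r0 r1 r2 r3 r4 U nb cd h hU hc Q hQ hV
    rcases brec hc with ⟨-, k⟩ | ⟨-, k⟩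
    · rcases brec k with ⟨-, k⟩ | ⟨-, k⟩
      · rcases brec k with ⟨-, k⟩ | ⟨-, k⟩
        · exact absurd k (not_out hD h)
        · rcases brec k with ⟨k1, k⟩ | ⟨-, k⟩
          · exact ⟨hV (Nat.ne_of_beq_eq_false k1), Q, hQ, allf_sound h hQ U hU k⟩
          · exact absurd k (by simp)
      · obtain ⟨i, k, cd', hi, hk, hb, hc'⟩ := doH_sound (ih := chk tb f) h ht k
        have fin : ∀ Q₁ : Prop, (G i ↔ Q₁) → (∀ j, nb.testBit j = true → RQ valid G Q₁ j) →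
            (∃ i < 270, valid i) → (∃ i < 270, valid i) ∧ ∃ Q',
              (∀ j, nb.testBit j = true → RQ valid G Q' j) ∧ UG close (RQ valid G Q') U := by
          intro Q₁ e hQ₁ hV₁
          obtain ⟨-, Q', e1, e2⟩ := ih _ _ _ _ _ _ _ _ _ _ U _ _ h hU hc' Q₁ (fun j hj => by
            rw [Nat.testBit_or, Bool.or_eq_true] at hj
            rcases hj with hj | hj
            · exact hQ₁ j hj
            · exact ⟨fun q => h1 i j hi (hk j hj) (e.2 q),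
                fun v g => e.1 (h1 j i v (h2 i j (hk j hj)) g)⟩) fun _ => hV₁
          exact ⟨hV₁, Q', fun j hj => e1 j (by rw [Nat.testBit_or, hj]; rfl), e2⟩
        rcases hb with hb | ⟨hb, hlt⟩
        · refine fin Q ⟨(hQ i hb).2 hi, (hQ i hb).1⟩ hQ (hV ?_)
          rintro rfl
          simp at hb
        · refine fin (G i) Iff.rfl (fun j hj => ?_) ⟨i, hlt, hi⟩
          rw [hb] at hj
          simp at hj
    · obtain ⟨acc, cd', e1, e2, e3⟩ := flt_sound (close := close) h _ U RL.nil _ hU trivial k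
      obtain ⟨d0, d1, d2, d3, d4, q0, q1, q2, q3, q4, cd'', e4, e5⟩ :=
        spl_sound (ih := chk tb f) hD h e1
      obtain ⟨v, Q', e6, e7⟩ := ih _ _ _ _ _ _ _ _ _ _ acc nb _ e4 e2 e5 Q hQ hV
      exact ⟨v, Q', e6, (e3 _ e6 e7).1⟩

end Tree

theorem rowTree : STree := by
  intro valid close G A x0 x1 x2 x3 s h1 h2 hD tb ht U hU f c0 c1 c2 c3 c4 r0 r1 r2 r3 r4 cd h hc
  obtain ⟨v, Q, -, e⟩ := Tree.main (close := close) h1 h2 hD ht f _ _ _ _ _ _ _ _ _ _ U 0 cd h hU hc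
    True (fun j hj => by simp at hj) fun h0 => absurd rfl h0
  exact ⟨v, Q, e⟩

namespace Cv

variable {tb : HT} {U : RL} {c0 c1 c2 c3 c4 r0 r1 r2 r3 r4 : ℕ}

theorem leaf (f cd : ℕ) (h : chk tb f c0 c1 c2 c3 c4 r0 r1 r2 r3 r4 U 0 cd = true) :
    Cv tb U c0 c1 c2 c3 c4 r0 r1 r2 r3 r4 :=
  fun _ _ _ _ _ _ hB => ⟨f, _, _, _, _, _, _, _, _, _, _, cd, hB, h⟩

theorem s0 (l s r : ℕ) (hl : l = c0 - (r0 - 1) / 2) (hs : s = (r0 - 1) / 2 + 2)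
    (hr : r = c0 + (r0 - 1) / 2) (h1 : Cv tb U l c1 c2 c3 c4 s r1 r2 r3 r4)
    (h2 : Cv tb U r c1 c2 c3 c4 s r1 r2 r3 r4) : Cv tb U c0 c1 c2 c3 c4 r0 r1 r2 r3 r4 := by
  subst hl hs hr
  exact fun _ _ _ _ _ hD hB => (Tree.cut0 hD hB).elim (h1 _ _ _ _ _ hD) (h2 _ _ _ _ _ hD)

theorem s1 (l s r : ℕ) (hl : l = c1 - (r1 - 1) / 2) (hs : s = (r1 - 1) / 2 + 2)
    (hr : r = c1 + (r1 - 1) / 2) (h1 : Cv tb U c0 l c2 c3 c4 r0 s r2 r3 r4)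
    (h2 : Cv tb U c0 r c2 c3 c4 r0 s r2 r3 r4) : Cv tb U c0 c1 c2 c3 c4 r0 r1 r2 r3 r4 := by
  subst hl hs hr
  exact fun _ _ _ _ _ hD hB => (Tree.cut1 hD hB).elim (h1 _ _ _ _ _ hD) (h2 _ _ _ _ _ hD)

theorem s2 (l s r : ℕ) (hl : l = c2 - (r2 - 1) / 2) (hs : s = (r2 - 1) / 2 + 2)
    (hr : r = c2 + (r2 - 1) / 2) (h1 : Cv tb U c0 c1 l c3 c4 r0 r1 s r3 r4)
    (h2 : Cv tb U c0 c1 r c3 c4 r0 r1 s r3 r4) : Cv tb U c0 c1 c2 c3 c4 r0 r1 r2 r3 r4 := by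
  subst hl hs hr
  exact fun _ _ _ _ _ hD hB => (Tree.cut2 hD hB).elim (h1 _ _ _ _ _ hD) (h2 _ _ _ _ _ hD)

theorem s3 (l s r : ℕ) (hl : l = c3 - (r3 - 1) / 2) (hs : s = (r3 - 1) / 2 + 2)
    (hr : r = c3 + (r3 - 1) / 2) (h1 : Cv tb U c0 c1 c2 l c4 r0 r1 r2 s r4)
    (h2 : Cv tb U c0 c1 c2 r c4 r0 r1 r2 s r4) : Cv tb U c0 c1 c2 c3 c4 r0 r1 r2 r3 r4 := by
  subst hl hs hr
  exact fun _ _ _ _ _ hD hB => (Tree.cut3 hD hB).elim (h1 _ _ _ _ _ hD) (h2 _ _ _ _ _ hD)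

theorem s4 (l s r : ℕ) (hl : l = c4 - (r4 - 655359) / 2) (hs : s = (r4 - 655359) / 2 + 655360)
    (hr : r = c4 + (r4 - 655359) / 2) (h1 : Cv tb U c0 c1 c2 c3 l r0 r1 r2 r3 s)
    (h2 : Cv tb U c0 c1 c2 c3 r r0 r1 r2 r3 s) : Cv tb U c0 c1 c2 c3 c4 r0 r1 r2 r3 r4 := by
  subst hl hs hr
  exact fun _ _ _ _ _ hD hB => (Tree.cut4 hD hB).elim (h1 _ _ _ _ _ hD) (h2 _ _ _ _ _ hD)

end Cv

end Pool.Agent.MP_d97ab6_al.H32
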