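import Pool.Agent.MP_d97ab6_al.H32.CertB0
import Pool.Agent.MP_d97ab6_al.H32.CertB1
import Pool.Agent.MP_d97ab6_al.H32.CertB2
import Pool.Agent.MP_d97ab6_al.H32.CertB3
import Pool.Agent.MP_d97ab6_al.H32.CertB4
import Pool.Agent.MP_d97ab6_al.H32.CertB5
import Pool.Agent.MP_d97ab6_al.H32.CertE
import Pool.Agent.MP_d97ab6_al.H32.Tree

/-! The boxes cover the root box; the hub table is correct. -/

namespace Pool.Agent.MP_d97ab6_al.H32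

theorem top : Cv tab U0 147456 131072 147456 139296 137438953472 16386 16450 16386 8226 2148139008 :=
 (Cv.s4 136365211648 1074397184 138512695296 rfl rfl rfl
 (Cv.s1 122848 8226 139296 rfl rfl rfl
 (Cv.s4 135828340736 537526272 136902082560 rfl rfl rfl
 (Cv.s0 139264 8194 155648 rfl rfl rfl
 (Cv.s3 135184 4114 143408 rfl rfl rfl
 (Cv.leaf _ _ c0)
 (Cv.leaf _ _ c1))
 (Cv.s2 139264 8194 155648 rfl rfl rfl
 (Cv.leaf _ _ c2)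
 (Cv.s1 118736 4114 126960 rfl rfl rfl
 (Cv.s4 135559905280 269090816 136096776192 rfl rfl rfl
 (Cv.leaf _ _ c3)
 (Cv.leaf _ _ c4))
 (Cv.s4 135559905280 269090816 136096776192 rfl rfl rfl
 (Cv.leaf _ _ c5)
 (Cv.leaf _ _ c6)))))
 (Cv.s0 139264 8194 155648 rfl rfl rfl
 (Cv.s4 136633647104 269090816 137170518016 rfl rfl rfl
 (Cv.s2 139264 8194 155648 rfl rfl rfl
 (Cv.leaf _ _ c7)
 (Cv.s3 135184 4114 143408 rfl rfl rfl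
 (Cv.leaf _ _ c8)
 (Cv.leaf _ _ c9)))
 (Cv.s2 139264 8194 155648 rfl rfl rfl
 (Cv.leaf _ _ c10)
 (Cv.s3 135184 4114 143408 rfl rfl rfl
 (Cv.leaf _ _ c11)
 (Cv.leaf _ _ c12))))
 (Cv.s3 135184 4114 143408 rfl rfl rfl
 (Cv.s4 136633647104 269090816 137170518016 rfl rfl rfl
 (Cv.leaf _ _ c13)
 (Cv.leaf _ _ c14))
 (Cv.s2 139264 8194 155648 rfl rfl rfl
 (Cv.leaf _ _ c15)
 (Cv.s1 118736 4114 126960 rfl rfl rfl
 (Cv.leaf _ _ c16)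
 (Cv.s4 136633647104 269090816 137170518016 rfl rfl rfl
 (Cv.leaf _ _ c17)
 (Cv.leaf _ _ c18)))))))
 (Cv.s4 135828340736 537526272 136902082560 rfl rfl rfl
 (Cv.s2 139264 8194 155648 rfl rfl rfl
 (Cv.s0 139264 8194 155648 rfl rfl rfl
 (Cv.leaf _ _ c19)
 (Cv.leaf _ _ c20))
 (Cv.s1 135184 4114 143408 rfl rfl rfl
 (Cv.s0 139264 8194 155648 rfl rfl rfl
 (Cv.leaf _ _ c21)
 (Cv.leaf _ _ c22))
 (Cv.s0 139264 8194 155648 rfl rfl rfl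
 (Cv.leaf _ _ c23)
 (Cv.s3 135184 4114 143408 rfl rfl rfl
 (Cv.leaf _ _ c24)
 (Cv.leaf _ _ c25)))))
 (Cv.s0 139264 8194 155648 rfl rfl rfl
 (Cv.s4 136633647104 269090816 137170518016 rfl rfl rfl
 (Cv.s2 139264 8194 155648 rfl rfl rfl
 (Cv.leaf _ _ c26)
 (Cv.s1 135184 4114 143408 rfl rfl rfl
 (Cv.s3 135184 4114 143408 rfl rfl rfl
 (Cv.leaf _ _ c27)
 (Cv.leaf _ _ c28))
 (Cv.leaf _ _ c29)))
 (Cv.s2 139264 8194 155648 rfl rfl rfl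
 (Cv.leaf _ _ c30)
 (Cv.s1 135184 4114 143408 rfl rfl rfl
 (Cv.leaf _ _ c31)
 (Cv.leaf _ _ c32))))
 (Cv.s2 139264 8194 155648 rfl rfl rfl
 (Cv.s3 135184 4114 143408 rfl rfl rfl
 (Cv.leaf _ _ c33)
 (Cv.leaf _ _ c34))
 (Cv.s1 135184 4114 143408 rfl rfl rfl
 (Cv.s4 136633647104 269090816 137170518016 rfl rfl rfl
 (Cv.leaf _ _ c35)
 (Cv.leaf _ _ c36))
 (Cv.s3 135184 4114 143408 rfl rfl rfl
 (Cv.s4 136633647104 269090816 137170518016 rfl rfl rfl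
 (Cv.leaf _ _ c37)
 (Cv.leaf _ _ c38))
 (Cv.leaf _ _ c39)))))))
 (Cv.s1 122848 8226 139296 rfl rfl rfl
 (Cv.s0 139264 8194 155648 rfl rfl rfl
 (Cv.s4 137975824384 537526272 139049566208 rfl rfl rfl
 (Cv.s3 135184 4114 143408 rfl rfl rfl
 (Cv.s4 137707388928 269090816 138244259840 rfl rfl rfl
 (Cv.leaf _ _ c40)
 (Cv.leaf _ _ c41))
 (Cv.s4 137707388928 269090816 138244259840 rfl rfl rfl
 (Cv.s2 139264 8194 155648 rfl rfl rfl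
 (Cv.leaf _ _ c42)
 (Cv.leaf _ _ c43))
 (Cv.leaf _ _ c44)))
 (Cv.s2 139264 8194 155648 rfl rfl rfl
 (Cv.leaf _ _ c45)
 (Cv.s1 118736 4114 126960 rfl rfl rfl
 (Cv.leaf _ _ c46)
 (Cv.s3 135184 4114 143408 rfl rfl rfl
 (Cv.leaf _ _ c47)
 (Cv.leaf _ _ c48)))))
 (Cv.s4 137975824384 537526272 139049566208 rfl rfl rfl
 (Cv.s1 118736 4114 126960 rfl rfl rfl
 (Cv.s2 139264 8194 155648 rfl rfl rfl
 (Cv.leaf _ _ c49)
 (Cv.s3 135184 4114 143408 rfl rfl rfl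
 (Cv.leaf _ _ c50)
 (Cv.leaf _ _ c51)))
 (Cv.s3 135184 4114 143408 rfl rfl rfl
 (Cv.leaf _ _ c52)
 (Cv.leaf _ _ c53)))
 (Cv.s2 139264 8194 155648 rfl rfl rfl
 (Cv.leaf _ _ c54)
 (Cv.s1 118736 4114 126960 rfl rfl rfl
 (Cv.s4 138781130752 269090816 139318001664 rfl rfl rfl
 (Cv.leaf _ _ c55)
 (Cv.leaf _ _ c56))
 (Cv.s3 135184 4114 143408 rfl rfl rfl
 (Cv.leaf _ _ c57)
 (Cv.leaf _ _ c58))))))
 (Cv.s0 139264 8194 155648 rfl rfl rfl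
 (Cv.s4 137975824384 537526272 139049566208 rfl rfl rfl
 (Cv.s2 139264 8194 155648 rfl rfl rfl
 (Cv.leaf _ _ c59)
 (Cv.s4 137707388928 269090816 138244259840 rfl rfl rfl
 (Cv.s3 135184 4114 143408 rfl rfl rfl
 (Cv.leaf _ _ c60)
 (Cv.leaf _ _ c61))
 (Cv.s3 135184 4114 143408 rfl rfl rfl
 (Cv.leaf _ _ c62)
 (Cv.leaf _ _ c63))))
 (Cv.s2 139264 8194 155648 rfl rfl rfl
 (Cv.leaf _ _ c64)
 (Cv.s1 135184 4114 143408 rfl rfl rfl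
 (Cv.s3 135184 4114 143408 rfl rfl rfl
 (Cv.leaf _ _ c65)
 (Cv.s4 138781130752 269090816 139318001664 rfl rfl rfl
 (Cv.leaf _ _ c66)
 (Cv.leaf _ _ c67)))
 (Cv.leaf _ _ c68))))
 (Cv.s2 139264 8194 155648 rfl rfl rfl
 (Cv.s4 137975824384 537526272 139049566208 rfl rfl rfl
 (Cv.leaf _ _ c69)
 (Cv.leaf _ _ c70))
 (Cv.s4 137975824384 537526272 139049566208 rfl rfl rfl
 (Cv.s1 135184 4114 143408 rfl rfl rfl
 (Cv.s4 137707388928 269090816 138244259840 rfl rfl rfl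
 (Cv.leaf _ _ c71)
 (Cv.s0 151552 4098 159744 rfl rfl rfl
 (Cv.leaf _ _ c72)
 (Cv.leaf _ _ c73)))
 (Cv.s4 137707388928 269090816 138244259840 rfl rfl rfl
 (Cv.s3 135184 4114 143408 rfl rfl rfl
 (Cv.leaf _ _ c74)
 (Cv.leaf _ _ c75))
 (Cv.s3 135184 4114 143408 rfl rfl rfl
 (Cv.leaf _ _ c76)
 (Cv.leaf _ _ c77))))
 (Cv.s1 135184 4114 143408 rfl rfl rfl
 (Cv.s4 138781130752 269090816 139318001664 rfl rfl rfl
 (Cv.leaf _ _ c78)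
 (Cv.s3 135184 4114 143408 rfl rfl rfl
 (Cv.leaf _ _ c79)
 (Cv.leaf _ _ c80)))
 (Cv.s3 135184 4114 143408 rfl rfl rfl
 (Cv.leaf _ _ c81)
 (Cv.s4 138781130752 269090816 139318001664 rfl rfl rfl
 (Cv.s4 138646913024 134873088 138915348480 rfl rfl rfl
 (Cv.leaf _ _ c82)
 (Cv.leaf _ _ c83))
 (Cv.s1 141352 2058 145464 rfl rfl rfl
 (Cv.leaf _ _ c84)
 (Cv.leaf _ _ c85))))))))))

theorem hnd {l r : HT} {a b : ET} (h1 : hok CG CX PC l a = true) (h2 : hok CG CX PC r b = true) :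
    hok CG CX PC (.nd l r) (.nd a b) = true := by
  change band (hok CG CX PC l a) (hok CG CX PC r b) = true
  rw [h1, h2]
  rfl

theorem hAll : hok CG CX PC tab (ET.nd (ET.nd (ET.nd (ET.nd Eb0 Eb1) (ET.nd Eb2 Eb3)) (ET.nd (ET.nd Eb4 Eb5) (ET.nd Eb6 Eb7))) (ET.nd (ET.nd (ET.nd Eb8 Eb9) (ET.nd Eb10 Eb11)) (ET.nd (ET.nd Eb12 Eb13) (ET.nd Eb14 Eb15)))) = true :=
  (hnd (hnd (hnd (hnd hb0 hb1) (hnd hb2 hb3)) (hnd (hnd hb4 hb5) (hnd hb6 hb7))) (hnd (hnd (hnd hb8 hb9) (hnd hb10 hb11)) (hnd (hnd hb12 hb13) (hnd hb14 hb15))))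

end Pool.Agent.MP_d97ab6_al.H32
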