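import Pool.Agent.MP_d97ab6_al.H32.Base

/-! The adjoint trace field of the second lattice, upper bound. -/

namespace Pool.Agent.MP_d97ab6_al.H32

open Matrix Complex H91
open scoped ComplexConjugate

namespace TrUp3

theorem r2 : √2 * √2 = 2 := Real.mul_self_sqrt (by norm_num)

theorem r3 : √3 * √3 = 3 := Real.mul_self_sqrt (by norm_num)

theorem r6 : √6 = √3 * √2 := by
  rw [← Real.sqrt_mul (by norm_num)]
  norm_num

theorem h1 : om * om + om + 1 = 0 := by
  refine Complex.ext ?_ ?_ <;> simp [om] <;> linarith [r3]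

theorem h2 : sr * sr = -2 := by
  refine Complex.ext ?_ ?_ <;> simp [sr]

theorem c1 : conj om = -1 - om := by
  refine Complex.ext ?_ ?_ <;> simp [om]
  norm_num

theorem c2 : conj sr = -sr := by
  refine Complex.ext ?_ ?_ <;> simp [sr]

/-- The field as a subring. -/
def K : Subring ℂ where
  carrier := {z | InK3 z}
  zero_mem' := ⟨0, 0, 0, 0, by simp⟩
  one_mem' := ⟨1, 0, 0, 0, by simp⟩
  add_mem' := by
    rintro _ _ ⟨a, b, c, d, rfl⟩ ⟨a', b', c', d', rfl⟩
    exact ⟨a + a', b + b', c + c', d + d', by push_cast; ring⟩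
  neg_mem' := by
    rintro _ ⟨a, b, c, d, rfl⟩
    exact ⟨-a, -b, -c, -d, by push_cast; ring⟩
  mul_mem' := by
    rintro _ _ ⟨a, b, c, d, rfl⟩ ⟨a', b', c', d', rfl⟩
    refine ⟨a * a' - b * b' - 2 * (c * c' - d * d'),
      a * b' + b * a' - b * b' - 2 * (c * d' + d * c' - d * d'), a * c' - b * d' + c * a' - d * b',
      a * d' + b * c' - b * d' + c * b' + d * a' - d * b', ?_⟩
    push_cast
    linear_combination (b * b' - 2 * d * d' + (b * d' + d * b') * sr : ℂ) * h1 +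
      ((c + d * om) * (c' + d' * om) : ℂ) * h2

theorem K_conj {z : ℂ} (hz : z ∈ K) : conj z ∈ K := by
  obtain ⟨a, b, c, d, rfl⟩ := hz
  refine ⟨a - b, -b, d - c, d, ?_⟩
  simp only [map_add, map_mul, map_ratCast, c1, c2]
  push_cast
  ring

theorem K_mm {A B : M4} (hA : ∀ i j, A i j ∈ K) (hB : ∀ i j, B i j ∈ K) (i j : Fin 4) :
    (A * B) i j ∈ K := by
  rw [Matrix.mul_apply]
  exact sum_mem fun k _ => mul_mem (hA i k) (hB k j)

theorem K_J (i j : Fin 4) : J i j ∈ K := by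
  fin_cases i <;> fin_cases j <;> simp [H91.J]

theorem K_nsq {z : ℂ} (hz : z ∈ K) : ∃ p q : ℚ, normSq z = p + q * √6 := by
  obtain ⟨a, b, c, d, rfl⟩ := hz
  refine ⟨a ^ 2 - a * b + b ^ 2 + 2 * (c ^ 2 - c * d + d ^ 2), b * c - a * d, ?_⟩
  rw [normSq_apply, r6]
  simp only [om, sr, add_re, add_im, mul_re, mul_im, ratCast_re, ratCast_im]
  push_cast
  linear_combination ((b : ℝ) ^ 2 / 4 + d ^ 2 / 2) * r3 +
    ((c - d / 2) ^ 2 + d ^ 2 * (√3 * √3) / 4 : ℝ) * r2

theorem K_om : om ∈ K := ⟨0, 1, 0, 0, by simp⟩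

theorem K_pm (k u v : ℕ) (a b c d m : ℤ) (i j : Fin 4) : pm3 k u v a b c d m i j ∈ K := by
  have z : ze ∈ K := add_mem (one_mem _) K_om
  have e : ∀ a b, eis a b ∈ K := fun a b =>
    add_mem (intCast_mem _ _) (mul_mem (intCast_mem _ _) K_om)
  have o := one_mem K
  have n := zero_mem K
  have w : (m : ℂ) - ((a : ℂ) + b) / 3 ∈ K := ⟨m - (a + b) / 3, 0, 0, 0, by simp⟩
  refine mul_mem (pow_mem z k) ?_
  fin_cases i <;> fin_cases j
  exacts [o, mul_mem (neg_mem (K_conj (e a b))) (pow_mem K_om u),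
    mul_mem (neg_mem (K_conj (e c d))) (pow_mem z v), add_mem (mul_mem (intCast_mem _ _) K_om)
      (mul_mem (add_mem o (mul_mem (ofNat_mem _ _) K_om)) w),
    n, pow_mem K_om u, n, e a b, n, n, pow_mem z v, e c d, n, n, n, o]

theorem cl {x : ℝ} (hx : x ∈ Subfield.closure {√2}) : ∃ p q : ℚ, x = p + q * √2 := by
  induction hx using Subfield.closure_induction with
  | mem x h => exact ⟨0, 1, by simpa using h⟩
  | one => exact ⟨1, 0, by simp⟩
  | add x y _ _ h h' =>
    obtain ⟨p, q, rfl⟩ := h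
    obtain ⟨p', q', rfl⟩ := h'
    exact ⟨p + p', q + q', by push_cast; ring⟩
  | neg x _ h =>
    obtain ⟨p, q, rfl⟩ := h
    exact ⟨-p, -q, by push_cast; ring⟩
  | mul x y _ _ h h' =>
    obtain ⟨p, q, rfl⟩ := h
    obtain ⟨p', q', rfl⟩ := h'
    exact ⟨p * p' + 2 * q * q', p * q' + q * p', by
      push_cast
      linear_combination (q * q' : ℝ) * r2⟩
  | inv x _ h =>
    obtain ⟨p, q, rfl⟩ := h
    by_cases hq : q = 0
    · exact ⟨p⁻¹, 0, by simp [hq]⟩
    have a := ((irrational_sqrt_two.ratCast_mul hq).ratCast_add p).ne_zero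
    have b := ((irrational_sqrt_two.ratCast_mul hq).ratCast_sub p).ne_zero
    have e : (p + q * √2 : ℝ) * (p - q * √2) = p ^ 2 - 2 * q ^ 2 := by
      linear_combination (-q ^ 2 : ℝ) * r2
    refine ⟨p / (p ^ 2 - 2 * q ^ 2), -q / (p ^ 2 - 2 * q ^ 2), ?_⟩
    push_cast
    rw [← e]
    field_simp
    ring

theorem six : √6 ∉ Subfield.closure {√2} := fun h => by
  obtain ⟨p, q, e⟩ := cl h
  by_cases hq : q = 0
  · exact (by norm_num : Irrational √6) ⟨p, by simp [e, hq]⟩
  by_cases hp : p = 0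
  · rw [hp, r6, Rat.cast_zero, zero_add] at e
    exact (by norm_num : Irrational √3) ⟨q, (mul_right_cancel₀ (by positivity) e).symm⟩
  refine irrational_sqrt_two.ratCast_mul (mul_ne_zero hp hq) ⟨3 - p ^ 2 / 2 - q ^ 2, ?_⟩
  have h6 : √6 * √6 = 6 := Real.mul_self_sqrt (by norm_num)
  rw [e] at h6
  push_cast
  linear_combination (-1 / 2 : ℝ) * h6 + (q ^ 2 / 2 : ℝ) * r2

end TrUp3

open TrUp3 in
theorem rowTrUp3 : STrUp3 := by
  refine ⟨⟨{ carrier := {g | ∀ i j, g.1 i j ∈ K}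
             one_mem' := fun i j => ?_
             mul_mem' := fun ha hb => K_mm ha hb
             inv_mem' := fun {a} ha => K_mm (K_mm K_J fun i j => K_conj (ha j i)) K_J },
    fun _ => Iff.rfl⟩, fun G hG => ?_, K_pm, six⟩
  · rw [U31.val_one, Matrix.one_apply]
    split_ifs
    exacts [one_mem _, zero_mem _]
  · refine Subfield.closure_le.2 ?_
    rintro x ⟨γ, ⟨c, g, hg, e⟩, rfl⟩
    have hγ : (γ.1.1)ᴴ * H91.J * γ.1.1 = H91.J := γ.2
    have h1 : (g.1)ᴴ * H91.J * g.1 = H91.J := g.2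
    rw [e, conjTranspose_smul, Matrix.smul_mul, Matrix.smul_mul, Matrix.mul_smul, hγ,
      smul_smul] at h1
    have h2 : star c * c = 1 := by simpa [H91.J] using congrFun (congrFun h1 1) 1
    have h3 : normSq c = 1 := by
      have : ((normSq c : ℝ) : ℂ) = 1 := by rw [normSq_eq_conj_mul_self]; exact h2
      exact_mod_cast this
    obtain ⟨p, q, h4⟩ := K_nsq (sum_mem (t := Finset.univ) fun i _ => hG g hg i i)
    have h5 : normSq (Matrix.trace γ.1.1) = p + q * √6 := by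
      rw [← h4]
      change _ = normSq (Matrix.trace g.1)
      rw [e, Matrix.trace_smul, smul_eq_mul, map_mul, h3, one_mul]
    rw [h5]
    exact sub_mem (add_mem (SubfieldClass.ratCast_mem _ _) (mul_mem (SubfieldClass.ratCast_mem _ _)
      (Subfield.subset_closure rfl))) (one_mem _)

end Pool.Agent.MP_d97ab6_al.H32
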