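import Pool.Agent.MP_d97ab6_al.H32.Sem
import Pool.Agent.MP_d97ab6_al.H32.Top
import Pool.Agent.MP_d97ab6_al.H32.CertA
import Pool.Agent.MP_d97ab6_al.H32.CertM
import Pool.Agent.MP_d97ab6_al.H32.Cls
import Pool.Agent.MP_d97ab6_al.H32.Desc
import Pool.Agent.MP_d97ab6_al.H32.Pred3
import Pool.Agent.MP_d97ab6_al.H32.Disc3
import Pool.Agent.MP_d97ab6_al.H32.Cov3
import Pool.Agent.MP_d97ab6_al.H32.TrUp3
import Pool.Agent.MP_d97ab6_al.H91.Bridge
import Pool.Agent.MP_d97ab6_al.H70.NG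
import Pool.Agent.MP_d97ab6_al.H58.TrGen

/-! The second lattice. -/

namespace Pool.Agent.MP_d97ab6_al.H32

open Matrix Complex H91 H32.Tree
open scoped ComplexConjugate

attribute [local irreducible] CG CX PC RT

theorem hC : ∀ a < 40, ClsOK CG CX a := fun a ha =>
  rowCls rowPos rowRep CG CX a (allN_true clsAll a ha)

theorem gM40 : gM (cg CG 40) = 1 := by
  have := Rep.eqN_sound (Rep.nat 1) (Rep.nat 3) (Rep.m_gN _) Rep.m_id id40 (by norm_num)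
  simp only [Nat.cast_one, one_smul, Nat.cast_ofNat] at this
  exact smul_right_injective _ (by norm_num : (3 : ℂ) ≠ 0) this

theorem isU40' : IsU (gM (cg CG 40)) := gM40 ▸ IsU.one

theorem gU40 : gU (cg CG 40) = 1 := by
  rw [gU_eq isU40']
  exact Subtype.ext gM40

theorem pU_one : pU 0 0 0 0 0 0 0 0 = 1 := Subtype.ext (by
  change pm3 0 0 0 0 0 0 0 0 = 1
  rw [Pgrp3.pm3_sc]
  simp)

theorem hU_rot {k u v : ℕ} (hk : k < 64) (hu : u < 4) (hv : v < 8) :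
    hU CG (4366548992 + k + 64 * u + 256 * v) = pU 0 u v 0 0 0 0 0 * gU (cg CG k) := by
  have e : ∀ x s n, fl x s n = x / s % n := fun _ _ _ => rfl
  have e' : ∀ x n, Nat.mod x n = x % n := fun _ _ => rfl
  rw [hU, pcU, e, e, e, e, e, e, e, e']
  congr 2 <;> first | omega | (congr 1; omega)

theorem hU_id : hU CG 4366549032 = 1 := by
  have := hU_rot (k := 40) (u := 0) (v := 0) (by norm_num) (by norm_num) (by norm_num)
  rw [pU_one, gU40, one_mul] at this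
  exact this

theorem hU_gen {k : ℕ} (hk : k < 64) : hU CG (4366548992 + k) = gU (cg CG k) := by
  have := hU_rot (k := k) (u := 0) (v := 0) hk (by norm_num) (by norm_num)
  rw [pU_one, one_mul] at this
  exact this

theorem inv_gen {k cw cp : ℕ} (hk : k < 4) (hw : Nat.mod cw 64 < 4)
    (h : E5 CG (hN CG (4366548992 + k)) 4366549032 cw cp = true) : (gU (cg CG k))⁻¹ ∈ T3 CG := by
  have e : Nat.mod (4366548992 + k) 64 = k := by
    change (4366548992 + k) % 64 = k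
    omega
  have := e5U h (by rw [e]; exact (hC k (by omega)).1) isU40' (hC _ (by omega)).1
  rw [hU_id, hU_gen (by omega), mul_assoc] at this
  rw [inv_eq_of_mul_eq_one_right this.symm]
  exact Or.inr ⟨_, hw, _, pcU_mem _ _, _, pcU_mem _ _, rfl⟩

theorem T_left {p t : U31} (hp : p ∈ P3) (ht : t ∈ T3 CG) : p * t ∈ T3 CG := by
  rcases ht with ht | ⟨k, hk, q, hq, q', hq', rfl⟩
  · exact Or.inl (P3.mul_mem hp ht)
  · exact Or.inr ⟨k, hk, _, P3.mul_mem hp hq, _, hq', by simp only [mul_assoc]⟩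

theorem T_right {p t : U31} (hp : p ∈ P3) (ht : t ∈ T3 CG) : t * p ∈ T3 CG := by
  rcases ht with ht | ⟨k, hk, q, hq, q', hq', rfl⟩
  · exact Or.inl (P3.mul_mem ht hp)
  · exact Or.inr ⟨k, hk, _, hq, _, P3.mul_mem hq' hp, by simp only [mul_assoc]⟩

theorem T_inv {t : U31} (ht : t ∈ T3 CG) : t⁻¹ ∈ T3 CG := by
  rcases ht with ht | ⟨k, hk, q, hq, q', hq', rfl⟩
  · exact Or.inl (P3.inv_mem ht)
  · rw [_root_.mul_inv_rev, _root_.mul_inv_rev]
    refine T_left (P3.inv_mem hq') (T_right (P3.inv_mem hq) ?_)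
    obtain rfl | rfl | rfl | rfl : k = 0 ∨ k = 1 ∨ k = 2 ∨ k = 3 := by omega
    exacts [inv_gen hk (by decide) inv0, inv_gen hk (by decide) inv1, inv_gen hk (by decide) inv2,
      inv_gen hk (by decide) inv3]

theorem fixP {p : U31} (hp : p ∈ P3) : ∃ e : ℂ, normSq e = 1 ∧ ap p e0 = e • e0 :=
  rowPgrp3.2.2.2.2.2 p (mem_P3.1 hp)

theorem rr_right (h : U31) {p : U31} (hp : p ∈ P3) (y : V4) : rr (h * p) y = rr h y := by
  obtain ⟨e, h1, h2⟩ := fixP hp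
  rw [rr, rr, ap_mul, h2, ap_smul, Desc.smul_l, map_mul, normSq_conj, h1, one_mul]

theorem dep_eq (g : U31) {p q : U31} (hp : p ∈ P3) (hq : q ∈ P3) :
    normSq ((p * g * q).1 3 0) = normSq (g.1 3 0) := by
  obtain ⟨e, h1, h2⟩ := fixP (P3.inv_mem hp)
  obtain ⟨f, h3, h4⟩ := fixP hq
  have := Desc.c_inv p⁻¹ (g * q)
  rw [inv_inv, ← mul_assoc] at this
  rw [this, h2, ap_mul, h4, ap_smul, Desc.smul_l, Desc.smul_r, ← Desc.c_eq, map_mul, map_mul,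
    normSq_conj, h1, h3, one_mul, one_mul]

theorem dep_gen {k : ℕ} (hk : k < 4) :
    5 ≤ normSq ((gU (cg CG k)).1 3 0) ∧ normSq ((gU (cg CG k)).1 3 0) ≤ 10 := by
  obtain ⟨hg, y0, y1, y2, y3, t, D, h1, -, -, -, -, -, -, -, -, h2⟩ := hC k (by omega)
  rw [gU_eq hg, rowPos.2.1 _ _ _ _ _ _ _ h1]
  exact h2 hk

theorem tok : TOK P3 (T3 CG) 5 where
  fix := fun _ => fixP
  sub := fun _ => Or.inl
  left := fun _ hp _ => T_left hp
  right := fun _ hp _ => T_right hp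
  inv := fun _ => T_inv
  dep := by
    rintro t (ht | ⟨k, hk, q, hq, q', hq', rfl⟩)
    · exact Or.inl ht
    · exact Or.inr (by rw [dep_eq _ hq hq']; exact (dep_gen hk).1)

theorem rot_gen {k u v : ℕ} (hk : k < 4) (hu : u < 3) (hv : v < 6) :
    ∃ w, (w = 0 ∨ 2 ≤ k ∧ w ≤ 2) ∧ ∃ a b c d m, ∃ q ∈ P3,
      pU 0 u v 0 0 0 0 0 * gU (cg CG k) = pU 0 w 0 a b c d m * gU (cg CG k) * q := by
  have h : rchk k u v = true := allN_true (allN_true (allN_true rAll k hk) u hu) v hv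
  rw [rchk] at h
  generalize par RT (36 * k + 12 * u + 2 * v) = ci at h
  generalize par RT (36 * k + 12 * u + 2 * v + 1) = cp at h
  simp only [rchk1, Bool.and_eq_true, Bool.or_eq_true, Nat.beq_eq, Nat.ble_eq] at h
  obtain ⟨⟨⟨h1, h2⟩, h3⟩, h4⟩ := h
  have e : Nat.mod (4366548992 + k + 64 * u + 256 * v) 64 = k := by
    change (4366548992 + k + 64 * u + 256 * v) % 64 = k
    omega
  have := e5U h1 (by rw [h2]; exact (hC k (by omega)).1) (by rw [e]; exact (hC k (by omega)).1)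
    isU40'
  rw [hU_id, mul_one, hU_rot (by omega) (by omega) (by omega), hU, pcU, h2, h3] at this
  exact ⟨_, h4, _, _, _, _, _, _, pcU_mem _ _, this⟩

theorem decomp {t : U31} (ht : t ∈ T3 CG) (hn : t ∉ P3) : ∃ k < 4, ∃ w, (w = 0 ∨ 2 ≤ k ∧ w ≤ 2) ∧
    ∃ a b c d m, ∃ q ∈ P3, t = pU 0 w 0 a b c d m * gU (cg CG k) * q := by
  rcases ht with ht | ⟨k, hk, p, hp, p', hp', rfl⟩
  · exact absurd ht hn
  obtain ⟨j, u, v, a, b, c, d, m, e⟩ := mem_P3.1 hp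
  obtain ⟨w, hw, a', b', c', d', m', q, hq, e'⟩ := rot_gen hk (Nat.mod_lt u (by norm_num : 0 < 3))
    (Nat.mod_lt v (by norm_num : 0 < 6))
  obtain ⟨a2, b2, c2, d2, m2, e2⟩ := rowPgrp3.2.2.2.1 a b c d m w 0 a' b' c' d' m'
  have e1 : p = pU 0 0 0 a b c d m * pU 0 (u % 3) (v % 6) 0 0 0 0 0 * pU j 0 0 0 0 0 0 0 :=
    Subtype.ext (e.trans (rowPgrp3.2.2.1 j u v a b c d m))
  have e3 : pU j 0 0 0 0 0 0 0 * gU (cg CG k) = gU (cg CG k) * pU j 0 0 0 0 0 0 0 :=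
    Subtype.ext (rowPgrp3.2.2.2.2.1 j _)
  have e4 : pU 0 0 0 a b c d m * pU 0 w 0 a' b' c' d' m' = pU 0 w 0 a2 b2 c2 d2 m2 :=
    Subtype.ext e2
  refine ⟨k, hk, w, hw, a2, b2, c2, d2, m2, q * pU j 0 0 0 0 0 0 0 * p',
    P3.mul_mem (P3.mul_mem hq (pU_mem ..)) hp', ?_⟩
  calc p * gU (cg CG k) * p' = pU 0 0 0 a b c d m * (pU 0 (u % 3) (v % 6) 0 0 0 0 0 *
        gU (cg CG k)) * pU j 0 0 0 0 0 0 0 * p' := by
        rw [e1, mul_assoc _ _ (gU _), e3]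
        simp only [mul_assoc]
    _ = _ := by
        rw [e', ← e4]
        simp only [mul_assoc]

theorem listed {t : U31} (ht : t ∈ T3 CG) (hn : t ∉ P3) {x0 x1 x2 x3 s : ℝ} (hD : Dom x0 x1 x2 x3 s)
    (hc : 998 / 1000 * rr t (bp x0 x1 x2 x3 s 0) < 1) :
    ∃ i < 270, ∃ q ∈ P3, t = hU CG (par PC i) * q := by
  obtain ⟨k, hk, w, hw, a, b, c, d, m, q, hq, rfl⟩ := decomp ht hn
  rw [rr_right _ hq] at hc
  have hk' := hC k (by omega)
  have hen : en CX PC k w = true := by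
    obtain rfl | rfl | rfl | rfl : k = 0 ∨ k = 1 ∨ k = 2 ∨ k = 3 := by omega
    · obtain rfl : w = 0 := by omega
      exact en00
    · obtain rfl : w = 0 := by omega
      exact en10
    · obtain rfl | rfl | rfl : w = 0 ∨ w = 1 ∨ w = 2 := by omega
      exacts [en20, en21, en22]
    · obtain rfl | rfl | rfl : w = 0 ∨ w = 1 ∨ w = 2 := by omega
      exacts [en30, en31, en32]
  have hb := allN_true (allN_true repAll k hk) w (by omega)
  simp only [Bool.and_eq_true, Bool.or_eq_true, Nat.ble_eq, repB, decide_eq_true_eq] at hb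
  obtain ⟨b0, b1, b2, b3, b4⟩ := hb.resolve_left (by omega)
  obtain ⟨hg, y0, y1, y2, y3, t, D, h1, p0, p1, p2, p3, p4, -, -, -, h2⟩ := hk'
  obtain ⟨e1, e2, e3⟩ := rowMk.1 (2 * w) (by omega)
  have hp := rowPos.2.2.2 _ (pU 0 w 0 a b c d m) _ _ _ _ _ _ w 0 a b c d m _ _ 1 0 h1 rfl
    ((rowMk.2.1 w).trans e1) (by simp [eis])
  have hc' := hc
  rw [gU_eq hg, rowPos.1 _ _ _ _ _ _ _ _ _ _ _ _ hp] at hc'
  obtain ⟨q0, q1⟩ := Mk.rot p0 p1 e2 e3
  have b0' : |(((2 * za (2 * w) - zb (2 * w)) * cx CX k 0 - 3 * zb (2 * w) * cx CX k 1 : ℤ) : ℝ)| ≤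
    1100000000000 := by exact_mod_cast b0
  have b1' : |((zb (2 * w) * cx CX k 0 + (2 * za (2 * w) - zb (2 * w)) * cx CX k 1 : ℤ) : ℝ)| ≤
    600000000000 := by exact_mod_cast b1
  have b4' : |(cx CX k 4 : ℝ)| ≤ 500000000000 := by exact_mod_cast b4
  rw [Apx, b2] at p2
  rw [Apx, b3] at p3
  rw [Apx] at p4
  rw [abs_le] at *
  obtain ⟨r1, r2, r3, r4, r5, r6, r7, r8, r9, r10⟩ := rowRange a b c d m _ _ _ _ _ D _ _ _ _ _ hD
    (abs_le.2 ⟨by linarith [q0.1, b0'.1], by linarith [q0.2, b0'.2]⟩)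
    (abs_le.2 ⟨by linarith [q1.1, b1'.1], by linarith [q1.2, b1'.2]⟩)
    (by simp only [ro0, abs_le]; push_cast at p2 ⊢; constructor <;> linarith [p2.1, p2.2])
    (by simp only [ro1, abs_le]; push_cast at p3 ⊢; constructor <;> linarith [p3.1, p3.2])
    (abs_le.2 ⟨by linarith [p4.1, b4'.1], by linarith [p4.2, b4'.2]⟩) (h2 hk).1 hc'
  obtain ⟨i, hi, e⟩ := en_sound (hC k (by omega)) hk (by omega) hen r1 r2 r3 r4 r5 r6 r7 r8 r9 r10 hD hc
  exact ⟨i, hi, q, hq, by rw [e]⟩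

theorem tree {x0 x1 x2 x3 s : ℝ} (hD : Dom x0 x1 x2 x3 s) (Gd : U31 → Prop)
    (tr : ∀ h h', rr h (bp x0 x1 x2 x3 s 0) ≤ 998 / 1000 → h⁻¹ * h' ∈ T3 CG → Gd h → Gd h') :
    (∃ i < 270, rr (hU CG (par PC i)) (bp x0 x1 x2 x3 s 0) ≤ 998 / 1000) ∧ ∃ Q : Prop, ∀ i < 270,
      998 / 1000 * rr (hU CG (par PC i)) (bp x0 x1 x2 x3 s 0) < 1 →
      (Q → Gd (hU CG (par PC i))) ∧
        (rr (hU CG (par PC i)) (bp x0 x1 x2 x3 s 0) ≤ 998 / 1000 → Gd (hU CG (par PC i)) → Q) := by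
  obtain ⟨f, d0, d1, d2, d3, d4, q0, q1, q2, q3, q4, cd, hB, hc⟩ := top _ _ _ _ _ hD (root_in hD)
  obtain ⟨u1, u2, -⟩ := uok_sound hC hD U0 0 uok0
  obtain ⟨h1, Q, h2⟩ := rowTree _ _ (fun i => Gd (hU CG (par PC i))) _ x0 x1 x2 x3 s
    (fun i j => tr _ _) (fun i j h => by simpa using T_inv h) hD tab (hok_sound hC hD _ _ hAll) U0 u1
    f d0 d1 d2 d3 d4 q0 q1 q2 q3 q4 cd hB hc
  exact ⟨h1, Q, fun i hi => u2 _ _ h2 i (Nat.zero_le i) hi⟩

theorem lc {x0 x1 x2 x3 s : ℝ} (hD : Dom x0 x1 x2 x3 s) :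
    LC P3 (T3 CG) (998 / 1000) (bp x0 x1 x2 x3 s 0) := by
  intro Gd hP tr a ha b hb na nb va cb ga
  obtain ⟨-, Q, h⟩ := tree hD Gd tr
  obtain ⟨i, hi, p, hp, rfl⟩ := listed ha na hD (by linarith)
  obtain ⟨j, hj, q, hq, rfl⟩ := listed hb nb hD cb
  rw [rr_right _ hp] at va
  rw [rr_right _ hq] at cb
  have g1 := hP _ _ (P3.inv_mem hp) ga
  rw [mul_inv_cancel_right] at g1
  exact hP _ _ hq ((h j hj cb).1 ((h i hi (by linarith)).2 va g1))

noncomputable def G3 : Subgroup U31 := Subgroup.closure (T3 CG)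

theorem P_sub : P3set ⊆ G3 := fun _ hp => Subgroup.subset_closure (Or.inl (mem_P3.2 hp))

theorem lattice : IsLattice (lift G3) := by
  have hd := rowDesc P3 (T3 CG) (998 / 1000) 5 (by norm_num) (by norm_num) (by norm_num) tok
    fun x0 x1 x2 x3 t => by
      obtain ⟨p, hp, y0, y1, y2, y3, s, hD, e⟩ := rowPred3 rowPgrp3 x0 x1 x2 x3 t
      exact ⟨p, mem_P3.2 hp, by rw [e]; exact lc hD⟩
  refine rowBridge (lift G3) {g | Sieg3 (g.1.1 *ᵥ pt 0 0 0 0 0 2)}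
    (rowDisc3 G3 fun g hg => (hd g hg).imp_left mem_P3.1) (fun μ _ => rowVol3 μ)
    (rowCov3 (rowPred3 rowPgrp3) G3 P_sub fun x0 x1 x2 x3 s hD => ?_)
  obtain ⟨⟨i, hi, h⟩, -⟩ := tree hD (fun _ => True) fun _ _ _ _ _ => trivial
  have hk := (uok_sound hC hD U0 0 uok0).2.2 i (Nat.zero_le i) hi
  have e : hU CG (par PC i) = pcU 0 (par PC i) * gU (cg CG (Nat.mod (par PC i) 64)) * 1 :=
    (mul_one _).symm
  refine ⟨_, Subgroup.subset_closure (Or.inr ⟨_, hk, _, pcU_mem _ _, _, P3.one_mem, e⟩), h, ?_⟩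
  rw [e, dep_eq _ (pcU_mem _ _) P3.one_mem]
  exact (dep_gen hk).2

theorem K_gM (g : ℕ) (i j : Fin 4) : InK3 (gM g i j) := by
  have h : ∀ n, InK3 (1 / 3 * gz g n) := fun n =>
    ⟨((dg g n : ℚ) - 64) / 3, ((dg g (n + 7) : ℚ) - 64) / 3, ((dg g (n + 14) : ℚ) - 64) / 3,
      ((dg g (n + 21) : ℚ) - 64) / 3, by
        simp only [gz, eis]
        push_cast
        ring⟩
  fin_cases i <;> fin_cases j <;> exact h _

theorem up : adField (lift G3) ≤ Subfield.closure {√6} := by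
  obtain ⟨⟨Q, hQ⟩, h1, h2, -⟩ := rowTrUp3
  have hP : ∀ p ∈ P3, p ∈ Q := fun p hp => by
    obtain ⟨k, u, v, a, b, c, d, m, e⟩ := mem_P3.1 hp
    exact (hQ p).2 fun i j => e ▸ h2 k u v a b c d m i j
  refine h1 G3 fun g hg => (hQ g).1 ((Subgroup.closure_le Q).2 ?_ hg)
  rintro t (ht | ⟨k, hk, p, hp, q, hq, rfl⟩)
  · exact hP t ht
  · refine Q.mul_mem (Q.mul_mem (hP p hp) ((hQ _).2 ?_)) (hP q hq)
    rw [gU_eq (hC k (by omega)).1]
    exact K_gM _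

theorem col (i : Fin 4) : (gU (cg CG 0)).1 i 0 = 1 / 3 * gz (cg CG 0) (112 * i) := by
  rw [gU_eq (hC 0 (by norm_num)).1]
  fin_cases i <;> rfl

theorem main3 : ∃ Γ : Subgroup SU31, IsLattice Γ ∧ ¬ IsArith Γ ∧
    adField Γ = Subfield.closure {√6} ∧ ∀ (g : SU31) (Δ : Subgroup SU31),
      Subgroup.Commensurable (Γ.map (MulAut.conj g).toMonoidHom) Δ → √6 ∈ adField Δ := by
  have d0 := dg0
  have d1 := dg1
  simp only [List.forall_mem_cons, List.not_mem_nil, IsEmpty.forall_iff, implies_true,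
    and_true] at d0 d1
  obtain ⟨hT, hL⟩ := rowUni G3 ⟨pU 0 0 0 0 0 0 0 1, P_sub (mem_P3.1 (pU_mem ..)), rfl⟩
    (gU (cg CG 0)) (Subgroup.subset_closure (Or.inr ⟨0, by norm_num, 1, P3.one_mem, 1, P3.one_mem,
      by simp⟩)) (by rw [col]; simp [gz, eis, d0]) (by rw [col]; simp [gz, eis, d0])
    (by rw [col]; simp [gz, eis, d0])
  have e : √3 * (√3 * normSq ((gU (cg CG 0)).1 3 0)) = (9 : ℤ) + (3 : ℤ) * √(6 : ℕ) := by
    have : (gU (cg CG 0)).1 3 0 = ⟨-1 / 2 - √3 * √2 / 2, √3 / 2 + √2 / 2⟩ := by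
      rw [col]
      refine Complex.ext ?_ ?_ <;> simp [gz, eis, d0, d1, om, sr] <;> ring
    rw [this, normSq_mk, Nat.cast_ofNat, TrUp3.r6, ← mul_assoc, TrUp3.r3]
    push_cast
    linear_combination (3 / 4 + 3 / 4 * (√2 * √2)) * TrUp3.r3 + 3 * TrUp3.r2
  have hI : Irrational √(6 : ℕ) := irrational_sqrt_natCast_iff.2 (by decide +kernel)
  have hTr := fun g Δ => rowTrgen _ _ 9 3 6 (by norm_num) (by norm_num) e (lift G3) hT hL g Δ
  simp only [Nat.cast_ofNat] at hTr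
  refine ⟨lift G3, lattice, rowNAgen _ _ 9 3 6 hI (by norm_num) (by norm_num) e _ hT hL,
    le_antisymm up (Subfield.closure_le.2 ?_), hTr⟩
  rintro _ rfl
  refine hTr 1 _ ?_
  rw [map_one]
  have : Subgroup.map (MulEquiv.toMonoidHom (1 : MulAut SU31)) (lift G3) = lift G3 :=
    Subgroup.map_id _
  rw [this]

end Pool.Agent.MP_d97ab6_al.H32
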