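import Pool.Agent.MP_d97ab6_al.H32.Ex

/-! Fixed point enclosures of translated positions. -/

namespace Pool.Agent.MP_d97ab6_al.H32

open Complex

namespace Mk

theorem fz_true {x : ℤ} {k : ℕ → Bool} (h : fz x k = true) : ∃ n : ℕ, x = n ∧ k n = true := by
  cases x with
  | ofNat n => exact ⟨n, rfl, h⟩
  | negSucc n => exact absurd h Bool.false_ne_true

theorem dv {N D q : ℤ} (h : N / D = q) (hD : 0 < D) : (D : ℝ) * q ≤ N ∧ (N : ℝ) ≤ D * q + D := by
  subst h
  exact ⟨by exact_mod_cast Int.mul_ediv_self_le hD.ne',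
    by exact_mod_cast (Int.lt_mul_ediv_self_add hD).le⟩

theorem mb {s x S X : ℝ} (h : |s| ≤ S) (h' : |x| ≤ X) : -(S * X) ≤ s * x ∧ s * x ≤ S * X :=
  abs_le.1 (abs_mul s x ▸ mul_le_mul h h' (abs_nonneg _) ((abs_nonneg _).trans h))

theorem cast {a : ℤ} {n : ℕ} (h : |a| ≤ n) : |(a : ℝ)| ≤ n := by exact_mod_cast h

theorem two {a b n : ℝ} (h : |a| ≤ n) (h' : |b| ≤ n) : |2 * a - b| ≤ 3 * n := by
  rw [abs_le] at *
  constructor <;> linarith [h.1, h.2, h'.1, h'.2]

theorem rot {X Y p q : ℤ} {x y : ℝ} (hx : Apx X x) (hy : Apx Y y) (hp : |p| ≤ 1) (hq : |q| ≤ 1) :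
    |ro0 p q x y * 2199023255552 - ((2 * p - q) * X - 3 * q * Y : ℤ)| ≤ 6 ∧
      |ro1 p q x y * 2199023255552 - (q * X + (2 * p - q) * Y : ℤ)| ≤ 6 := by
  have h1 := cast (n := 1) hq
  have h2 := two (cast (n := 1) hp) h1
  have a1 := mb h1 hx
  have a2 := mb h1 hy
  have a3 := mb h2 hx
  have a4 := mb h2 hy
  simp only [ro0, ro1, abs_le]
  push_cast at *
  refine ⟨⟨?_, ?_⟩, ?_, ?_⟩ <;> linarith [a1.1, a1.2, a2.1, a2.2, a3.1, a3.2, a4.1, a4.2]

theorem one {Y s : ℤ} {n : ℕ} {r w : ℝ} (h : (Y + s * 1099511627776) / 33554432 = n)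
    (hY : |r * 2199023255552 - Y| ≤ 6) (hw : w + 2 = r + s / 2) :
    |(n : ℝ) - 65536 * (w + 2)| ≤ 2 := by
  have := dv h (by norm_num)
  rw [abs_le] at *
  push_cast at this
  constructor <;> linarith [this.1, this.2, hY.1, hY.2]

theorem adb (n : ℕ) : |(n : ℝ) - 131072| ≤ ad n 131072 := by
  have : |(n : ℤ) - 131072| ≤ (ad n 131072 : ℕ) := by
    simp only [ad, Nat.add_eq, Nat.sub_eq, abs_le]
    omega
  exact_mod_cast this

theorem om2 : om ^ 2 = -1 - om := by
  have : √3 * √3 = 3 := Real.mul_self_sqrt (by norm_num)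
  apply Complex.ext <;> simp [om, sq] <;> linarith

end Mk

open Mk in
theorem rowMk : SMk := by
  have h2 : ze ^ 2 = om := by rw [ze]; linear_combination om2
  refine ⟨fun v hv => ?_, fun u => by rw [pow_mul, h2], ?_⟩
  · have h3 : ze ^ 3 = -1 := by rw [pow_succ, h2, ze]; linear_combination om2
    have key : ∀ a b : ℤ, za v = a → zb v = b → ze ^ v = a + b * om → |a| ≤ 1 → |b| ≤ 1 →
        ze ^ v = eis (za v) (zb v) ∧ |za v| ≤ 1 ∧ |zb v| ≤ 1 := by
      rintro _ _ rfl rfl h h' h''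
      exact ⟨h, h', h''⟩
    have h1 : ze = 1 + om := rfl
    interval_cases v
    · exact key 1 0 (by decide) (by decide) (by simp) (by decide) (by decide)
    · exact key 1 1 (by decide) (by decide) (by simp [h1]) (by decide) (by decide)
    · exact key 0 1 (by decide) (by decide) (by simp [h2]) (by decide) (by decide)
    · exact key (-1) 0 (by decide) (by decide) (by simp [h3]) (by decide) (by decide)
    · exact key (-1) (-1) (by decide) (by decide)
        (by push_cast; linear_combination ze * h3 - h1) (by decide) (by decide)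
    · exact key 0 (-1) (by decide) (by decide)
        (by push_cast; linear_combination ze ^ 2 * h3 - h2) (by decide) (by decide)
    · exact key 1 0 (by decide) (by decide)
        (by push_cast; linear_combination (ze ^ 3 - 1) * h3) (by decide) (by decide)
    · exact key 1 1 (by decide) (by decide)
        (by push_cast; linear_combination ze * (ze ^ 3 - 1) * h3 + h1) (by decide) (by decide)
  intro X0 X1 X2 X3 T p1 q1 p2 q2 a b c d m k y0 y1 y2 y3 t x0 x1 x2 x3 hT hp1 hq1 hp2 hq2 ha hb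
    hc hd h
  obtain ⟨r0, r1⟩ := rot x0 x1 hp1 hq1
  obtain ⟨r2, r3⟩ := rot x2 x3 hp2 hq2
  rw [mkE] at h
  generalize (2 * p1 - q1) * X0 - 3 * q1 * X1 = Y0 at h r0
  generalize q1 * X0 + (2 * p1 - q1) * X1 = Y1 at h r1
  generalize (2 * p2 - q2) * X2 - 3 * q2 * X3 = Y2 at h r2
  generalize q2 * X2 + (2 * p2 - q2) * X3 = Y3 at h r3
  generalize ro0 p1 q1 y0 y1 = z0 at *
  generalize ro1 p1 q1 y0 y1 = z1 at *
  generalize ro0 p2 q2 y2 y3 = z2 at *
  generalize ro1 p2 q2 y2 y3 = z3 at *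
  obtain ⟨a0, e0, h⟩ := fz_true h
  obtain ⟨a1, e1, h⟩ := fz_true h
  obtain ⟨a2, e2, h⟩ := fz_true h
  obtain ⟨a3, e3, h⟩ := fz_true h
  obtain ⟨e, e4, h⟩ := fz_true h
  refine ⟨a0, a1, a2, a3, _, _, _, _, e, h, one e0 r0 (by push_cast; ring),
    one e1 r1 (by push_cast; ring), one e2 r2 (by push_cast; ring), one e3 r3 (by push_cast; ring),
    adb _, adb _, adb _, adb _, ?_⟩
  have h5 := dv (eq_sub_of_add_eq e4) (by norm_num)
  have b1 := cast (n := 8) hb
  have d1 := cast (n := 8) hd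
  have c0 := mb b1 r0
  have c1 := mb (two (cast (n := 8) ha) b1) r1
  have c2 := mb d1 r2
  have c3 := mb (two (cast (n := 8) hc) d1) r3
  have c4 := abs_le.1 hT
  rw [tv, nq, abs_le]
  push_cast at h5 c0 c1 c2 c3 ⊢
  constructor <;>
    linarith [h5.1, h5.2, c0.1, c0.2, c1.1, c1.2, c2.1, c2.2, c3.1, c3.2, c4.1, c4.2]

end Pool.Agent.MP_d97ab6_al.H32
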