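import Pool.Agent.MP_d97ab6_al.H32.Base
import Pool.Agent.MP_d97ab6_al.H91.Pgrp

/-! The cusp group of the second lattice is a group. -/

namespace Pool.Agent.MP_d97ab6_al.H32

open Matrix Complex H91 H91.Pgrp
open scoped ComplexConjugate

namespace Pgrp3

theorem om_eq : om ^ 2 + om + 1 = 0 := by
  have h : √3 * √3 = 3 := Real.mul_self_sqrt (by norm_num)
  apply Complex.ext
  · simp [om, sq]; nlinarith
  · simp [om, sq]; ring

theorem conj_om : conj om = -1 - om := by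
  apply Complex.ext
  · simp [om]; ring
  · simp [om]

theorem om_three : om ^ 3 = 1 := by linear_combination (om - 1) * om_eq

theorem ze_six : ze ^ 6 = 1 := by
  unfold ze
  linear_combination (om ^ 4 + 5 * om ^ 3 + 9 * om ^ 2 + 6 * om) * om_eq

theorem om_un (u : ℕ) : conj (om ^ u) * om ^ u = 1 := by
  rw [map_pow, ← mul_pow, conj_om, show (-1 - om) * om = 1 by linear_combination -om_eq, one_pow]

theorem ze_un (u : ℕ) : conj (ze ^ u) * ze ^ u = 1 := by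
  rw [map_pow, ← mul_pow, ze, map_add, map_one, conj_om,
    show (1 + (-1 - om)) * (1 + om) = 1 by linear_combination -om_eq, one_pow]

theorem un (u v : ℕ) : Un (om ^ u) 0 0 (ze ^ v) :=
  ⟨by rw [om_un]; simp, by simp, by simp, by rw [ze_un]; simp⟩

/-- The corner entry. -/
noncomputable def cw (a b c d m : ℤ) : ℂ :=
  (nq a b c d : ℂ) * om + (1 + 2 * om) * ((m : ℂ) - ((a : ℂ) + b) / 3)

theorem pm3_eq (k u v : ℕ) (a b c d m : ℤ) : pm3 k u v a b c d m =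
    ze ^ k • gm (om ^ u) 0 0 (ze ^ v) (eis a b) (eis c d) (cw a b c d m) := by
  unfold pm3 gm cw
  simp only [mul_zero, add_zero, zero_add, neg_mul]

theorem pm3_isU (k u v : ℕ) (a b c d m : ℤ) : IsU (pm3 k u v a b c d m) := by
  have h : IsU (gm (om ^ u) 0 0 (ze ^ v) (eis a b) (eis c d) (cw a b c d m)) := by
    refine gm_isU (un u v) ?_
    simp only [cw, eis, nq, map_div₀, map_add, map_sub, map_mul, map_intCast, conj_om, map_ofNat,
      map_one]
    push_cast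
    linear_combination (-(b : ℂ) ^ 2 - (d : ℂ) ^ 2) * om_eq
  rw [pm3_eq]
  unfold IsU at *
  rw [conjTranspose_smul, Matrix.smul_mul, Matrix.smul_mul, Matrix.mul_smul, smul_smul, h,
    star_def, ze_un, one_smul]

/-- `eis p q` is the rotation of `eis x y` by `w`. -/
structure Ro (w : ℂ) (x y p q : ℤ) : Prop where
  e : w * eis x y = eis p q
  n : p ^ 2 - p * q + q ^ 2 = x ^ 2 - x * y + y ^ 2

theorem rot1 (u : ℕ) (x y : ℤ) : ∃ p q j, Ro (om ^ u) x y p q ∧ p + q = x + y + 3 * j := by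
  induction u with
  | zero => exact ⟨x, y, 0, ⟨by simp, rfl⟩, by simp⟩
  | succ u ih =>
    obtain ⟨p, q, j, ⟨h1, h2⟩, h3⟩ := ih
    refine ⟨-q, p - q, j - q, ⟨?_, by linarith⟩, by linarith⟩
    rw [pow_succ', mul_assoc, h1, eis, eis]
    push_cast
    linear_combination (q : ℂ) * om_eq

theorem rot2 (v : ℕ) (x y : ℤ) : ∃ p q, Ro (ze ^ v) x y p q := by
  induction v with
  | zero => exact ⟨x, y, by simp, rfl⟩
  | succ v ih =>
    obtain ⟨p, q, h1, h2⟩ := ih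
    refine ⟨p - q, p, ?_, by linarith⟩
    rw [pow_succ', mul_assoc, h1, eis, eis, ze]
    push_cast
    linear_combination (q : ℂ) * om_eq

theorem Ro.inv {w w' : ℂ} {x y p q : ℤ} (h : Ro w x y p q) (e : w' * w = 1) : Ro w' p q x y :=
  ⟨by rw [← h.e, ← mul_assoc, e, one_mul], h.n.symm⟩

theorem Ro.zero (w : ℂ) : Ro w 0 0 0 0 := ⟨by simp [eis], rfl⟩

theorem mul3 {u v : ℕ} {x0 x1 x2 x3 p0 p1 p2 p3 j : ℤ} (h1 : Ro (om ^ u) x0 x1 p0 p1)
    (h2 : Ro (ze ^ v) x2 x3 p2 p3) (hj : p0 + p1 = x0 + x1 + 3 * j) (k k' u' v' : ℕ)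
    (a b c d m m' : ℤ) : pm3 k u v a b c d m * pm3 k' u' v' x0 x1 x2 x3 m' =
      pm3 (k + k') (u + u') (v + v') (a + p0) (b + p1) (c + p2) (d + p3)
        (m + m' + j - ((a - b) * p0 + b * p1 + (c - d) * p2 + d * p3)) := by
  have n1 := congrArg (Int.cast : ℤ → ℂ) h1.n
  have n2 := congrArg (Int.cast : ℤ → ℂ) h2.n
  have n3 := congrArg (Int.cast : ℤ → ℂ) hj
  simp only [pm3_eq]
  rw [Matrix.smul_mul, Matrix.mul_smul, smul_smul, gm_mul (un u v), ← pow_add]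
  simp only [zero_mul, mul_zero, add_zero, zero_add, h1.e, h2.e, ← pow_add]
  refine congrArg _ (gm_congr rfl rfl rfl rfl ?_ ?_ ?_)
  · simp only [eis]
    push_cast
    ring
  · simp only [eis]
    push_cast
    ring
  · simp only [cw, eis, nq, map_add, map_mul, map_intCast, conj_om]
    push_cast at n1 n2 n3 ⊢
    linear_combination -om * n1 - om * n2 + (1 + 2 * om) / 3 * n3 + ((b : ℂ) * p1 + d * p3) * om_eq

theorem pm3_mod (k u v : ℕ) (a b c d m : ℤ) :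
    pm3 k (u % 3) (v % 6) a b c d m = pm3 k u v a b c d m := by
  rw [pm3, pm3, ← pow_eq_pow_mod u om_three, ← pow_eq_pow_mod v ze_six]

theorem pm3_sc (k : ℕ) : pm3 k 0 0 0 0 0 0 0 = ze ^ k • (1 : M4) := by
  rw [pm3_eq]
  congr 1
  ext i j
  fin_cases i <;> fin_cases j <;> simp [gm, cw, eis, nq]

theorem mul_mem {g h : U31} (hg : g ∈ P3set) (hh : h ∈ P3set) : g * h ∈ P3set := by
  obtain ⟨k, u, v, a, b, c, d, m, e⟩ := hg
  obtain ⟨k', u', v', x0, x1, x2, x3, m', e'⟩ := hh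
  obtain ⟨p0, p1, j, h1, hj⟩ := rot1 u x0 x1
  obtain ⟨p2, p3, h2⟩ := rot2 v x2 x3
  exact ⟨_, _, _, _, _, _, _, _, by rw [U31.val_mul, e, e', mul3 h1 h2 hj]⟩

theorem inv_mem {g : U31} (hg : g ∈ P3set) : g⁻¹ ∈ P3set := by
  obtain ⟨k, u, v, a, b, c, d, m, e⟩ := hg
  obtain ⟨p0, p1, j, h1, hj⟩ := rot1 (2 * u) (-a) (-b)
  obtain ⟨p2, p3, h2⟩ := rot2 (5 * v) (-c) (-d)
  have z : ∀ n, ze ^ (n + 5 * n) = 1 := fun n => by
    rw [show n + 5 * n = 6 * n by ring, pow_mul, ze_six, one_pow]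
  refine ⟨5 * k, 2 * u, 5 * v, p0, p1, p2, p3,
    j - m + ((a - b) * -a + b * -b + (c - d) * -c + d * -d), inv_val ?_⟩
  rw [e, mul3 (j := -j) (h1.inv (by
      rw [← pow_add, show u + 2 * u = 3 * u by ring, pow_mul, om_three, one_pow]))
    (h2.inv (by rw [← pow_add, z])) (by linarith), ← pm3_mod, show (u + 2 * u) % 3 = 0 by omega,
    show (v + 5 * v) % 6 = 0 by omega, ← one_smul ℂ (1 : M4), ← z k, ← pm3_sc]
  congr 1 <;> ring

end Pgrp3

open Pgrp3 in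
theorem rowPgrp3 : SPgrp3 := by
  refine ⟨pm3_isU, ⟨⟨⟨⟨P3set, Pgrp3.mul_mem⟩, ⟨0, 0, 0, 0, 0, 0, 0, 0, by rw [pm3_sc]; simp⟩⟩,
    Pgrp3.inv_mem⟩, rfl⟩, fun k u v a b c d m => ?_, fun a b c d m u v a' b' c' d' m' => ?_,
    fun k g => by rw [pm3_sc]; simp, ?_⟩
  · rw [mul3 (j := 0) (Ro.zero _) (Ro.zero _) rfl, mul3 (j := 0) (Ro.zero _) (Ro.zero _) rfl]
    simp only [zero_add, add_zero, mul_zero, sub_zero, pm3_mod]
  · exact ⟨_, _, _, _, _, by
      rw [mul3 (j := 0) (p0 := a') (p1 := b') (p2 := c') (p3 := d') ⟨by simp, rfl⟩ ⟨by simp, rfl⟩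
        (by simp), zero_add, zero_add, zero_add]⟩
  · rintro p ⟨k, u, v, a, b, c, d, m, e⟩
    refine ⟨ze ^ k, ofReal_injective (by rw [normSq_eq_conj_mul_self, ze_un, ofReal_one]), ?_⟩
    ext i
    fin_cases i <;> simp [ap, e, pm3, e0, Matrix.mulVec, dotProduct, Fin.sum_univ_four]

end Pool.Agent.MP_d97ab6_al.H32
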