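import Pool.Agent.MP_d97ab6_al.H32.Base

/-! Positions of cusps and the finite range of close translates. -/

namespace Pool.Agent.MP_d97ab6_al.H32

open Matrix Complex MeasureTheory Topology H91
open scoped ComplexConjugate

namespace Pos

theorem s3 : (√3 : ℝ) * √3 = 3 := Real.mul_self_sqrt (by norm_num)

theorem s3ne : (√3 : ℝ) ≠ 0 := by
  intro h
  have := s3
  rw [h] at this
  norm_num at this

theorem herm_smul (d : ℂ) (v y : V4) : herm (d • v) y = conj d * herm v y := by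
  simp only [herm, Pi.smul_apply, smul_eq_mul, map_mul]
  ring

theorem herm_bp (a0 a1 a2 a3 t x0 x1 x2 x3 s : ℝ) :
    herm (bp a0 a1 a2 a3 t 0) (bp x0 x1 x2 x3 s 0) =
      ⟨-((x0 - a0) ^ 2 + (x2 - a2) ^ 2 + 3 * ((x1 - a1) ^ 2 + (x3 - a3) ^ 2)) / 2,
        √3 * (s - t + a0 * x1 - a1 * x0 + a2 * x3 - a3 * x2)⟩ := by
  apply Complex.ext
  · simp [herm, bp, pt]
    linear_combination (-(a1 - x1) ^ 2 / 2 - (a3 - x3) ^ 2 / 2) * s3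
  · simp [herm, bp, pt]
    ring

theorem ap_e0 (g : U31) (i : Fin 4) : ap g e0 i = g.1 i 0 := by
  simp [ap, e0, Matrix.mulVec, dotProduct, Fin.sum_univ_four]

theorem eis_eq (a b : ℤ) : eis a b = ⟨a - b / 2, √3 * (b / 2)⟩ := by
  apply Complex.ext
  · simp [eis, om]; ring
  · simp [eis, om]; ring

theorem normSq_eis (a b : ℤ) : normSq (eis a b) = (a : ℝ) ^ 2 - a * b + b ^ 2 := by
  rw [eis_eq, normSq_mk]
  linear_combination ((b : ℝ) ^ 2 / 4) * s3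

theorem normSq_om : normSq om = 1 := by
  rw [om, normSq_mk]
  linear_combination (1 / 4 : ℝ) * s3

theorem normSq_ze : normSq ze = 1 := by
  have : ze = ⟨1 / 2, √3 / 2⟩ := by
    apply Complex.ext
    · simp [ze, om]; norm_num
    · simp [ze, om]
  rw [this, normSq_mk]
  linear_combination (1 / 4 : ℝ) * s3

theorem part1 (h : U31) (a0 a1 a2 a3 t D x0 x1 x2 x3 s : ℝ) (hp : PosOf h a0 a1 a2 a3 t D) :
    rr h (bp x0 x1 x2 x3 s 0) = D * FF a0 a1 a2 a3 t x0 x1 x2 x3 s := by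
  obtain ⟨d, hd, he⟩ := hp
  rw [rr, he, herm_smul, map_mul, normSq_conj, hd, herm_bp, normSq_mk, FF]
  congr 1
  linear_combination (s - t + a0 * x1 - a1 * x0 + a2 * x3 - a3 * x2) ^ 2 * s3

theorem part2 (h : U31) (a0 a1 a2 a3 t D : ℝ) (hp : PosOf h a0 a1 a2 a3 t D) :
    normSq (h.1 3 0) = D := by
  obtain ⟨d, hd, he⟩ := hp
  rw [← ap_e0, he, ← hd]
  simp [bp, pt]

theorem part3 (g : U31) (h0 : g.1 3 0 ≠ 0) :
    PosOf g (g.1 1 0 / g.1 3 0).re ((g.1 1 0 / g.1 3 0).im / √3)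
    (g.1 2 0 / g.1 3 0).re ((g.1 2 0 / g.1 3 0).im / √3) ((g.1 0 0 / g.1 3 0).im / √3)
    (normSq (g.1 3 0)) := by
  refine ⟨g.1 3 0, rfl, ?_⟩
  have hn : herm (ap g e0) (ap g e0) = 0 := by
    rw [herm_ap]; simp [herm, e0]
  simp only [herm, ap_e0] at hn
  obtain ⟨w0, hw0⟩ : ∃ w, w = g.1 0 0 / g.1 3 0 := ⟨_, rfl⟩
  obtain ⟨w1, hw1⟩ : ∃ w, w = g.1 1 0 / g.1 3 0 := ⟨_, rfl⟩
  obtain ⟨w2, hw2⟩ : ∃ w, w = g.1 2 0 / g.1 3 0 := ⟨_, rfl⟩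
  rw [← hw0, ← hw1, ← hw2]
  have e0' : g.1 0 0 = g.1 3 0 * w0 := by rw [hw0]; field_simp
  have e1' : g.1 1 0 = g.1 3 0 * w1 := by rw [hw1]; field_simp
  have e2' : g.1 2 0 = g.1 3 0 * w2 := by rw [hw2]; field_simp
  have hc : conj (g.1 3 0) ≠ 0 := by simpa using h0
  have hw : conj w0 + conj w1 * w1 + conj w2 * w2 + w0 = 0 := by
    have : (conj (g.1 3 0) * g.1 3 0) * (conj w0 + conj w1 * w1 + conj w2 * w2 + w0) = 0 := by
      rw [e0', e1', e2'] at hn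
      simp only [map_mul] at hn
      linear_combination hn
    exact (mul_eq_zero.mp this).resolve_left (mul_ne_zero hc h0)
  have hre := congrArg Complex.re hw
  simp at hre
  have k1 : √3 * (w1.im / √3) = w1.im := by field_simp [s3ne]
  have k2 : √3 * (w2.im / √3) = w2.im := by field_simp [s3ne]
  have k0 : √3 * (w0.im / √3) = w0.im := by field_simp [s3ne]
  funext i
  rw [ap_e0, bp, k0, k1, k2]
  fin_cases i
  · show g.1 0 0 = g.1 3 0 * _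
    rw [e0']
    congr 1
    apply Complex.ext
    · simp [pt]; linarith
    · simp [pt]
  · show g.1 1 0 = g.1 3 0 * _
    rw [e1']
    congr 1
  · show g.1 2 0 = g.1 3 0 * _
    rw [e2']
    congr 1
  · show g.1 3 0 = g.1 3 0 * _
    simp [pt]

theorem mulv (u v : ℕ) (a b c d m p1 q1 p2 q2 : ℤ) (a0 a1 a2 a3 t : ℝ)
    (h1 : om ^ u = eis p1 q1) (h2 : ze ^ v = eis p2 q2) :
    pm3 0 u v a b c d m *ᵥ bp a0 a1 a2 a3 t 0 =
      bp (ro0 p1 q1 a0 a1 + a - b / 2) (ro1 p1 q1 a0 a1 + b / 2)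
      (ro0 p2 q2 a2 a3 + c - d / 2) (ro1 p2 q2 a2 a3 + d / 2)
      (tv a b c d m (ro0 p1 q1 a0 a1) (ro1 p1 q1 a0 a1) (ro0 p2 q2 a2 a3) (ro1 p2 q2 a2 a3) t)
      0 := by
  have n1 : (p1 : ℝ) ^ 2 - p1 * q1 + q1 ^ 2 = 1 := by
    rw [← normSq_eis, ← h1, map_pow, normSq_om, one_pow]
  have n2 : (p2 : ℝ) ^ 2 - p2 * q2 + q2 ^ 2 = 1 := by
    rw [← normSq_eis, ← h2, map_pow, normSq_ze, one_pow]
  have z1 : eis p1 q1 * (⟨a0, √3 * a1⟩ : ℂ) = ⟨ro0 p1 q1 a0 a1, √3 * ro1 p1 q1 a0 a1⟩ := by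
    rw [eis_eq]
    apply Complex.ext
    · simp [ro0]; linear_combination (-(q1 : ℝ) * a1 / 2) * s3
    · simp [ro1]; ring
  have z2 : eis p2 q2 * (⟨a2, √3 * a3⟩ : ℂ) = ⟨ro0 p2 q2 a2 a3, √3 * ro1 p2 q2 a2 a3⟩ := by
    rw [eis_eq]
    apply Complex.ext
    · simp [ro0]; linear_combination (-(q2 : ℝ) * a3 / 2) * s3
    · simp [ro1]; ring
  have r1 : ro0 p1 q1 a0 a1 ^ 2 + 3 * ro1 p1 q1 a0 a1 ^ 2 = a0 ^ 2 + 3 * a1 ^ 2 := by
    rw [ro0, ro1]; linear_combination (a0 ^ 2 + 3 * a1 ^ 2) * n1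
  have r2 : ro0 p2 q2 a2 a3 ^ 2 + 3 * ro1 p2 q2 a2 a3 ^ 2 = a2 ^ 2 + 3 * a3 ^ 2 := by
    rw [ro0, ro1]; linear_combination (a2 ^ 2 + 3 * a3 ^ 2) * n2
  generalize ro0 p1 q1 a0 a1 = y0 at *
  generalize ro1 p1 q1 a0 a1 = y1 at *
  generalize ro0 p2 q2 a2 a3 = y2 at *
  generalize ro1 p2 q2 a2 a3 = y3 at *
  have hw : ((nq a b c d : ℤ) : ℂ) * om + (1 + 2 * om) * ((m : ℂ) - ((a : ℂ) + b) / 3) =
      ⟨-(nq a b c d : ℝ) / 2, √3 * ((nq a b c d : ℝ) / 2 + m - (a + b) / 3)⟩ := by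
    apply Complex.ext
    · simp [om]; ring
    · simp [om]; ring
  have hq : (nq a b c d : ℝ) = (a : ℝ) ^ 2 - a * b + b ^ 2 + (c ^ 2 - c * d + d ^ 2) := by
    simp [nq]
  funext i
  rw [pm3, pow_zero, one_smul, h1, h2, hw]
  fin_cases i
  · have : (!![1, -conj (eis a b) * eis p1 q1, -conj (eis c d) * eis p2 q2,
        (⟨-(nq a b c d : ℝ) / 2, √3 * ((nq a b c d : ℝ) / 2 + m - (a + b) / 3)⟩ : ℂ);
        0, eis p1 q1, 0, eis a b; 0, 0, eis p2 q2, eis c d; 0, 0, 0, 1] *ᵥ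
          bp a0 a1 a2 a3 t 0) 0 = bp a0 a1 a2 a3 t 0 0 -
          conj (eis a b) * (eis p1 q1 * (⟨a0, √3 * a1⟩ : ℂ)) -
          conj (eis c d) * (eis p2 q2 * (⟨a2, √3 * a3⟩ : ℂ)) +
          ⟨-(nq a b c d : ℝ) / 2, √3 * ((nq a b c d : ℝ) / 2 + m - (a + b) / 3)⟩ := by
      simp [Matrix.mulVec, dotProduct, Fin.sum_univ_four, bp, pt]
      ring
    refine this.trans ?_
    rw [z1, z2, eis_eq a b, eis_eq c d]
    apply Complex.ext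
    · simp [bp, pt]
      rw [hq]
      linear_combination (1 / 2 : ℝ) * r1 + (1 / 2 : ℝ) * r2 +
        ((y1 ^ 2 + y3 ^ 2 - a1 ^ 2 - a3 ^ 2) / 2 + ((b : ℝ) ^ 2 + (d : ℝ) ^ 2) / 8) * s3
    · simp [bp, pt, tv]
      ring
  · have : (!![1, -conj (eis a b) * eis p1 q1, -conj (eis c d) * eis p2 q2,
        (⟨-(nq a b c d : ℝ) / 2, √3 * ((nq a b c d : ℝ) / 2 + m - (a + b) / 3)⟩ : ℂ);
        0, eis p1 q1, 0, eis a b; 0, 0, eis p2 q2, eis c d; 0, 0, 0, 1] *ᵥ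
          bp a0 a1 a2 a3 t 0) 1 = eis p1 q1 * (⟨a0, √3 * a1⟩ : ℂ) + eis a b := by
      simp [Matrix.mulVec, dotProduct, Fin.sum_univ_four, bp, pt]
    refine this.trans ?_
    rw [z1, eis_eq a b]
    apply Complex.ext
    · simp [bp, pt]; ring
    · simp [bp, pt]; ring
  · have : (!![1, -conj (eis a b) * eis p1 q1, -conj (eis c d) * eis p2 q2,
        (⟨-(nq a b c d : ℝ) / 2, √3 * ((nq a b c d : ℝ) / 2 + m - (a + b) / 3)⟩ : ℂ);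
        0, eis p1 q1, 0, eis a b; 0, 0, eis p2 q2, eis c d; 0, 0, 0, 1] *ᵥ
          bp a0 a1 a2 a3 t 0) 2 = eis p2 q2 * (⟨a2, √3 * a3⟩ : ℂ) + eis c d := by
      simp [Matrix.mulVec, dotProduct, Fin.sum_univ_four, bp, pt]
    refine this.trans ?_
    rw [z2, eis_eq c d]
    apply Complex.ext
    · simp [bp, pt]; ring
    · simp [bp, pt]; ring
  · simp [Matrix.mulVec, dotProduct, Fin.sum_univ_four, bp, pt]

theorem abs_mul_le {x y a b : ℝ} (hx : |x| ≤ a) (hy : |y| ≤ b) : |x * y| ≤ a * b := by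
  rw [abs_mul]
  exact mul_le_mul hx hy (abs_nonneg _) ((abs_nonneg _).trans hx)

theorem small {S B D : ℝ} (hD : 5 ≤ D)
    (h : 998 / 1000 * (D * (S ^ 2 / 4 + 3 * B ^ 2)) < 1) : S ≤ 8954 / 10000 ∧ |B| ≤ 26 / 100 := by
  have h0 : 0 ≤ S ^ 2 / 4 + 3 * B ^ 2 := by positivity
  have h1 : 5 * (S ^ 2 / 4 + 3 * B ^ 2) ≤ D * (S ^ 2 / 4 + 3 * B ^ 2) :=
    mul_le_mul_of_nonneg_right hD h0
  have h2 : S ^ 2 / 4 + 3 * B ^ 2 < 100 / 499 := by linarith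
  refine ⟨?_, ?_⟩
  · apply le_of_lt
    apply lt_of_pow_lt_pow_left₀ 2 (by norm_num)
    nlinarith [sq_nonneg B]
  · apply abs_le_of_sq_le_sq' _ (by norm_num) |> abs_le.mpr
    nlinarith [sq_nonneg S]

theorem boxes {u0 u1 u2 u3 : ℝ} (hS : u0 ^ 2 + u2 ^ 2 + 3 * (u1 ^ 2 + u3 ^ 2) ≤ 8954 / 10000) :
    |u0| ≤ 95 / 100 ∧ |u1| ≤ 55 / 100 ∧ |u2| ≤ 95 / 100 ∧ |u3| ≤ 55 / 100 := by
  have k0 := sq_nonneg u0
  have k1 := sq_nonneg u1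
  have k2 := sq_nonneg u2
  have k3 := sq_nonneg u3
  refine ⟨?_, ?_, ?_, ?_⟩ <;>
    exact abs_le.mpr (abs_le_of_sq_le_sq' (by norm_num; linarith) (by norm_num))

end Pos

theorem rowPos : SPos := by
  refine ⟨Pos.part1, Pos.part2, Pos.part3, ?_⟩
  intro g p a0 a1 a2 a3 t D u v a b c d m p1 q1 p2 q2 hg hp h1 h2
  obtain ⟨e, he, hv⟩ := hg
  refine ⟨e, he, ?_⟩
  rw [ap_mul, hv, ap_smul, ap, hp, Pos.mulv u v a b c d m p1 q1 p2 q2 a0 a1 a2 a3 t h1 h2]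

theorem rowRange : SRange := by
  intro a b c d m y0 y1 y2 y3 t D x0 x1 x2 x3 s hd h0 h1 h2 h3 ht hD h
  obtain ⟨d1, d2, d3, d4, d5, d6, d7, d8, d9, d10⟩ := hd
  rw [FF] at h
  obtain ⟨hS, hB⟩ := Pos.small hD h
  obtain ⟨u0, hu0⟩ : ∃ u, u = x0 - (y0 + a - b / 2) := ⟨_, rfl⟩
  obtain ⟨u1, hu1⟩ : ∃ u, u = x1 - (y1 + b / 2) := ⟨_, rfl⟩
  obtain ⟨u2, hu2⟩ : ∃ u, u = x2 - (y2 + c - d / 2) := ⟨_, rfl⟩
  obtain ⟨u3, hu3⟩ : ∃ u, u = x3 - (y3 + d / 2) := ⟨_, rfl⟩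
  rw [← hu0, ← hu1, ← hu2, ← hu3] at hS
  obtain ⟨b0, b1, b2, b3⟩ := Pos.boxes hS
  clear h hS
  have c0 : |x0| ≤ 1 / 2 := abs_le.mpr ⟨by linarith, by linarith⟩
  have c1 : |x1| ≤ 1 / 4 := abs_le.mpr ⟨by linarith, by linarith⟩
  have c2 : |x2| ≤ 1 / 2 := abs_le.mpr ⟨by linarith, by linarith⟩
  have c3 : |x3| ≤ 1 / 4 := abs_le.mpr ⟨by linarith, by linarith⟩
  have p1 := abs_le.mp (Pos.abs_mul_le b0 c1)
  have p2 := abs_le.mp (Pos.abs_mul_le b1 c0)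
  have p3 := abs_le.mp (Pos.abs_mul_le b2 c3)
  have p4 := abs_le.mp (Pos.abs_mul_le b3 c2)
  obtain ⟨b0l, b0r⟩ := abs_le.mp b0
  obtain ⟨b1l, b1r⟩ := abs_le.mp b1
  obtain ⟨b2l, b2r⟩ := abs_le.mp b2
  obtain ⟨b3l, b3r⟩ := abs_le.mp b3
  obtain ⟨h0l, h0r⟩ := abs_le.mp h0
  obtain ⟨h1l, h1r⟩ := abs_le.mp h1
  obtain ⟨h2l, h2r⟩ := abs_le.mp h2
  obtain ⟨h3l, h3r⟩ := abs_le.mp h3
  have i1 : -2 ≤ 2 * a - b := by
    have : ((-3 : ℤ) : ℝ) < ((2 * a - b : ℤ) : ℝ) := by push_cast; linarith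
    have := Int.cast_lt.mp this
    omega
  have i2 : 2 * a - b ≤ 3 := by
    have : ((2 * a - b : ℤ) : ℝ) < ((4 : ℤ) : ℝ) := by push_cast; linarith
    have := Int.cast_lt.mp this
    omega
  have i3 : -2 ≤ b := by
    have : ((-3 : ℤ) : ℝ) < ((b : ℤ) : ℝ) := by push_cast; linarith
    have := Int.cast_lt.mp this
    omega
  have i4 : b ≤ 2 := by
    have : ((b : ℤ) : ℝ) < ((3 : ℤ) : ℝ) := by push_cast; linarith
    have := Int.cast_lt.mp this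
    omega
  have i5 : -1 ≤ 2 * c - d := by
    have : ((-2 : ℤ) : ℝ) < ((2 * c - d : ℤ) : ℝ) := by push_cast; linarith
    have := Int.cast_lt.mp this
    omega
  have i6 : 2 * c - d ≤ 2 := by
    have : ((2 * c - d : ℤ) : ℝ) < ((3 : ℤ) : ℝ) := by push_cast; linarith
    have := Int.cast_lt.mp this
    omega
  have i7 : -1 ≤ d := by
    have : ((-2 : ℤ) : ℝ) < ((d : ℤ) : ℝ) := by push_cast; linarith
    have := Int.cast_lt.mp this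
    omega
  have i8 : d ≤ 1 := by
    have : ((d : ℤ) : ℝ) < ((2 : ℤ) : ℝ) := by push_cast; linarith
    have := Int.cast_lt.mp this
    omega
  have r1 : (-2 : ℝ) ≤ 2 * a - b := by exact_mod_cast i1
  have r2 : (2 : ℝ) * a - b ≤ 3 := by exact_mod_cast i2
  have r3 : (-2 : ℝ) ≤ b := by exact_mod_cast i3
  have r4 : (b : ℝ) ≤ 2 := by exact_mod_cast i4
  have r5 : (-1 : ℝ) ≤ 2 * c - d := by exact_mod_cast i5
  have r6 : (2 : ℝ) * c - d ≤ 2 := by exact_mod_cast i6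
  have r7 : (-1 : ℝ) ≤ d := by exact_mod_cast i7
  have r8 : (d : ℝ) ≤ 1 := by exact_mod_cast i8
  have e1 : |(a : ℝ) - b / 2| ≤ 3 / 2 := abs_le.mpr ⟨by linarith, by linarith⟩
  have e2 : |(b : ℝ) / 2| ≤ 1 := abs_le.mpr ⟨by linarith, by linarith⟩
  have e3 : |(c : ℝ) - d / 2| ≤ 1 := abs_le.mpr ⟨by linarith, by linarith⟩
  have e4 : |(d : ℝ) / 2| ≤ 1 / 2 := abs_le.mpr ⟨by linarith, by linarith⟩
  have q1 := abs_le.mp (Pos.abs_mul_le e1 h1)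
  have q2 := abs_le.mp (Pos.abs_mul_le e2 h0)
  have q3 := abs_le.mp (Pos.abs_mul_le e3 h3)
  have q4 := abs_le.mp (Pos.abs_mul_le e4 h2)
  have s1 := abs_le.mp (Pos.abs_mul_le e1 e1)
  have s2 := abs_le.mp (Pos.abs_mul_le e2 e2)
  have s3 := abs_le.mp (Pos.abs_mul_le e3 e3)
  have s4 := abs_le.mp (Pos.abs_mul_le e4 e4)
  have hq : (nq a b c d : ℝ) = ((a : ℝ) - b / 2) * (a - b / 2) + 3 * ((b : ℝ) / 2 * (b / 2)) +
      ((c : ℝ) - d / 2) * (c - d / 2) + 3 * ((d : ℝ) / 2 * (d / 2)) := by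
    simp only [nq]; push_cast; ring
  have n0 : (0 : ℝ) ≤ (nq a b c d : ℝ) := by
    rw [hq]
    have := mul_self_nonneg ((a : ℝ) - b / 2)
    have := mul_self_nonneg ((b : ℝ) / 2)
    have := mul_self_nonneg ((c : ℝ) - d / 2)
    have := mul_self_nonneg ((d : ℝ) / 2)
    linarith
  have n7 : (nq a b c d : ℝ) ≤ 7 := by
    rw [hq]; linarith [s1.2, s2.2, s3.2, s4.2]
  have hB' : s - tv a b c d m y0 y1 y2 y3 t + (y0 + a - b / 2) * x1 - (y1 + b / 2) * x0 +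
      (y2 + c - d / 2) * x3 - (y3 + d / 2) * x2 =
      s - tv a b c d m y0 y1 y2 y3 t - u0 * x1 + u1 * x0 - u2 * x3 + u3 * x2 := by
    rw [hu0, hu1, hu2, hu3]; ring
  rw [hB', tv] at hB
  obtain ⟨hBl, hBr⟩ := abs_le.mp hB
  obtain ⟨htl, htr⟩ := abs_le.mp ht
  obtain ⟨hsl, hsr⟩ := abs_le.mp d10
  have i9 : -9 ≤ m := by
    have : ((-10 : ℤ) : ℝ) < ((m : ℤ) : ℝ) := by
      push_cast
      linarith [p1.1, p1.2, p2.1, p2.2, p3.1, p3.2, p4.1, p4.2, q1.1, q1.2, q2.1, q2.2, q3.1,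
        q3.2, q4.1, q4.2]
    have := Int.cast_lt.mp this
    omega
  have i10 : m ≤ 5 := by
    have : ((m : ℤ) : ℝ) < ((6 : ℤ) : ℝ) := by
      push_cast
      linarith [p1.1, p1.2, p2.1, p2.2, p3.1, p3.2, p4.1, p4.2, q1.1, q1.2, q2.1, q2.2, q3.1,
        q3.2, q4.1, q4.2]
    have := Int.cast_lt.mp this
    omega
  exact ⟨i1, i2, i3, i4, i5, i6, i7, i8, i9, i10⟩

end Pool.Agent.MP_d97ab6_al.H32
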