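import Pool.Agent.MP_d97ab6_al.H32.Ex

/-! Soundness of the modular matrix arithmetic. -/

namespace Pool.Agent.MP_d97ab6_al.H32

open Matrix Complex H91
open scoped ComplexConjugate

namespace Rep

theorem cN_eq : (cN : ℤ) = (cB : ℤ) ^ 2 + cB + 1 := by norm_num [cN, cB]
theorem cB1_eq : (cB1 : ℤ) = cB + 1 := by norm_num [cB1, cB]
theorem cB2_eq : (cB2 : ℤ) = (cB : ℤ) ^ 2 := by norm_num [cB2, cB]
theorem cM_eq : (cM : ℤ) = (cB : ℤ) ^ 2 + cB - 1 := by norm_num [cM, cB]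
theorem cS_eq : (cS : ℤ) = (cB : ℤ) ^ 2 + cB := by norm_num [cS, cB]
theorem cB_eq : cB = 2 ^ 128 := by norm_num [cB]

theorem om_sq : om * om = -1 - om := by
  have h : √3 * √3 = (3 : ℝ) := Real.mul_self_sqrt (by norm_num)
  apply Complex.ext
  · simp only [om, mul_re, sub_re, neg_re, one_re]; linarith
  · simp only [om, mul_im, sub_im, neg_im, one_im]; ring

theorem conj_om : conj om = -1 - om := by
  apply Complex.ext
  · simp only [om, conj_re, sub_re, neg_re, one_re]; ring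
  · simp only [om, conj_im, sub_im, neg_im, one_im]; ring

theorem sr_sq : sr * sr = -2 := by
  have h : √2 * √2 = (2 : ℝ) := Real.mul_self_sqrt (by norm_num)
  apply Complex.ext
  · simp [sr, h]
  · simp [sr]

theorem conj_sr : conj sr = -sr := by
  apply Complex.ext <;> simp [sr]

theorem conj_eis (a b : ℤ) : conj (eis a b) = eis (a - b) (-b) := by
  simp only [eis, map_add, map_mul, map_intCast, conj_om]
  push_cast; ring

theorem eis_norm (a b : ℤ) : eis a b * conj (eis a b) = ((a ^ 2 - a * b + b ^ 2 : ℤ) : ℂ) := by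
  rw [conj_eis]
  simp only [eis]
  push_cast
  linear_combination (-(b : ℂ) ^ 2) * om_sq

variable {β β' : ℕ} {z z' : ℂ} {u u' v v' : ℕ}

theorem mk' (a b k : ℤ) (hz : z = eis a b) (ha : |a| ≤ β) (hb : |b| ≤ β)
    (h : (u : ℤ) = a + b * cB + k * ((cB : ℤ) ^ 2 + cB + 1)) : ER β z u :=
  ⟨a, b, hz, ha, hb, Int.modEq_iff_dvd.2 ⟨-k, by rw [h, cN_eq]; ring⟩⟩

theorem mono (h : ER β z u) (hβ : β ≤ β') : ER β' z u := by
  obtain ⟨a, b, h1, h2, h3, h4⟩ := h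
  have : (β : ℤ) ≤ β' := by exact_mod_cast hβ
  exact ⟨a, b, h1, h2.trans this, h3.trans this, h4⟩

theorem cast (h : ER β z u) (e : z = z') : ER β z' u := e ▸ h

theorem add (h : ER β z u) (h' : ER β' z' u') : ER (β + β') (z + z') (Nat.add u u') := by
  obtain ⟨a, b, h1, h2, h3, h4⟩ := h
  obtain ⟨c, d, k1, k2, k3, k4⟩ := h'
  refine ⟨a + c, b + d, ?_, ?_, ?_, ?_⟩
  · rw [h1, k1]; simp only [eis]; push_cast; ring
  · push_cast; exact (abs_add_le a c).trans (add_le_add h2 k2)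
  · push_cast; exact (abs_add_le b d).trans (add_le_add h3 k3)
  · have := h4.add k4
    have e : a + b * cB + (c + d * cB) = a + c + (b + d) * cB := by ring
    rw [e] at this
    rw [Nat.add_eq]; push_cast; exact this

theorem mul (h : ER β z u) (h' : ER β' z' u') : ER (3 * β * β') (z * z') (Nat.mul u u') := by
  obtain ⟨a, b, h1, h2, h3, h4⟩ := h
  obtain ⟨c, d, k1, k2, k3, k4⟩ := h'
  have key : ∀ x y : ℤ, |x| ≤ β → |y| ≤ β' → -((β : ℤ) * β') ≤ x * y ∧ x * y ≤ β * β' := by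
    intro x y hx hy
    rw [← abs_le, abs_mul]
    exact mul_le_mul hx hy (abs_nonneg y) (Nat.cast_nonneg β)
  have e1 := key a c h2 k2
  have e2 := key a d h2 k3
  have e3 := key b c h3 k2
  have e4 := key b d h3 k3
  have e5 : (0 : ℤ) ≤ β * β' := by positivity
  refine ⟨a * c - b * d, a * d + b * c - b * d, ?_, ?_, ?_, ?_⟩
  · rw [h1, k1]; simp only [eis]; push_cast
    linear_combination ((b : ℂ) * d) * om_sq
  · push_cast; rw [abs_le]; constructor <;> linarith [e1.1, e1.2, e4.1, e4.2]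
  · push_cast; rw [abs_le]
    constructor <;> linarith [e2.1, e2.2, e3.1, e3.2, e4.1, e4.2]
  · rw [Nat.mul_eq]; push_cast
    refine (h4.mul k4).trans (Int.modEq_iff_dvd.2 ⟨-(b * d), ?_⟩)
    rw [cN_eq]; ring

theorem md (h : ER β z u) : ER β z (Nat.mod u cN) := by
  obtain ⟨a, b, h1, h2, h3, h4⟩ := h
  refine ⟨a, b, h1, h2, h3, ?_⟩
  have e : ((Nat.mod u cN : ℕ) : ℤ) = (u : ℤ) % cN := Int.natCast_mod u cN
  rw [e]
  exact (Int.mod_modEq _ _).trans h4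

theorem nat (n : ℕ) : ER n n n :=
  mk' n 0 0 (by simp [eis]) (by simp) (by simp) (by ring)

theorem zero : ER β 0 0 := ((nat 0).imp fun _ h => h) |> fun h => mono (cast h (by simp))
  (Nat.zero_le β)

theorem e_om : ER 1 om cB := mk' 0 1 0 (by simp [eis]) (by simp) (by simp) (by ring)

theorem e_ze : ER 1 ze cB1 :=
  mk' 1 1 0 (by simp [eis, ze]) (by simp) (by simp) (by rw [cB1_eq]; ring)

theorem e_m1 : ER 1 (-1) cS :=
  mk' (-1) 0 1 (by simp [eis]) (by simp) (by simp) (by rw [cS_eq]; ring)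

theorem e_m2 : ER 2 (-2) cM :=
  mk' (-2) 0 1 (by simp [eis]) (by simp) (by simp) (by rw [cM_eq]; ring)

theorem pw (h : ER 1 z u) (k : ℕ) : ER (3 ^ k) (z ^ k) (Nat.pow u k) := by
  induction k with
  | zero => exact cast (nat 1) (by simp)
  | succ k ih => exact mono (cast (mul ih h) (pow_succ z k).symm) (by rw [pow_succ]; omega)

theorem pw8 (h : ER 1 z u) {k : ℕ} (hk : k < 8) : ER 2187 (z ^ k) (Nat.pow u k) :=
  mono (pw h k) (Nat.pow_le_pow_right (by norm_num) (Nat.le_of_lt_succ hk) : 3 ^ k ≤ 3 ^ 7)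

theorem e_u (t a b : ℕ) (ha : a < 2 * t) (hb : b < 2 * t) :
    ER t (eis ((a : ℤ) - t) ((b : ℤ) - t)) (Nat.add (Nat.add a (Nat.mul cB b)) (Nat.mul t cB2)) :=
  mk' _ _ t rfl (by rw [abs_le]; constructor <;> omega) (by rw [abs_le]; constructor <;> omega)
    (by simp only [Nat.add_eq, Nat.mul_eq]; push_cast; rw [cB2_eq]; ring)

theorem e_c (t a b : ℕ) (ha : a < 2 * t) (hb : b < 2 * t) :
    ER (2 * t) (conj (eis ((a : ℤ) - t) ((b : ℤ) - t)))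
      (Nat.add (Nat.add a (Nat.mul cB2 b)) (Nat.mul t cB)) :=
  mk' _ _ b (conj_eis _ _) (by rw [abs_le]; constructor <;> omega)
    (by rw [abs_le]; constructor <;> omega)
    (by simp only [Nat.add_eq, Nat.mul_eq]; push_cast; rw [cB2_eq]; ring)

theorem dg_lt (g n : ℕ) : dg g n < 2 * 64 :=
  Nat.lt_succ_of_le (Nat.and_le_right (n := Nat.shiftRight g n) (m := 127))

theorem e_gu (g n : ℕ) : ER 64 (eis ((dg g n : ℤ) - 64) ((dg g (n + 7) : ℤ) - 64)) (gu g n) :=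
  e_u 64 _ _ (dg_lt g n) (dg_lt g (n + 7))

theorem e_gc (g n : ℕ) :
    ER 128 (conj (eis ((dg g n : ℤ) - 64) ((dg g (n + 7) : ℤ) - 64))) (gc g n) :=
  e_c 64 _ _ (dg_lt g n) (dg_lt g (n + 7))

theorem inj (h : ER β z u) (h' : ER β' z' u') (e : Nat.mod u cN = Nat.mod u' cN)
    (hβ : 2 * (β + β') < 2 ^ 128) : z = z' := by
  obtain ⟨a, b, h1, h2, h3, h4⟩ := h
  obtain ⟨c, d, k1, k2, k3, k4⟩ := h'
  have e1 : (u : ℤ) ≡ u' [ZMOD cN] := Int.natCast_modEq_iff.2 e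
  have e2 := Int.modEq_iff_dvd.1 (h4.symm.trans (e1.trans k4))
  rw [← cB_eq] at hβ
  have hB : 2 * ((β : ℤ) + β') < cB := by exact_mod_cast hβ
  rw [cN_eq] at e2
  generalize (cB : ℤ) = B at *
  rw [abs_le] at h2 h3 k2 k3
  have hb : (0 : ℤ) ≤ β := Nat.cast_nonneg β
  have hb' : (0 : ℤ) ≤ β' := Nat.cast_nonneg β'
  have e3 : c + d * B - (a + b * B) = 0 := by
    refine Int.eq_zero_of_abs_lt_dvd e2 ?_
    rw [abs_lt]
    constructor <;> nlinarith [h2.1, h2.2, h3.1, h3.2, k2.1, k2.2, k3.1, k3.2]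
  have e4 : c - a = 0 := by
    refine Int.eq_zero_of_abs_lt_dvd (m := B) ⟨b - d, by linarith⟩ ?_
    rw [abs_lt]
    constructor <;> linarith [h2.1, h2.2, k2.1, k2.2]
  have e5 : (d - b) * B = 0 := by linarith
  have e6 : d - b = 0 := (mul_eq_zero.1 e5).resolve_right (by omega)
  rw [h1, k1, show a = c by omega, show b = d by omega]

theorem rmono (h : Rep β z u v) (hβ : β ≤ β') : Rep β' z u v := by
  obtain ⟨z1, z2, h1, h2, h3⟩ := h
  exact ⟨z1, z2, h1, mono h2 hβ, mono h3 hβ⟩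

theorem r0 (h : ER β z u) (hβ : β ≤ β') (e : z' = z) : Rep β' z' u 0 :=
  ⟨z, 0, by rw [e]; ring, mono h hβ, zero⟩

theorem d4 {x0 x1 x2 x3 y0 y1 y2 y3 : ℂ} {a0 b0 a1 b1 a2 b2 a3 b3 c0 d0 c1 d1 c2 d2 c3 d3 : ℕ}
    (h0 : Rep β x0 a0 b0) (h1 : Rep β x1 a1 b1) (h2 : Rep β x2 a2 b2) (h3 : Rep β x3 a3 b3)
    (k0 : Rep β' y0 c0 d0) (k1 : Rep β' y1 c1 d1) (k2 : Rep β' y2 c2 d2) (k3 : Rep β' y3 c3 d3) :
    Rep (128 * β * β') (x0 * y0 + x1 * y1 + x2 * y2 + x3 * y3)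
      (d4u a0 b0 a1 b1 a2 b2 a3 b3 c0 d0 c1 d1 c2 d2 c3 d3)
      (d4v a0 b0 a1 b1 a2 b2 a3 b3 c0 d0 c1 d1 c2 d2 c3 d3) := by
  obtain ⟨p0, q0, rfl, A0, B0⟩ := h0
  obtain ⟨p1, q1, rfl, A1, B1⟩ := h1
  obtain ⟨p2, q2, rfl, A2, B2⟩ := h2
  obtain ⟨p3, q3, rfl, A3, B3⟩ := h3
  obtain ⟨r0, s0, rfl, C0, D0⟩ := k0
  obtain ⟨r1, s1, rfl, C1, D1⟩ := k1
  obtain ⟨r2, s2, rfl, C2, D2⟩ := k2
  obtain ⟨r3, s3, rfl, C3, D3⟩ := k3
  refine ⟨_, _, ?_,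
    mono (md (add (add (add (mul A0 C0) (mul A1 C1)) (add (mul A2 C2) (mul A3 C3)))
      (mul e_m2 (add (add (mul B0 D0) (mul B1 D1)) (add (mul B2 D2) (mul B3 D3)))))) ?_,
    mono (md (add (add (add (mul A0 D0) (mul A1 D1)) (add (mul A2 D2) (mul A3 D3)))
      (add (add (mul B0 C0) (mul B1 C1)) (add (mul B2 C2) (mul B3 C3))))) ?_⟩
  · linear_combination (q0 * s0 + q1 * s1 + q2 * s2 + q3 * s3) * sr_sq
  · simp only [mul_assoc]; omega
  · simp only [mul_assoc]; omega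

theorem mm_u (X Y : NM) (i j : Fin 4) : (mm X Y).u i j =
    d4u (X.u i 0) (X.v i 0) (X.u i 1) (X.v i 1) (X.u i 2) (X.v i 2) (X.u i 3) (X.v i 3)
      (Y.u 0 j) (Y.v 0 j) (Y.u 1 j) (Y.v 1 j) (Y.u 2 j) (Y.v 2 j) (Y.u 3 j) (Y.v 3 j) := by
  cases X; cases Y
  fin_cases i <;> fin_cases j <;> rfl

theorem mm_v (X Y : NM) (i j : Fin 4) : (mm X Y).v i j =
    d4v (X.u i 0) (X.v i 0) (X.u i 1) (X.v i 1) (X.u i 2) (X.v i 2) (X.u i 3) (X.v i 3)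
      (Y.u 0 j) (Y.v 0 j) (Y.u 1 j) (Y.v 1 j) (Y.u 2 j) (Y.v 2 j) (Y.u 3 j) (Y.v 3 j) := by
  cases X; cases Y
  fin_cases i <;> fin_cases j <;> rfl

variable {M M' : M4} {X Y : NM}

theorem mmul (h : MRep β M X) (h' : MRep β' M' Y) : MRep (128 * β * β') (M * M') (mm X Y) := by
  intro i j
  rw [mm_u, mm_v, Matrix.mul_apply, Fin.sum_univ_four]
  exact d4 (h i 0) (h i 1) (h i 2) (h i 3) (h' 0 j) (h' 1 j) (h' 2 j) (h' 3 j)

theorem band_iff (x y : Bool) : band x y = true ↔ x = true ∧ y = true := by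
  cases x <;> cases y <;> simp [band]

theorem eqN_elim {s e : ℕ} (h : eqN s X e Y = true) (i j : Fin 4) :
    eq1 s (X.u i j) e (Y.u i j) = true ∧ eq1 s (X.v i j) e (Y.v i j) = true := by
  cases X; cases Y
  simp only [eqN, band_iff] at h
  obtain ⟨h1, h2, h3, h4, h5, h6, h7, h8, h9, h10, h11, h12, h13, h14, h15, h16, h17, h18, h19,
    h20, h21, h22, h23, h24, h25, h26, h27, h28, h29, h30, h31, h32⟩ := h
  fin_cases i <;> fin_cases j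
  exacts [⟨h1, h2⟩, ⟨h3, h4⟩, ⟨h5, h6⟩, ⟨h7, h8⟩, ⟨h9, h10⟩, ⟨h11, h12⟩, ⟨h13, h14⟩, ⟨h15, h16⟩,
    ⟨h17, h18⟩, ⟨h19, h20⟩, ⟨h21, h22⟩, ⟨h23, h24⟩, ⟨h25, h26⟩, ⟨h27, h28⟩, ⟨h29, h30⟩,
    ⟨h31, h32⟩]

theorem eqN_sound {s e γ γ' : ℕ} {s0 e0 : ℂ} (hs : ER γ s0 s) (he : ER γ' e0 e) (hX : MRep β M X)
    (hY : MRep β' M' Y) (h : eqN s X e Y = true)
    (hb : 2 * (3 * γ * β + 3 * γ' * β') < 2 ^ 128) : s0 • M = e0 • M' := by
  ext i j
  obtain ⟨h1, h2⟩ := eqN_elim h i j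
  obtain ⟨p, q, e1, A, B⟩ := hX i j
  obtain ⟨r, t, e2, C, D⟩ := hY i j
  have k1 := inj (mul hs A) (mul he C) (Nat.eq_of_beq_eq_true h1) hb
  have k2 := inj (mul hs B) (mul he D) (Nat.eq_of_beq_eq_true h2) hb
  rw [Matrix.smul_apply, Matrix.smul_apply, smul_eq_mul, smul_eq_mul, e1, e2]
  linear_combination k1 + sr * k2

theorem m_mk {z00 z01 z02 z03 z10 z11 z12 z13 z20 z21 z22 z23 z30 z31 z32 z33 : ℂ}
    {u00 v00 u01 v01 u02 v02 u03 v03 u10 v10 u11 v11 u12 v12 u13 v13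
      u20 v20 u21 v21 u22 v22 u23 v23 u30 v30 u31 v31 u32 v32 u33 v33 : ℕ}
    (h00 : Rep β z00 u00 v00) (h01 : Rep β z01 u01 v01)
    (h02 : Rep β z02 u02 v02) (h03 : Rep β z03 u03 v03)
    (h10 : Rep β z10 u10 v10) (h11 : Rep β z11 u11 v11)
    (h12 : Rep β z12 u12 v12) (h13 : Rep β z13 u13 v13)
    (h20 : Rep β z20 u20 v20) (h21 : Rep β z21 u21 v21)
    (h22 : Rep β z22 u22 v22) (h23 : Rep β z23 u23 v23)
    (h30 : Rep β z30 u30 v30) (h31 : Rep β z31 u31 v31)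
    (h32 : Rep β z32 u32 v32) (h33 : Rep β z33 u33 v33) :
    MRep β !![z00, z01, z02, z03; z10, z11, z12, z13; z20, z21, z22, z23; z30, z31, z32, z33]
      (NM.mk u00 v00 u01 v01 u02 v02 u03 v03 u10 v10 u11 v11 u12 v12 u13 v13
        u20 v20 u21 v21 u22 v22 u23 v23 u30 v30 u31 v31 u32 v32 u33 v33) := by
  intro i j
  fin_cases i <;> fin_cases j
  exacts [h00, h01, h02, h03, h10, h11, h12, h13, h20, h21, h22, h23, h30, h31, h32, h33]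

theorem r_gz (g n k : ℕ) (h : k = n + 14) : Rep 64 (gz g n) (gu g n) (gu g k) :=
  h ▸ ⟨_, _, rfl, e_gu g n, e_gu g (n + 14)⟩

theorem r_gc (g n k : ℕ) (h : k = n + 14) :
    Rep 384 (conj (gz g n)) (gc g n) (Nat.mul cS (gc g k)) :=
  h ▸ ⟨_, _, by simp only [gz, map_add, map_mul, conj_sr]; ring, mono (e_gc g n) (by norm_num),
    mul e_m1 (e_gc g (n + 14))⟩

theorem gM3 (g : ℕ) : (3 : ℂ) • gM g = !![gz g 0, gz g 28, gz g 56, gz g 84;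
    gz g 112, gz g 140, gz g 168, gz g 196; gz g 224, gz g 252, gz g 280, gz g 308;
    gz g 336, gz g 364, gz g 392, gz g 420] := by
  rw [gM, smul_smul]; norm_num

theorem m_gN (g : ℕ) : MRep 64 ((3 : ℂ) • gM g) (gN g) := by
  rw [gM3, gN]
  exact m_mk
    (r_gz g 0 14 rfl) (r_gz g 28 42 rfl) (r_gz g 56 70 rfl) (r_gz g 84 98 rfl)
    (r_gz g 112 126 rfl) (r_gz g 140 154 rfl) (r_gz g 168 182 rfl) (r_gz g 196 210 rfl)
    (r_gz g 224 238 rfl) (r_gz g 252 266 rfl) (r_gz g 280 294 rfl) (r_gz g 308 322 rfl)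
    (r_gz g 336 350 rfl) (r_gz g 364 378 rfl) (r_gz g 392 406 rfl) (r_gz g 420 434 rfl)

theorem J_conj (z00 z01 z02 z03 z10 z11 z12 z13 z20 z21 z22 z23 z30 z31 z32 z33 : ℂ) :
    H91.J * (!![z00, z01, z02, z03; z10, z11, z12, z13; z20, z21, z22, z23; z30, z31, z32, z33])ᴴ * H91.J =
    !![conj z33, conj z13, conj z23, conj z03; conj z31, conj z11, conj z21, conj z01;
      conj z32, conj z12, conj z22, conj z02; conj z30, conj z10, conj z20, conj z00] := by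
  ext i j
  fin_cases i <;> fin_cases j <;>
    simp [H91.J, Matrix.mul_apply, Fin.sum_univ_four, Matrix.vecMul, dotProduct]

theorem m_gC (g : ℕ) : MRep 384 (H91.J * ((3 : ℂ) • gM g)ᴴ * H91.J) (gC g) := by
  rw [gM3, J_conj, gC]
  exact m_mk
    (r_gc g 420 434 rfl) (r_gc g 196 210 rfl) (r_gc g 308 322 rfl) (r_gc g 84 98 rfl)
    (r_gc g 364 378 rfl) (r_gc g 140 154 rfl) (r_gc g 252 266 rfl) (r_gc g 28 42 rfl)
    (r_gc g 392 406 rfl) (r_gc g 168 182 rfl) (r_gc g 280 294 rfl) (r_gc g 56 70 rfl)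
    (r_gc g 336 350 rfl) (r_gc g 112 126 rfl) (r_gc g 224 238 rfl) (r_gc g 0 14 rfl)

theorem m_id : MRep 1 1 idN := by
  intro i j
  fin_cases i <;> fin_cases j <;>
    first
      | exact r0 (nat 1) le_rfl (by simp)
      | exact r0 (β := 1) zero le_rfl (by simp)

theorem fl_lt (c s : ℕ) {m : ℕ} (hm : 0 < m) : fl c s m < m := Nat.mod_lt _ hm

theorem m_pN1 {u v a b c d m : ℕ} (hu : u < 4) (hv : v < 8) (ha : a < 16) (hb : b < 16)
    (hc : c < 16) (hd : d < 16) (hm : m < 64) :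
    MRep (2 ^ 22) ((3 : ℂ) • pm3 0 u v ((a : ℤ) - 8) ((b : ℤ) - 8) ((c : ℤ) - 8) ((d : ℤ) - 8)
      ((m : ℤ) - 32)) (pN1 u v a b c d m) := by
  have U1 := md (pw8 e_om (hu.trans (by norm_num)))
  have U2 := md (pw8 e_ze hv)
  have Z1 : ER 8 (eis ((a : ℤ) - 8) ((b : ℤ) - 8)) (zu a b) := e_u 8 a b ha hb
  have Y1 : ER 16 (conj (eis ((a : ℤ) - 8) ((b : ℤ) - 8))) (zc a b) := e_c 8 a b ha hb
  have Z2 : ER 8 (eis ((c : ℤ) - 8) ((d : ℤ) - 8)) (zu c d) := e_u 8 c d hc hd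
  have Y2 : ER 16 (conj (eis ((c : ℤ) - 8) ((d : ℤ) - 8))) (zc c d) := e_c 8 c d hc hd
  have W := add (mul (nat 3) (mono (nat m) hm.le))
    (mul e_m1 (add (add (mono (nat a) ha.le) (mono (nat b) hb.le)) (nat 80)))
  have n1 := eis_norm ((a : ℤ) - 8) ((b : ℤ) - 8)
  have n2 := eis_norm ((c : ℤ) - 8) ((d : ℤ) - 8)
  have O : Rep (2 ^ 22) 0 0 0 := r0 (β := 0) zero (Nat.zero_le _) rfl
  have T : Rep (2 ^ 22) 3 3 0 := r0 (nat 3) (by norm_num) (by simp)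
  have e : (3 : ℂ) • pm3 0 u v ((a : ℤ) - 8) ((b : ℤ) - 8) ((c : ℤ) - 8) ((d : ℤ) - 8)
      ((m : ℤ) - 32) = !![3, 3 * (-conj (eis ((a : ℤ) - 8) ((b : ℤ) - 8)) * om ^ u),
        3 * (-conj (eis ((c : ℤ) - 8) ((d : ℤ) - 8)) * ze ^ v),
        3 * ((nq ((a : ℤ) - 8) ((b : ℤ) - 8) ((c : ℤ) - 8) ((d : ℤ) - 8) : ℂ) * om +
          (1 + 2 * om) * ((((m : ℤ) - 32 : ℤ) : ℂ) -
            ((((a : ℤ) - 8 : ℤ) : ℂ) + (((b : ℤ) - 8 : ℤ) : ℂ)) / 3));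
        0, 3 * om ^ u, 0, 3 * eis ((a : ℤ) - 8) ((b : ℤ) - 8);
        0, 0, 3 * ze ^ v, 3 * eis ((c : ℤ) - 8) ((d : ℤ) - 8); 0, 0, 0, 3] := by
    ext i j
    fin_cases i <;> fin_cases j <;> simp [pm3]
  have R01 : Rep (2 ^ 22) (3 * (-conj (eis ((a : ℤ) - 8) ((b : ℤ) - 8)) * om ^ u)) _ 0 :=
    r0 (md (mul (mul (nat 3) e_m1) (mul Y1 U1))) (by norm_num) (by push_cast; ring)
  have R02 : Rep (2 ^ 22) (3 * (-conj (eis ((c : ℤ) - 8) ((d : ℤ) - 8)) * ze ^ v)) _ 0 :=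
    r0 (md (mul (mul (nat 3) e_m1) (mul Y2 U2))) (by norm_num) (by push_cast; ring)
  have R03 : Rep (2 ^ 22)
      (3 * ((nq ((a : ℤ) - 8) ((b : ℤ) - 8) ((c : ℤ) - 8) ((d : ℤ) - 8) : ℂ) * om +
        (1 + 2 * om) * ((((m : ℤ) - 32 : ℤ) : ℂ) -
          ((((a : ℤ) - 8 : ℤ) : ℂ) + (((b : ℤ) - 8 : ℤ) : ℂ)) / 3))) _ 0 :=
    r0 (md (add (mul (mul (nat 3) e_om) (add (mul Z1 Y1) (mul Z2 Y2))) (mul (add e_om e_ze) W)))
      (by norm_num) (by rw [n1, n2, nq, ze]; push_cast; ring)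
  have R11 : Rep (2 ^ 22) (3 * om ^ u) _ 0 := r0 (mul (nat 3) U1) (by norm_num) (by simp)
  have R22 : Rep (2 ^ 22) (3 * ze ^ v) _ 0 := r0 (mul (nat 3) U2) (by norm_num) (by simp)
  have R13 : Rep (2 ^ 22) (3 * eis ((a : ℤ) - 8) ((b : ℤ) - 8)) _ 0 :=
    r0 (mul (nat 3) Z1) (by norm_num) (by simp)
  have R23 : Rep (2 ^ 22) (3 * eis ((c : ℤ) - 8) ((d : ℤ) - 8)) _ 0 :=
    r0 (mul (nat 3) Z2) (by norm_num) (by simp)
  rw [e, pN1, pN2]
  exact m_mk T R01 R02 R03 O R11 O R13 O O R22 R23 O O O T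

theorem m_pN (c : ℕ) : MRep (2 ^ 22) ((3 : ℂ) • pc 0 c) (pN c) :=
  m_pN1 (fl_lt _ _ (by norm_num)) (fl_lt _ _ (by norm_num)) (fl_lt _ _ (by norm_num))
    (fl_lt _ _ (by norm_num)) (fl_lt _ _ (by norm_num)) (fl_lt _ _ (by norm_num))
    (fl_lt _ _ (by norm_num))

theorem m_hN (CG c : ℕ) : MRep (128 * 2 ^ 22 * 64) ((9 : ℂ) • hM CG c) (hN CG c) := by
  have h := mmul (m_pN c) (m_gN (cg CG (Nat.mod c 64)))
  rw [Matrix.smul_mul, Matrix.mul_smul, smul_smul, show (3 : ℂ) * 3 = 9 by norm_num] at h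
  exact h

theorem pc_eq (k c : ℕ) : pc k c = ze ^ k • pc 0 c := by
  simp only [pc, pm3, pow_zero, one_smul]

theorem fin {A B C D : M4} {e : ℂ}
    (h : ((27 : ℕ) : ℂ) • (9 : ℂ) • A = e • ((9 : ℂ) • B * (9 : ℂ) • C * (3 : ℂ) • D)) :
    A = B * C * e • D := by
  refine smul_right_injective M4 (by norm_num : (243 : ℂ) ≠ 0) ?_
  simp only [Matrix.smul_mul, Matrix.mul_smul, smul_smul] at h ⊢
  rw [show (243 : ℂ) = ((27 : ℕ) : ℂ) * 9 by norm_num, h]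
  congr 1
  push_cast; ring

end Rep

theorem rowRep : SE5 := by
  refine ⟨fun g h => ?_, fun CG ci cj cw cp h => ?_⟩
  · have h1 := Rep.eqN_sound (Rep.nat 1) (Rep.nat 9) (Rep.mmul (Rep.m_gC g) (Rep.m_gN g))
      Rep.m_id h (by norm_num)
    rw [Matrix.conjTranspose_smul, Matrix.mul_smul, Matrix.mul_smul, Matrix.smul_mul,
      Matrix.smul_mul, smul_smul, smul_smul] at h1
    have h2 : (9 : ℂ) • (H91.J * (gM g)ᴴ * H91.J * gM g) = (9 : ℂ) • (1 : M4) := by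
      have e : ((1 : ℕ) : ℂ) * 3 * star (3 : ℂ) = 9 := by
        rw [show star (3 : ℂ) = 3 from map_ofNat (starRingEnd ℂ) 3]; norm_num
      rw [e] at h1
      exact_mod_cast h1
    have h3 := smul_right_injective M4 (by norm_num : (9 : ℂ) ≠ 0) h2
    have h4 : H91.J * (H91.J * (gM g)ᴴ * H91.J * gM g) = H91.J := by rw [h3, Matrix.mul_one]
    rw [← Matrix.mul_assoc, ← Matrix.mul_assoc, ← Matrix.mul_assoc, J_mul_J, Matrix.one_mul] at h4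
    exact h4
  · have h1 := Rep.eqN_sound (Rep.nat 27)
      (Rep.pw8 Rep.e_ze (Nat.mod_lt cp (by norm_num) : Nat.mod cp 8 < 8)) (Rep.m_hN CG cj)
      (Rep.mmul (Rep.mmul (Rep.m_hN CG ci) (Rep.m_hN CG cw)) (Rep.m_pN cp)) h (by norm_num)
    rw [Rep.pc_eq]
    exact Rep.fin h1

end Pool.Agent.MP_d97ab6_al.H32
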