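import Pool.Agent.MP_d97ab6_al.H32.Tb
import Pool.Agent.MP_d97ab6_al.H32.Tree
import Pool.Agent.MP_d97ab6_al.H32.Pgrp3
import Pool.Agent.MP_d97ab6_al.H32.Rep
import Pool.Agent.MP_d97ab6_al.H32.Mk
import Pool.Agent.MP_d97ab6_al.H32.Pos
import Pool.Agent.MP_d97ab6_al.H32.Far

/-! Meaning of the table checks. -/

namespace Pool.Agent.MP_d97ab6_al.H32

open Matrix Complex H91 H32.Tree
open scoped ComplexConjugate

open Classical in
noncomputable def gU (g : ℕ) : U31 := if h : IsU (gM g) then ⟨gM g, h⟩ else 1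

noncomputable def pU (k u v : ℕ) (a b c d m : ℤ) : U31 :=
  ⟨pm3 k u v a b c d m, rowPgrp3.1 k u v a b c d m⟩

noncomputable def pcU (k c : ℕ) : U31 :=
  pU k (fl c 64 4) (fl c 256 8) ((fl c 2048 16 : ℤ) - 8) ((fl c 32768 16 : ℤ) - 8)
    ((fl c 524288 16 : ℤ) - 8) ((fl c 8388608 16 : ℤ) - 8) ((fl c 134217728 64 : ℤ) - 32)

noncomputable def hU (CG c : ℕ) : U31 := pcU 0 c * gU (cg CG (Nat.mod c 64))

noncomputable def P3 : Subgroup U31 := rowPgrp3.2.1.choose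

theorem mem_P3 {g : U31} : g ∈ P3 ↔ g ∈ P3set := by
  rw [← rowPgrp3.2.1.choose_spec]
  rfl

theorem pU_mem (k u v : ℕ) (a b c d m : ℤ) : pU k u v a b c d m ∈ P3 :=
  mem_P3.2 ⟨k, u, v, a, b, c, d, m, rfl⟩

theorem pcU_mem (k c : ℕ) : pcU k c ∈ P3 := pU_mem ..

def T3 (CG : ℕ) : Set U31 :=
  {t | t ∈ P3 ∨ ∃ k < 4, ∃ p ∈ P3, ∃ p' ∈ P3, t = p * gU (cg CG k) * p'}

theorem gU_eq {g : ℕ} (h : IsU (gM g)) : gU g = ⟨gM g, h⟩ := dif_pos h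

theorem hU_val {CG c : ℕ} (h : IsU (gM (cg CG (Nat.mod c 64)))) : (hU CG c).1 = hM CG c := by
  rw [hU, gU_eq h]
  rfl

theorem e5U {CG ci cj cw cp : ℕ} (h : E5 CG (hN CG ci) cj cw cp = true)
    (hi : IsU (gM (cg CG (Nat.mod ci 64)))) (hj : IsU (gM (cg CG (Nat.mod cj 64))))
    (hw : IsU (gM (cg CG (Nat.mod cw 64)))) :
    hU CG cj = hU CG ci * hU CG cw * pcU (Nat.mod cp 8) cp := by
  apply Subtype.ext
  rw [U31.val_mul, U31.val_mul, hU_val hi, hU_val hj, hU_val hw]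
  exact rowRep.2 CG ci cj cw cp h

/-- The record describes the cusp of `h`. -/
def Rc (h : U31) (a0 a1 a2 a3 m0 m1 m2 m3 e tf tw : ℕ) : Prop :=
  ∃ y0 y1 y2 y3 t D : ℝ, PosOf h y0 y1 y2 y3 t D ∧ Enc a0 a1 a2 a3 m0 m1 m2 m3 e y0 y1 y2 y3 t ∧
    0 < D ∧ 2 ^ 66 ≤ 998 / 1000 * D * tf ∧ D * tw ≤ 998 / 1000 * 2 ^ 66

section
variable {h : U31} {a0 a1 a2 a3 m0 m1 m2 m3 e tf tw c0 c1 c2 c3 c4 r0 r1 r2 r3 r4 : ℕ}
  {x0 x1 x2 x3 s : ℝ}

theorem Rc.far (H : Rc h a0 a1 a2 a3 m0 m1 m2 m3 e tf tw) (hD : Dom x0 x1 x2 x3 s)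
    (hB : InB c0 c1 c2 c3 c4 r0 r1 r2 r3 r4 x0 x1 x2 x3 s)
    (hf : far c0 c1 c2 c3 r0 r1 r2 r3 r4 (c4 + 131072 * (c0 + c2)) (131072 * (c1 + c3))
      a0 a1 a2 a3 m0 m1 m2 m3 e tf = true) : ¬ 998 / 1000 * rr h (bp x0 x1 x2 x3 s 0) < 1 := by
  obtain ⟨y0, y1, y2, y3, t, D, h1, h2, h3, h4, -⟩ := H
  have h5 := (rowFar _ _ _ _ _ _ _ _ _ _ _ _ _ _ _ _ _ _ _ tf _ _ _ _ _ _ _ _ _ _ hD hB h2).1 hf
  rw [rowPos.1 _ _ _ _ _ _ _ _ _ _ _ _ h1]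
  have := mul_le_mul_of_nonneg_left h5 h3.le
  intro hc
  nlinarith

theorem Rc.val (H : Rc h a0 a1 a2 a3 m0 m1 m2 m3 e tf tw) (hD : Dom x0 x1 x2 x3 s)
    (hB : InB c0 c1 c2 c3 c4 r0 r1 r2 r3 r4 x0 x1 x2 x3 s)
    (hf : val c0 c1 c2 c3 r0 r1 r2 r3 r4 (c4 + 131072 * (c0 + c2)) (131072 * (c1 + c3))
      a0 a1 a2 a3 m0 m1 m2 m3 e tw = true) : rr h (bp x0 x1 x2 x3 s 0) ≤ 998 / 1000 := by
  obtain ⟨y0, y1, y2, y3, t, D, h1, h2, h3, -, h4⟩ := H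
  have h5 := (rowFar _ _ _ _ _ _ _ _ _ _ _ _ _ _ _ _ _ _ _ tw _ _ _ _ _ _ _ _ _ _ hD hB h2).2 hf
  rw [rowPos.1 _ _ _ _ _ _ _ _ _ _ _ _ h1]
  have := mul_le_mul_of_nonneg_left h5 h3.le
  nlinarith

end

theorem mkA_sound {CG CX cl u v : ℕ} {a b c d m : ℤ} {k : K9} (hc : ClsOK CG CX cl) (hu : u < 4)
    (hv : v < 8) (ha : |a| ≤ 8) (hb : |b| ≤ 8) (hc' : |c| ≤ 8) (hd : |d| ≤ 8)
    (h : mkA CX cl u v a b c d m k = true) :
    ∃ a0 a1 a2 a3 m0 m1 m2 m3 e, k a0 a1 a2 a3 m0 m1 m2 m3 e = true ∧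
      Rc (pU 0 u v a b c d m * gU (cg CG cl)) a0 a1 a2 a3 m0 m1 m2 m3 e (ctf CX cl) (ctv CX cl) := by
  obtain ⟨hg, y0, y1, y2, y3, t, D, h1, p0, p1, p2, p3, p4, h2, h3, h4, -⟩ := hc
  obtain ⟨e1, e2, e3⟩ := rowMk.1 (2 * u) (by omega)
  obtain ⟨f1, f2, f3⟩ := rowMk.1 v hv
  obtain ⟨a0, a1, a2, a3, m0, m1, m2, m3, e, k1, k2⟩ :=
    rowMk.2.2 _ _ _ _ _ _ _ _ _ a b c d m k y0 y1 y2 y3 t p0 p1 p2 p3 p4 e2 e3 f2 f3 ha hb hc' hd h
  refine ⟨a0, a1, a2, a3, m0, m1, m2, m3, e, k1, _, _, _, _, _, D, ?_, k2, h2, h3, h4⟩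
  rw [gU_eq hg]
  exact rowPos.2.2.2 _ _ _ _ _ _ _ _ u v a b c d m _ _ _ _ h1 rfl ((rowMk.2.1 u).trans e1) f1

theorem ab8 (c s : ℕ) : |Int.subNatNat (fl c s 16) 8| ≤ 8 := by
  have := Rep.fl_lt c s (m := 16) (by norm_num)
  rw [Int.subNatNat_eq_coe, abs_le]
  omega

theorem eq9_true {a0 a1 a2 a3 m0 m1 m2 m3 e b0 b1 b2 b3 n0 n1 n2 n3 f : ℕ}
    (h : eq9 a0 a1 a2 a3 m0 m1 m2 m3 e b0 b1 b2 b3 n0 n1 n2 n3 f = true) :
    a0 = b0 ∧ a1 = b1 ∧ a2 = b2 ∧ a3 = b3 ∧ m0 = n0 ∧ m1 = n1 ∧ m2 = n2 ∧ m3 = n3 ∧ e = f := by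
  simpa only [eq9, Rep.band_iff, Nat.beq_eq] using h

theorem mkC_sound {CG CX c a0 a1 a2 a3 m0 m1 m2 m3 e : ℕ} (hc : ClsOK CG CX (Nat.mod c 64))
    (h : mkC CX c (eq9 a0 a1 a2 a3 m0 m1 m2 m3 e) = true) :
    Rc (hU CG c) a0 a1 a2 a3 m0 m1 m2 m3 e (ctf CX (Nat.mod c 64)) (ctv CX (Nat.mod c 64)) := by
  obtain ⟨b0, b1, b2, b3, n0, n1, n2, n3, f, k1, k2⟩ := mkA_sound hc
    (Rep.fl_lt c 64 (by norm_num)) (Rep.fl_lt c 256 (by norm_num)) (ab8 _ _) (ab8 _ _) (ab8 _ _)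
    (ab8 _ _) h
  obtain ⟨rfl, rfl, rfl, rfl, rfl, rfl, rfl, rfl, rfl⟩ := eq9_true k1
  simp only [Int.subNatNat_eq_coe] at k2
  exact k2

section
variable {CG CX PC : ℕ} (hC : ∀ a < 40, ClsOK CG CX a) {x0 x1 x2 x3 s : ℝ} (hD : Dom x0 x1 x2 x3 s)
include hC

include hD in
theorem uok_sound : ∀ (U : RL) (i : ℕ), uok CX PC U i = true →
    UOK (fun j => 998 / 1000 * rr (hU CG (par PC j)) (bp x0 x1 x2 x3 s 0) < 1) x0 x1 x2 x3 s U ∧
      (∀ close R, UG close R U → ∀ j, i ≤ j → j < 270 → close j → R j) ∧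
      ∀ j, i ≤ j → j < 270 → Nat.mod (par PC j) 64 < 4
  | .nil, i, h => by
    have : i = 270 := Nat.eq_of_beq_eq_true h
    exact ⟨trivial, fun _ _ _ j _ _ => by omega, fun j _ _ => by omega⟩
  | .cons a0 a1 a2 a3 m0 m1 m2 m3 e th b tl, i, h => by
    change band _ (band _ (band _ (band _ (uok CX PC tl (i + 1))))) = true at h
    simp only [Rep.band_iff, Nat.beq_eq, Nat.ble_eq] at h
    obtain ⟨h1, h2, h3, h4, h5⟩ := h
    obtain ⟨k1, k2, k3⟩ := uok_sound tl (i + 1) h5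
    have hr := mkC_sound (hC _ (by omega)) h4
    refine ⟨⟨⟨i, h1, fun c0 c1 c2 c3 c4 r0 r1 r2 r3 r4 hB hf => hr.far hD hB (h3 ▸ hf)⟩, k1⟩,
      fun close R hg j j1 j2 => ?_, fun j j1 j2 => ?_⟩
    · rcases j1.eq_or_lt with rfl | j1
      · exact hg.1 i h1
      · exact k2 close R hg.2 j j1 j2
    · rcases j1.eq_or_lt with rfl | j1
      · omega
      · exact k3 j j1 j2

theorem el_sound {ci k : ℕ} (hi : Nat.mod ci 64 ≤ 39) : ∀ (f ed acc : ℕ),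
    el CG PC (hN CG ci) k f ed acc = true →
    (∀ j, acc.testBit j = true → (hU CG ci)⁻¹ * hU CG (par PC j) ∈ T3 CG) →
    ∀ j, k.testBit j = true → (hU CG ci)⁻¹ * hU CG (par PC j) ∈ T3 CG
  | 0, _, _, h, _ => absurd h (by simp [el])
  | f + 1, ed, acc, h, ha => by
    rcases brec h with ⟨-, h⟩ | ⟨-, h⟩
    · simp only [frc_eq, Rep.band_iff, Nat.ble_eq] at h
      obtain ⟨h1, h2, h3, h4⟩ := h
      refine el_sound hi f _ _ h4 fun j hj => ?_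
      change (acc ||| 2 ^ (Nat.mod ed 1024)).testBit j = true at hj
      rw [Nat.testBit_or, Bool.or_eq_true] at hj
      rcases hj with hj | hj
      · exact ha j hj
      · rw [Nat.testBit_two_pow, decide_eq_true_eq] at hj
        subst hj
        rw [e5U h3 (hC _ (by omega)).1 (hC _ (by omega)).1 (hC _ (by omega)).1, mul_assoc,
          inv_mul_cancel_left]
        exact Or.inr ⟨_, by omega, _, pcU_mem _ _, _, pcU_mem _ _, rfl⟩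
    · rw [← Nat.eq_of_beq_eq_true h]
      exact ha

include hD in
theorem hok_sound : ∀ (t : HT) (E : ET), hok CG CX PC t E = true →
    HOK (fun j => rr (hU CG (par PC j)) (bp x0 x1 x2 x3 s 0) ≤ 998 / 1000)
      (fun i j => (hU CG (par PC i))⁻¹ * hU CG (par PC j) ∈ T3 CG) x0 x1 x2 x3 s t
  | .lf a0 a1 a2 a3 m0 m1 m2 m3 e th b k, .lf i ed, h => by
    change band _ (band _ (band _ (band _ (el CG PC (hN CG (par PC i)) k 100 ed b)))) = true at h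
    simp only [Rep.band_iff, Nat.beq_eq, Nat.ble_eq] at h
    obtain ⟨h1, h2, h3, h4, h5⟩ := h
    have hr := mkC_sound (hC _ (by omega)) h4
    refine ⟨i, h1, fun c0 c1 c2 c3 c4 r0 r1 r2 r3 r4 hB hf => hr.val hD hB (h3 ▸ hf),
      el_sound hC h2 _ _ _ h5 fun j hj => ?_⟩
    rw [h1] at hj
    change (2 ^ i).testBit j = true at hj
    rw [Nat.testBit_two_pow, decide_eq_true_eq] at hj
    subst hj
    rw [inv_mul_cancel]
    exact Or.inl P3.one_mem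
  | .lf .., .nd _ _, h => absurd h Bool.false_ne_true
  | .nd _ _, .lf _ _, h => absurd h Bool.false_ne_true
  | .nd l r, .nd a b, h => by
    obtain ⟨h1, h2⟩ := band_true (x := hok CG CX PC l a) (y := hok CG CX PC r b) h
    exact ⟨hok_sound l a h1, hok_sound r b h2⟩

end

theorem allN_true {p : ℕ → Bool} : ∀ {n : ℕ}, allN n p = true → ∀ i < n, p i = true
  | 0, _, _, h => absurd h (Nat.not_lt_zero _)
  | n + 1, h, i, hi => by
    obtain ⟨h1, h2⟩ := band_true (x := p n) (y := allN n p) h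
    rcases (Nat.lt_succ_iff.1 hi).eq_or_lt with rfl | hi
    · exact h1
    · exact allN_true h2 i hi

theorem bor_true {x y : Bool} (h : bor x y = true) : x = true ∨ y = true := by
  rcases brec h with h | h
  · exact Or.inr h.2
  · exact Or.inl h.1

theorem mem_true {PC c : ℕ} (h : mem PC c = true) : ∃ i < 270, par PC i = c := by
  have : ∀ n : ℕ, Nat.rec (motive := fun _ => Bool) false
      (fun i ih => bor (Nat.beq (par PC i) c) ih) n = true → ∃ i < n, par PC i = c := by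
    intro n
    induction n with
    | zero => exact fun h => absurd h Bool.false_ne_true
    | succ n ih =>
      intro h
      rcases bor_true h with h | h
      · exact ⟨n, Nat.lt_succ_self n, Nat.eq_of_beq_eq_true h⟩
      · obtain ⟨i, h1, h2⟩ := ih h
        exact ⟨i, Nat.lt_succ_of_lt h1, h2⟩
  exact this 270 h

theorem root_in {x0 x1 x2 x3 s : ℝ} (hD : Dom x0 x1 x2 x3 s) :
    InB 147456 131072 147456 139296 137438953472 16386 16450 16386 8226 2148139008 x0 x1 x2 x3 s := by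
  obtain ⟨h0, h1, h2, h3, h4, h5, h6, h7, h8, h9⟩ := hD
  rw [abs_le] at h9
  refine ⟨?_, ?_, ?_, ?_, ?_⟩ <;> rw [← le_sub_iff_add_le, abs_le] <;> push_cast <;>
    constructor <;> linarith [h9.1, h9.2]

theorem hU_cod (CG : ℕ) {cl u a b c d m : ℕ} (h0 : cl < 4) (h1 : u < 4) (h2 : a < 5) (h3 : b < 5)
    (h4 : c < 3) (h5 : d < 3) (h6 : m < 15) : hU CG (cod cl u a b c d m) =
      pU 0 u 0 ((a : ℤ) - 2) ((b : ℤ) - 2) ((c : ℤ) - 1) ((d : ℤ) - 1) ((m : ℤ) - 9) *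
        gU (cg CG cl) := by
  have e : ∀ x s n, fl x s n = x / s % n := fun _ _ _ => rfl
  have e' : ∀ x n, Nat.mod x n = x % n := fun _ _ => rfl
  rw [hU, pcU, e, e, e, e, e, e, e, e', cod]
  congr 2 <;> first | omega | (congr 1; omega)

theorem en_sound {CG CX PC cl u : ℕ} (hc : ClsOK CG CX cl) (h0 : cl < 4) (hu : u < 4)
    (h : en CX PC cl u = true) {a b c d m : ℤ} (r1 : -2 ≤ 2 * a - b) (r2 : 2 * a - b ≤ 3)
    (r3 : -2 ≤ b) (r4 : b ≤ 2) (r5 : -1 ≤ 2 * c - d) (r6 : 2 * c - d ≤ 2) (r7 : -1 ≤ d) (r8 : d ≤ 1)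
    (r9 : -9 ≤ m) (r10 : m ≤ 5) {x0 x1 x2 x3 s : ℝ} (hD : Dom x0 x1 x2 x3 s)
    (hcl : 998 / 1000 * rr (pU 0 u 0 a b c d m * gU (cg CG cl)) (bp x0 x1 x2 x3 s 0) < 1) :
    ∃ i < 270, hU CG (par PC i) = pU 0 u 0 a b c d m * gU (cg CG cl) := by
  obtain ⟨A, rfl⟩ : ∃ A : ℕ, a = A - 2 := ⟨(a + 2).toNat, by omega⟩
  obtain ⟨B, rfl⟩ : ∃ A : ℕ, b = A - 2 := ⟨(b + 2).toNat, by omega⟩
  obtain ⟨C, rfl⟩ : ∃ A : ℕ, c = A - 1 := ⟨(c + 1).toNat, by omega⟩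
  obtain ⟨D, rfl⟩ : ∃ A : ℕ, d = A - 1 := ⟨(d + 1).toNat, by omega⟩
  obtain ⟨M, rfl⟩ : ∃ A : ℕ, m = A - 9 := ⟨(m + 9).toNat, by omega⟩
  rcases bor_true (allN_true (allN_true h A (by omega)) B (by omega)) with h | h
  · rcases bor_true h with h | h <;> rw [Nat.ble_eq] at h <;> omega
  rcases bor_true (allN_true (allN_true h C (by omega)) D (by omega)) with h | h
  · rcases bor_true h with h | h <;> rw [Nat.ble_eq] at h <;> omega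
  rcases bor_true (allN_true h M (by omega)) with h | h
  · simp only [Int.subNatNat_eq_coe, Nat.cast_ofNat, Nat.cast_one] at h
    obtain ⟨a0, a1, a2, a3, m0, m1, m2, m3, e, k1, k2⟩ := mkA_sound hc hu (by norm_num)
      (by rw [abs_le]; omega) (by rw [abs_le]; omega) (by rw [abs_le]; omega)
      (by rw [abs_le]; omega) h
    exact absurd hcl (k2.far hD (root_in hD) k1)
  · rw [frc_eq] at h
    obtain ⟨i, h1, h2⟩ := mem_true h
    exact ⟨i, h1, by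
      rw [h2, hU_cod CG h0 hu (by omega) (by omega) (by omega) (by omega) (by omega)]⟩

end Pool.Agent.MP_d97ab6_al.H32
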