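import Pool.Agent.MP_d97ab6_al.H32.Ex

/-! Checking functions for the tables. -/

namespace Pool.Agent.MP_d97ab6_al.H32

def par (PC i : Nat) : Nat := Nat.mod (Nat.shiftRight PC (Nat.mul 33 i)) 8589934592

noncomputable def mkA (CX cl u v : Nat) (a b c d m : Int) (k : K9) : Bool :=
  mkE (cx CX cl 0) (cx CX cl 1) (cx CX cl 2) (cx CX cl 3) (cx CX cl 4) (za (Nat.mul 2 u))
    (zb (Nat.mul 2 u)) (za v) (zb v) a b c d m k

noncomputable def mkC (CX c : Nat) (k : K9) : Bool :=
  mkA CX (Nat.mod c 64) (fl c 64 4) (fl c 256 8) (Int.subNatNat (fl c 2048 16) 8)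
    (Int.subNatNat (fl c 32768 16) 8) (Int.subNatNat (fl c 524288 16) 8)
    (Int.subNatNat (fl c 8388608 16) 8) (Int.subNatNat (fl c 134217728 64) 32) k

noncomputable def eq9 (a0 a1 a2 a3 m0 m1 m2 m3 e : Nat) : K9 :=
  fun b0 b1 b2 b3 n0 n1 n2 n3 f =>
    band (Nat.beq a0 b0) (band (Nat.beq a1 b1) (band (Nat.beq a2 b2) (band (Nat.beq a3 b3)
      (band (Nat.beq m0 n0) (band (Nat.beq m1 n1) (band (Nat.beq m2 n2) (band (Nat.beq m3 n3)
        (Nat.beq e f))))))))

/-- Checks the list of the vectors of small depth. -/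
noncomputable def uok (CX PC : Nat) (U : RL) : Nat → Bool :=
  RL.rec (motive := fun _ => Nat → Bool) (fun i => Nat.beq i 270)
    (fun a0 a1 a2 a3 m0 m1 m2 m3 e th b _ ih i => frc (par PC i) fun c =>
      band (Nat.beq b (Nat.pow 2 i)) (band (Nat.ble (Nat.mod c 64) 3)
        (band (Nat.beq th (ctf CX (Nat.mod c 64)))
          (band (mkC CX c (eq9 a0 a1 a2 a3 m0 m1 m2 m3 e)) (frc (Nat.succ i) ih))))) U

/-- Checks the edges from one hub. -/
noncomputable def el (CG PC : Nat) (hi : NM) (k f : Nat) : Nat → Nat → Bool :=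
  Nat.rec (motive := fun _ => Nat → Nat → Bool) (fun _ _ => false)
    (fun _ ih ed acc => Bool.rec (motive := fun _ => Bool)
      (frc (Nat.mod ed 1024) fun j => frc (par PC j) fun cj =>
        frc (fl ed 1024 8589934592) fun cw => frc (fl ed 8796093022208 8589934592) fun cp =>
          band (Nat.ble (Nat.mod cj 64) 39) (band (Nat.ble (Nat.mod cw 64) 3)
            (band (E5 CG hi cj cw cp) (frc (Nat.shiftRight ed 76) fun ed' =>
              frc (Nat.lor acc (Nat.pow 2 j)) fun acc' => ih ed' acc'))))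
      (Nat.beq acc k) (Nat.beq ed 0)) f

inductive ET
  | lf (i n : Nat)
  | nd (l r : ET)

/-- Checks the table of hubs. -/
noncomputable def hok (CG CX PC : Nat) (t : HT) : ET → Bool :=
  HT.rec (motive := fun _ => ET → Bool)
    (fun a0 a1 a2 a3 m0 m1 m2 m3 e th b k E => ET.rec (motive := fun _ => Bool)
      (fun i ed => frc (par PC i) fun c =>
        band (Nat.beq b (Nat.pow 2 i)) (band (Nat.ble (Nat.mod c 64) 39)
          (band (Nat.beq th (ctv CX (Nat.mod c 64)))
            (band (mkC CX c (eq9 a0 a1 a2 a3 m0 m1 m2 m3 e)) (el CG PC (hN CG c) k 100 ed b)))))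
      (fun _ _ _ _ => false) E)
    (fun _ _ il ir E => ET.rec (motive := fun _ => Bool) (fun _ _ => false)
      (fun l r _ _ => band (il l) (ir r)) E) t

noncomputable def allN (n : Nat) (p : Nat → Bool) : Bool :=
  Nat.rec (motive := fun _ => Bool) true (fun i ih => band (p i) ih) n

noncomputable def bor (x y : Bool) : Bool := Bool.rec (motive := fun _ => Bool) y true x

noncomputable def mem (PC c : Nat) : Bool :=
  Nat.rec (motive := fun _ => Bool) false (fun i ih => bor (Nat.beq (par PC i) c) ih) 270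

def cod (cl u a b c d m : Nat) : Nat :=
  cl + 64 * u + 2048 * (a + 6) + 32768 * (b + 6) + 524288 * (c + 7) + 8388608 * (d + 7) +
    134217728 * (m + 23)

/-- The far test on the root box. -/
def farR (th : Nat) : K9 := fun a0 a1 a2 a3 m0 m1 m2 m3 e =>
  far 147456 131072 147456 139296 16386 16450 16386 8226 2148139008
    (137438953472 + 131072 * (147456 + 147456)) (131072 * (131072 + 139296))
    a0 a1 a2 a3 m0 m1 m2 m3 e th

/-- All translates of one representative are far from the root box or listed. -/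
noncomputable def en (CX PC cl u : Nat) : Bool :=
  allN 5 fun a => allN 5 fun b => bor (bor (Nat.ble (2 * a + 1) b) (Nat.ble (b + 6) (2 * a)))
    (allN 3 fun c => allN 3 fun d => bor (bor (Nat.ble (2 * c + 1) d) (Nat.ble (d + 4) (2 * c)))
      (allN 15 fun m => bor (mkA CX cl u 0 (Int.subNatNat a 2) (Int.subNatNat b 2)
        (Int.subNatNat c 1) (Int.subNatNat d 1) (Int.subNatNat m 9) (farR (ctf CX cl)))
        (frc (cod cl u a b c d m) (mem PC))))

end Pool.Agent.MP_d97ab6_al.H32
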